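import Pool.Agent.Helper63.Common.Defs

/-!
Proof of the exact two-colour inequality (lemma row 25, helper79).
-/

set_option autoImplicit false
open Finset

namespace Pool.Agent.Helper63.CoreProof

open Pool.Agent.Helper63.Common

/-- Cumulative sums. -/
noncomputable def F (G : ℤ → ℝ) (y : ℤ) : ℝ := ∑ x ∈ Finset.Ico (0 : ℤ) y, G x

section

variable {G : ℤ → ℝ}

lemma F_nonpos {y : ℤ} (h : y ≤ 0) : F G y = 0 := by
  unfold F
  rw [Finset.Ico_eq_empty (by omega)]
  rfl

lemma F_step (h0 : ∀ x < 0, G x = 0) (y : ℤ) : F G (y + 1) = F G y + G y := by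
  by_cases hy : y < 0
  · rw [F_nonpos (by omega), F_nonpos (by omega), h0 y hy]; simp
  · unfold F
    have h : Finset.Ico (0 : ℤ) (y + 1) = insert y (Finset.Ico (0 : ℤ) y) := by
      ext x
      simp only [Finset.mem_Ico, Finset.mem_insert]
      omega
    rw [h, Finset.sum_insert (by simp)]
    ring

lemma F_sum (h0 : ∀ x < 0, G x = 0) (e : ℤ) (m : ℕ) :
    ∑ k ∈ range m, G (e + k) = F G (e + m) - F G e := by
  induction m with
  | zero => simp
  | succ m ih =>
    rw [sum_range_succ, ih]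
    have := F_step h0 (e + m)
    push_cast
    rw [show e + ((m : ℤ) + 1) = e + m + 1 by ring, this]
    ring

lemma F_ge {n : ℕ} (hn : ∀ x : ℤ, (n : ℤ) ≤ x → G x = 0) {y : ℤ} (h : (n : ℤ) ≤ y) :
    F G y = F G n := by
  unfold F
  symm
  apply Finset.sum_subset
  · intro x hx
    simp only [Finset.mem_Ico] at hx ⊢
    omega
  · intro x hx hx'
    simp only [Finset.mem_Ico] at hx hx'
    exact hn x (by omega)

/-- Sums of squares of window sums over an injective family of windows. -/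
lemma win_le (h0 : ∀ x < 0, G x = 0) {n q : ℕ} (hn : ∀ x : ℤ, (n : ℤ) ≤ x → G x = 0)
    {α : Type*} [DecidableEq α] (A : Finset α) (φ : α → ℤ) (hφ : Set.InjOn φ A) :
    ∑ a ∈ A, (F G (φ a + q) - F G (φ a)) ^ 2 ≤
      ∑ d ∈ Finset.Ico (-(n : ℤ)) q, (∑ u ∈ range q, G (u - d)) ^ 2 := by
  have h1 : ∀ d : ℤ, ∑ u ∈ range q, G (u - d) = F G (-d + q) - F G (-d) := by
    intro d
    rw [← F_sum h0]
    apply sum_congr rfl
    intro u _
    congr 1
    ring
  simp only [h1]
  have h2 : ∑ a ∈ A, (F G (φ a + q) - F G (φ a)) ^ 2 =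
      ∑ d ∈ A.image (fun a => -φ a), (F G (-d + q) - F G (-d)) ^ 2 := by
    rw [Finset.sum_image]
    · apply sum_congr rfl
      intro a _
      rw [neg_neg]
    · intro a ha b hb hab
      exact hφ ha hb (neg_injective hab)
  rw [h2]
  have h3 : ∑ d ∈ A.image (fun a => -φ a), (F G (-d + q) - F G (-d)) ^ 2 =
      ∑ d ∈ (A.image (fun a => -φ a)).filter (fun d => d ∈ Finset.Ico (-(n : ℤ)) q),
        (F G (-d + q) - F G (-d)) ^ 2 := by
    symm
    apply Finset.sum_subset (filter_subset _ _)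
    intro d hd hd'
    rw [Finset.mem_filter, not_and] at hd'
    have h4 := hd' hd
    rw [Finset.mem_Ico, not_and_or] at h4
    rcases h4 with h4 | h4
    · rw [F_ge hn (y := -d + q) (by omega), F_ge hn (y := -d) (by omega)]; simp
    · rw [F_nonpos (y := -d + q) (by omega), F_nonpos (y := -d) (by omega)]; simp
  rw [h3]
  apply Finset.sum_le_sum_of_subset_of_nonneg
  · intro d hd
    exact (Finset.mem_filter.1 hd).2
  · intro d _ _
    positivity

/-- Sums against the indicator. -/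
lemma iota_sum {n q : ℕ} (φ : ℤ → ℝ) (ι : ℤ → ℝ) (h1 : ∀ x : ℤ, 0 ≤ x → x < n → ι x = 1)
    (h2 : ∀ x < 0, ι x = 0) (h3 : ∀ x : ℤ, (n : ℤ) ≤ x → ι x = 0) (u : ℕ) (hu : u < q) :
    ∑ d ∈ Finset.Ico (-(n : ℤ)) q, ι (u - d) * φ d = ∑ k ∈ range n, φ (u - k) := by
  have e : ∑ d ∈ Finset.Ico (-(n : ℤ)) q, ι (u - d) * φ d =
      ∑ d ∈ (range n).image (fun k : ℕ => (u : ℤ) - k), ι (u - d) * φ d := by
    symm
    apply Finset.sum_subset
    · intro d hd
      rw [Finset.mem_image] at hd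
      obtain ⟨k, hk, rfl⟩ := hd
      rw [Finset.mem_range] at hk
      rw [Finset.mem_Ico]
      omega
    · intro d hd hd'
      rw [Finset.mem_Ico] at hd
      rw [Finset.mem_image] at hd'
      by_cases hd0 : (u : ℤ) - d < 0
      · rw [h2 _ hd0, zero_mul]
      · by_cases hdn : (n : ℤ) ≤ u - d
        · rw [h3 _ hdn, zero_mul]
        · exfalso
          apply hd'
          exact ⟨((u : ℤ) - d).toNat, by rw [Finset.mem_range]; omega, by omega⟩
  rw [e, Finset.sum_image]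
  · apply sum_congr rfl
    intro k hk
    rw [Finset.mem_range] at hk
    rw [h1 _ (by omega) (by omega), one_mul]
  · intro a _ b _ hab
    have : (u : ℤ) - a = u - b := hab
    omega

end

end Pool.Agent.Helper63.CoreProof

namespace Pool.Agent.Helper63.CoreProof

open Pool.Agent.Helper63.Common

/-- Extension by zero. -/
noncomputable def ext {n : ℕ} (h : Fin n → ℝ) (x : ℤ) : ℝ :=
  if hx : 0 ≤ x ∧ x < n then h ⟨x.toNat, by omega⟩ else 0

lemma ext_fin {n : ℕ} (h : Fin n → ℝ) (a : Fin n) : ext h ((a : ℕ) : ℤ) = h a := by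
  have ha := a.2
  unfold ext
  rw [dif_pos (by omega)]
  congr 1

lemma ext_neg {n : ℕ} (h : Fin n → ℝ) : ∀ x < 0, ext h x = 0 := by
  intro x hx
  unfold ext
  rw [dif_neg (by omega)]

lemma ext_ge {n : ℕ} (h : Fin n → ℝ) : ∀ x : ℤ, (n : ℤ) ≤ x → ext h x = 0 := by
  intro x hx
  unfold ext
  rw [dif_neg (by omega)]

lemma ext_one {n : ℕ} : ∀ x : ℤ, 0 ≤ x → x < n → ext (fun _ : Fin n => (1 : ℝ)) x = 1 := by
  intro x hx hx'
  unfold ext
  rw [dif_pos ⟨hx, hx'⟩]

lemma ext_add {n : ℕ} (g : Fin n → ℝ) (x : ℤ) :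
    ext (fun x => 1 + g x) x = ext (fun _ : Fin n => (1 : ℝ)) x + ext g x := by
  unfold ext
  split_ifs <;> simp

lemma ext_sub {n : ℕ} (g : Fin n → ℝ) (x : ℤ) :
    ext (fun x => 1 - g x) x = ext (fun _ : Fin n => (1 : ℝ)) x - ext g x := by
  unfold ext
  split_ifs <;> simp

lemma T_eq (N q : ℕ) (hN : 0 < N) (h : Fin (N * q) → ℝ) :
    T N (N * q) h = ∑ ρ ∈ range N, ∑ d ∈ Finset.Ico (-((N * q : ℕ) : ℤ)) q,
      (∑ u ∈ range q, ext h (N * u + ρ) * ext h (u - d)) ^ 2 := by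
  have h1 : ∑ ρ ∈ range N, ∑ d ∈ Finset.Ico (-((N * q : ℕ) : ℤ)) q,
      (∑ u ∈ range q, ext h (N * u + ρ) * ext h (u - d)) ^ 2 =
      ∑ y ∈ range N ×ˢ (Finset.Ico (-((N * q : ℕ) : ℤ)) q ×ˢ (range q ×ˢ range q)),
        (ext h (N * y.2.2.1 + y.1) * ext h (y.2.2.1 - y.2.1)) *
        (ext h (N * y.2.2.2 + y.1) * ext h (y.2.2.2 - y.2.1)) := by
    rw [Finset.sum_product]
    apply sum_congr rfl
    intro ρ _
    rw [Finset.sum_product]
    apply sum_congr rfl
    intro d _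
    rw [Finset.sum_product, sq, Finset.sum_mul_sum]
  rw [h1]
  unfold T
  refine Finset.sum_of_injOn
    (fun x : Fin 4 → Fin (N * q) => ((x 0 : ℕ) % N, (((x 0 : ℕ) / N : ℕ) : ℤ) - ((x 2 : ℕ) : ℤ),
      (x 0 : ℕ) / N, (x 1 : ℕ) / N)) ?_ ?_ ?_ ?_
  · intro x hx y hy hxy
    rw [Finset.mem_coe, mem_sol] at hx hy
    simp only [Prod.mk.injEq] at hxy
    obtain ⟨a1, a2, a3, a4⟩ := hxy
    have b0 : (x 0 : ℕ) = y 0 := by
      rw [← Nat.div_add_mod (x 0 : ℕ) N, ← Nat.div_add_mod (y 0 : ℕ) N, a1, a3]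
    have b2 : ((x 2 : ℕ) : ℤ) = y 2 := by
      rw [a3] at a2
      omega
    -- the residue of x 1 is that of x 0
    have m1 : (x 1 : ℕ) % N = (x 0 : ℕ) % N := by
      have : ((x 1 : ℕ) : ℤ) % N = ((x 0 : ℕ) : ℤ) % N := by
        rw [show ((x 0 : ℕ) : ℤ) = ((x 1 : ℕ) : ℤ) + N * (((x 2 : ℕ) : ℤ) - ((x 3 : ℕ) : ℤ)) by
          linarith, Int.add_mul_emod_self_left]
      exact_mod_cast this
    have m2 : (y 1 : ℕ) % N = (y 0 : ℕ) % N := by
      have : ((y 1 : ℕ) : ℤ) % N = ((y 0 : ℕ) : ℤ) % N := by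
        rw [show ((y 0 : ℕ) : ℤ) = ((y 1 : ℕ) : ℤ) + N * (((y 2 : ℕ) : ℤ) - ((y 3 : ℕ) : ℤ)) by
          linarith, Int.add_mul_emod_self_left]
      exact_mod_cast this
    have b1 : (x 1 : ℕ) = y 1 := by
      rw [← Nat.div_add_mod (x 1 : ℕ) N, ← Nat.div_add_mod (y 1 : ℕ) N, m1, m2, a1, a4]
    have b3 : ((x 3 : ℕ) : ℤ) = y 3 := by
      rw [b0, b1, b2, hy] at hx
      have hN' : (N : ℤ) ≠ 0 := by exact_mod_cast hN.ne'
      have := mul_left_cancel₀ hN' hx
      linarith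
    funext i
    apply Fin.ext
    fin_cases i
    · exact b0
    · exact b1
    · exact_mod_cast b2
    · exact_mod_cast b3
  · intro x hx
    rw [Finset.mem_coe, mem_sol] at hx
    have c0 := (x 0).2
    have c1 := (x 1).2
    have c2 := (x 2).2
    have d0 : (x 0 : ℕ) / N < q := Nat.div_lt_of_lt_mul c0
    have d1 : (x 1 : ℕ) / N < q := Nat.div_lt_of_lt_mul c1
    rw [Finset.mem_coe, Finset.mem_product, Finset.mem_product, Finset.mem_product]
    refine ⟨Finset.mem_range.2 (Nat.mod_lt _ hN), ?_, Finset.mem_range.2 d0,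
      Finset.mem_range.2 d1⟩
    rw [Finset.mem_Ico]
    simp only
    clear hx c0 c1 d1 h1
    generalize (x 0 : ℕ) / N = k at d0 ⊢
    have c2' : ((x 2 : ℕ) : ℤ) < ((N * q : ℕ) : ℤ) := by exact_mod_cast c2
    have c2'' : (0 : ℤ) ≤ ((x 2 : ℕ) : ℤ) := Int.natCast_nonneg _
    have d0' : (k : ℤ) < q := by exact_mod_cast d0
    have d0'' : (0 : ℤ) ≤ (k : ℤ) := Int.natCast_nonneg _
    constructor <;> linarith
  · rintro ⟨ρ, d, u, v⟩ hy hy'
    rw [Finset.mem_product, Finset.mem_product, Finset.mem_product, Finset.mem_range,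
      Finset.mem_range, Finset.mem_range, Finset.mem_Ico] at hy
    simp only at hy ⊢
    obtain ⟨hρ, hd, hu, hv⟩ := hy
    by_contra hne
    have e1 : 0 ≤ (u : ℤ) - d ∧ (u : ℤ) - d < ((N * q : ℕ) : ℤ) := by
      by_contra hc
      apply hne
      rw [not_and_or] at hc
      rcases hc with hc | hc
      · rw [ext_neg h ((u : ℤ) - d) (by omega)]; ring
      · rw [ext_ge h ((u : ℤ) - d) (by omega)]; ring
    have e2 : 0 ≤ (v : ℤ) - d ∧ (v : ℤ) - d < ((N * q : ℕ) : ℤ) := by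
      by_contra hc
      apply hne
      rw [not_and_or] at hc
      rcases hc with hc | hc
      · rw [ext_neg h ((v : ℤ) - d) (by omega)]; ring
      · rw [ext_ge h ((v : ℤ) - d) (by omega)]; ring
    have f1 : N * u + ρ < N * q := by
      calc N * u + ρ < N * u + N := by omega
        _ = N * (u + 1) := by ring
        _ ≤ N * q := Nat.mul_le_mul_left _ hu
    have f2 : N * v + ρ < N * q := by
      calc N * v + ρ < N * v + N := by omega
        _ = N * (v + 1) := by ring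
        _ ≤ N * q := Nat.mul_le_mul_left _ hv
    apply hy'
    refine ⟨![⟨N * u + ρ, f1⟩, ⟨N * v + ρ, f2⟩, ⟨((u : ℤ) - d).toNat, by omega⟩,
      ⟨((v : ℤ) - d).toNat, by omega⟩], ?_, ?_⟩
    · rw [Finset.mem_coe, mem_sol]
      simp only [Matrix.cons_val_zero, Matrix.cons_val_one, Matrix.cons_val]
      rw [Int.toNat_of_nonneg e1.1, Int.toNat_of_nonneg e2.1]
      push_cast
      ring
    · simp only [Matrix.cons_val_zero, Matrix.cons_val_one, Matrix.cons_val]
      have g1 : (N * u + ρ) / N = u := by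
        rw [Nat.mul_add_div hN, Nat.div_eq_of_lt hρ, add_zero]
      have g2 : (N * v + ρ) / N = v := by
        rw [Nat.mul_add_div hN, Nat.div_eq_of_lt hρ, add_zero]
      have g3 : (N * u + ρ) % N = ρ := by
        rw [Nat.mul_add_mod, Nat.mod_eq_of_lt hρ]
      rw [g1, g2, g3, Int.toNat_of_nonneg e1.1]
      simp
  · intro x hx
    rw [mem_sol] at hx
    have m1 : (x 1 : ℕ) % N = (x 0 : ℕ) % N := by
      have : ((x 1 : ℕ) : ℤ) % N = ((x 0 : ℕ) : ℤ) % N := by
        rw [show ((x 0 : ℕ) : ℤ) = ((x 1 : ℕ) : ℤ) + N * (((x 2 : ℕ) : ℤ) - ((x 3 : ℕ) : ℤ)) by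
          linarith, Int.add_mul_emod_self_left]
      exact_mod_cast this
    have hN' : (N : ℤ) ≠ 0 := by exact_mod_cast hN.ne'
    have a0 : (N : ℤ) * (((x 0 : ℕ) / N : ℕ) : ℤ) + (((x 0 : ℕ) % N : ℕ) : ℤ) = ((x 0 : ℕ) : ℤ) := by
      exact_mod_cast Nat.div_add_mod (x 0 : ℕ) N
    have a1 : (N : ℤ) * (((x 1 : ℕ) / N : ℕ) : ℤ) + (((x 0 : ℕ) % N : ℕ) : ℤ) = ((x 1 : ℕ) : ℤ) := by
      rw [← m1]
      exact_mod_cast Nat.div_add_mod (x 1 : ℕ) N
    have a3 : (((x 1 : ℕ) / N : ℕ) : ℤ) - ((((x 0 : ℕ) / N : ℕ) : ℤ) - ((x 2 : ℕ) : ℤ)) =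
        ((x 3 : ℕ) : ℤ) := by
      have : (N : ℤ) * ((((x 0 : ℕ) / N : ℕ) : ℤ) - (((x 1 : ℕ) / N : ℕ) : ℤ)) =
          N * (((x 2 : ℕ) : ℤ) - ((x 3 : ℕ) : ℤ)) := by
        rw [← hx, ← a0, ← a1]
        ring
      have := mul_left_cancel₀ hN' this
      linarith
    simp only
    rw [a0, a1, a3, Fin.prod_univ_four, sub_sub_cancel]
    rw [ext_fin, ext_fin, ext_fin, ext_fin]
    ring

end Pool.Agent.Helper63.CoreProof

namespace Pool.Agent.Helper63.CoreProof

open Pool.Agent.Helper63.Common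

/-- Sum of the squares of the window sums. -/
noncomputable def Om (G : ℤ → ℝ) (n q : ℕ) : ℝ :=
  ∑ d ∈ Finset.Ico (-(n : ℤ)) q, (∑ u ∈ range q, G (u - d)) ^ 2

section

variable {G : ℤ → ℝ} {n q N : ℕ}

lemma E_bound (h0 : ∀ x < 0, G x = 0) (hn : ∀ x : ℤ, (n : ℤ) ≤ x → G x = 0) (hqn : q ≤ n) :
    ∑ t ∈ range q, (F G t + (F G n - F G (n - t))) ^ 2 ≤ 2 * Om G n q := by
  have key : ∑ t ∈ range q, (F G t) ^ 2 + ∑ t ∈ range q, (F G n - F G (n - t)) ^ 2 ≤
      Om G n q := by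
    have h1 := win_le (q := q) h0 hn ((range q).disjSum (range q))
      (Sum.elim (fun t : ℕ => (t : ℤ) - q) (fun t : ℕ => (n : ℤ) - t)) (by
        rintro (a | a) ha (b | b) hb hab
        · simp only [Sum.elim_inl] at hab
          congr 1
          omega
        · simp only [Sum.elim_inl, Sum.elim_inr] at hab
          rw [Finset.mem_coe, Finset.inl_mem_disjSum, Finset.mem_range] at ha
          rw [Finset.mem_coe, Finset.inr_mem_disjSum, Finset.mem_range] at hb
          omega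
        · simp only [Sum.elim_inl, Sum.elim_inr] at hab
          rw [Finset.mem_coe, Finset.inr_mem_disjSum, Finset.mem_range] at ha
          rw [Finset.mem_coe, Finset.inl_mem_disjSum, Finset.mem_range] at hb
          omega
        · simp only [Sum.elim_inr] at hab
          congr 1
          omega)
    rw [Finset.sum_disjSum] at h1
    refine le_trans (le_of_eq ?_) h1
    congr 1
    · apply sum_congr rfl
      intro t ht
      rw [Finset.mem_range] at ht
      simp only [Sum.elim_inl]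
      rw [F_nonpos (y := (t : ℤ) - q) (by omega)]
      simp
    · apply sum_congr rfl
      intro t ht
      rw [Finset.mem_range] at ht
      simp only [Sum.elim_inr]
      rw [F_ge hn (y := (n : ℤ) - t + q) (by omega)]
  have h2 : ∑ t ∈ range q, (F G t + (F G n - F G (n - t))) ^ 2 ≤
      ∑ t ∈ range q, (2 * (F G t) ^ 2 + 2 * (F G n - F G (n - t)) ^ 2) := by
    apply sum_le_sum
    intro t _
    nlinarith [sq_nonneg (F G t - (F G n - F G (n - t)))]
  rw [sum_add_distrib, ← mul_sum, ← mul_sum] at h2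
  linarith

lemma B_bound (h0 : ∀ x < 0, G x = 0) (hn : ∀ x : ℤ, (n : ℤ) ≤ x → G x = 0) (hN : 0 < N)
    (hcop : Nat.Coprime q N) (ε : ℤ) (hε : ε = 1 ∨ ε = -1) :
    ∑ t ∈ range q, (F G (ε * (N * t) + N * q) - F G (ε * (N * t))) ^ 2 ≤ N * Om G n q := by
  have h1 : ∀ t : ℕ, (F G (ε * (N * t) + N * q) - F G (ε * (N * t))) ^ 2 ≤
      N * ∑ j ∈ range N, (F G (ε * (N * t) + j * q + q) - F G (ε * (N * t) + j * q)) ^ 2 := by
    intro t
    have h2 : F G (ε * (N * t) + N * q) - F G (ε * (N * t)) =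
        ∑ j ∈ range N, (F G (ε * (N * t) + j * q + q) - F G (ε * (N * t) + j * q)) := by
      have h3 := Finset.sum_range_sub (fun j : ℕ => F G (ε * (N * t) + j * q)) N
      simp only [Nat.cast_zero, zero_mul, add_zero] at h3
      rw [← h3]
      apply sum_congr rfl
      intro j _
      congr 2
      push_cast
      ring
    rw [h2]
    have h4 := sq_sum_le_card_mul_sum_sq (s := range N)
      (f := fun j : ℕ => F G (ε * (N * t) + j * q + q) - F G (ε * (N * t) + j * q))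
    rw [Finset.card_range] at h4
    exact h4
  refine le_trans (sum_le_sum (fun t _ => h1 t)) ?_
  rw [← mul_sum]
  apply mul_le_mul_of_nonneg_left _ (Nat.cast_nonneg N)
  have h5 := win_le (q := q) h0 hn (range q ×ˢ range N)
    (fun a : ℕ × ℕ => ε * (N * a.1) + a.2 * q) (by
      rintro ⟨t, j⟩ ha ⟨t', j'⟩ hb hab
      rw [Finset.mem_coe, Finset.mem_product, Finset.mem_range, Finset.mem_range] at ha hb
      simp only at ha hb hab
      have hd : (N : ℤ) ∣ (j - j') * q := by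
        refine ⟨ε * (t' - t), ?_⟩
        linarith
      have hc : IsCoprime (N : ℤ) (q : ℤ) := by
        rw [Nat.isCoprime_iff_coprime]
        exact hcop.symm
      have hd2 : (N : ℤ) ∣ (j : ℤ) - j' := hc.dvd_of_dvd_mul_right hd
      have hj : (j : ℤ) = j' := by
        obtain ⟨k, hk⟩ := hd2
        have a1 : -(N : ℤ) < N * k := by rw [← hk]; omega
        have a2 : (N : ℤ) * k < N := by rw [← hk]; omega
        have hNpos : (0 : ℤ) < N := by exact_mod_cast hN
        have a3 : -1 < k := by nlinarith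
        have a4 : k < 1 := by nlinarith
        have a5 : k = 0 := by omega
        rw [a5, mul_zero] at hk
        omega
      rw [hj] at hab
      have ht : (t : ℤ) = t' := by
        have hNpos : (N : ℤ) ≠ 0 := by exact_mod_cast hN.ne'
        rcases hε with rfl | rfl
        · have : (N : ℤ) * t = N * t' := by linarith
          exact mul_left_cancel₀ hNpos this
        · have : (N : ℤ) * t = N * t' := by linarith
          exact mul_left_cancel₀ hNpos this
      rw [Prod.mk.injEq]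
      omega)
  rw [Finset.sum_product] at h5
  exact h5

/-- Double sums of a function of the distance. -/
lemma double (b f : ℕ → ℝ) (hf : f 0 = 0) (q : ℕ) :
    ∑ u ∈ range q, ∑ v ∈ range q, b u * f (u - v + (v - u)) =
      ∑ t ∈ range q, f t * (∑ u ∈ Finset.Ico t q, b u + ∑ u ∈ range (q - t), b u) := by
  have h1 : ∀ u ∈ range q, ∑ v ∈ range q, b u * f (u - v + (v - u)) =
      ∑ t ∈ range (u + 1), b u * f t + ∑ t ∈ range (q - u), b u * f t := by
    intro u hu
    rw [Finset.mem_range] at hu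
    rw [← Finset.sum_range_add_sum_Ico _ hu.le, Finset.sum_range_succ', hf, mul_zero, add_zero]
    congr 1
    · rw [← Finset.sum_range_reflect (fun j => b u * f (j + 1))]
      apply sum_congr rfl
      intro v hv
      rw [Finset.mem_range] at hv
      congr 2
      omega
    · rw [Finset.sum_Ico_eq_sum_range]
      apply sum_congr rfl
      intro v _
      congr 2
      omega
  rw [sum_congr rfl h1, sum_add_distrib]
  rw [Finset.sum_comm' (t' := range q) (s' := fun t => Finset.Ico t q)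
    (by intro x y; simp only [Finset.mem_range, Finset.mem_Ico]; omega)]
  rw [Finset.sum_comm' (s := range q) (t := fun u => range (q - u)) (t' := range q)
    (s' := fun t => range (q - t))
    (by intro x y; simp only [Finset.mem_range]; omega)]
  rw [← sum_add_distrib]
  apply sum_congr rfl
  intro t _
  rw [mul_add, mul_sum, mul_sum]
  congr 1 <;> apply sum_congr rfl <;> intro u _ <;> ring

end

end Pool.Agent.Helper63.CoreProof

namespace Pool.Agent.Helper63.CoreProof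

open Pool.Agent.Helper63.Common

section

variable {G ι : ℤ → ℝ} {q N : ℕ}

lemma F_zero : F G 0 = 0 := F_nonpos le_rfl

/-- the correlation sum -/
lemma C_eq (h0 : ∀ x < 0, G x = 0) {n : ℕ} (hn : ∀ x : ℤ, (n : ℤ) ≤ x → G x = 0)
    (i1 : ∀ x : ℤ, 0 ≤ x → x < n → ι x = 1)
    (i2 : ∀ x < 0, ι x = 0) (i3 : ∀ x : ℤ, (n : ℤ) ≤ x → ι x = 0)
    (u v : ℕ) (hu : u < q) (hv : v < q) :
    ∑ d ∈ Finset.Ico (-(n : ℤ)) q, (ι (v - d) * G (u - d) + G (v - d) * ι (u - d)) =
      2 * F G n - (F G ((u - v + (v - u) : ℕ) : ℤ) +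
        (F G n - F G ((n : ℤ) - ((u - v + (v - u) : ℕ) : ℤ)))) := by
  have a1 : ∑ d ∈ Finset.Ico (-(n : ℤ)) q, ι (v - d) * G (u - d) =
      F G ((u : ℤ) - v + n) - F G ((u : ℤ) - v) := by
    rw [iota_sum (fun d => G (u - d)) ι i1 i2 i3 v hv, ← F_sum h0]
    apply sum_congr rfl
    intro k _
    congr 1
    ring
  have a2 : ∑ d ∈ Finset.Ico (-(n : ℤ)) q, G (v - d) * ι (u - d) =
      F G ((v : ℤ) - u + n) - F G ((v : ℤ) - u) := by
    have : ∀ d ∈ Finset.Ico (-(n : ℤ)) q, G (v - d) * ι (u - d) = ι (u - d) * G (v - d) :=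
      fun d _ => mul_comm _ _
    rw [sum_congr rfl this, iota_sum (fun d => G (v - d)) ι i1 i2 i3 u hu, ← F_sum h0]
    apply sum_congr rfl
    intro k _
    congr 1
    ring
  rw [sum_add_distrib, a1, a2]
  rcases le_total u v with h | h
  · have e1 : u - v + (v - u) = v - u := by omega
    rw [e1]
    have e2 : ((v - u : ℕ) : ℤ) = (v : ℤ) - u := by omega
    rw [e2]
    rw [F_ge hn (y := (v : ℤ) - u + n) (by omega), F_nonpos (y := (u : ℤ) - v) (by omega)]
    rw [show (u : ℤ) - v + n = n - (v - u) by ring]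
    ring
  · have e1 : u - v + (v - u) = u - v := by omega
    rw [e1]
    have e2 : ((u - v : ℕ) : ℤ) = (u : ℤ) - v := by omega
    rw [e2]
    rw [F_ge hn (y := (u : ℤ) - v + n) (by omega), F_nonpos (y := (v : ℤ) - u) (by omega)]
    rw [show (v : ℤ) - u + n = n - (u - v) by ring]
    ring

lemma main_sum (h0 : ∀ x < 0, G x = 0) (hn : ∀ x : ℤ, ((N * q : ℕ) : ℤ) ≤ x → G x = 0)
    (i1 : ∀ x : ℤ, 0 ≤ x → x < ((N * q : ℕ) : ℤ) → ι x = 1)
    (i2 : ∀ x < 0, ι x = 0) (i3 : ∀ x : ℤ, ((N * q : ℕ) : ℤ) ≤ x → ι x = 0) :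
    ∑ d ∈ Finset.Ico (-((N * q : ℕ) : ℤ)) q,
      ((∑ v ∈ range q, ι (v - d)) * (∑ ρ ∈ range N, ∑ u ∈ range q, G (N * u + ρ) * G (u - d)) +
      (∑ v ∈ range q, G (v - d)) * (∑ ρ ∈ range N, ∑ u ∈ range q, G (N * u + ρ) * ι (u - d))) =
      2 * q * F G ((N * q : ℕ) : ℤ) ^ 2 - ∑ t ∈ range q,
        (F G t + (F G ((N * q : ℕ) : ℤ) - F G (((N * q : ℕ) : ℤ) - t))) *
        ((F G ((N * q : ℕ) : ℤ) - F G (N * t)) + F G (N * q - N * t)) := by
  set n : ℕ := N * q with hnq
  set b : ℕ → ℝ := fun u => F G (N * ((u + 1 : ℕ) : ℤ)) - F G (N * (u : ℤ)) with hb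
  have b1 : ∀ φ : ℤ → ℝ, ∀ d : ℤ, ∑ ρ ∈ range N, ∑ u ∈ range q, G (N * u + ρ) * φ (u - d) =
      ∑ u ∈ range q, b u * φ (u - d) := by
    intro φ d
    rw [sum_comm]
    apply sum_congr rfl
    intro u _
    rw [← sum_mul, F_sum h0, hb]
    simp only
    have : (N : ℤ) * u + N = N * ((u + 1 : ℕ) : ℤ) := by push_cast; ring
    rw [this]
  simp only [b1 G, b1 ι]
  have b2 : ∑ d ∈ Finset.Ico (-(n : ℤ)) q,
      ((∑ v ∈ range q, ι (v - d)) * (∑ u ∈ range q, b u * G (u - d)) +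
      (∑ v ∈ range q, G (v - d)) * (∑ u ∈ range q, b u * ι (u - d))) =
      ∑ u ∈ range q, ∑ v ∈ range q, b u *
        ∑ d ∈ Finset.Ico (-(n : ℤ)) q, (ι (v - d) * G (u - d) + G (v - d) * ι (u - d)) := by
    have c1 : ∀ d ∈ Finset.Ico (-(n : ℤ)) q,
      ((∑ v ∈ range q, ι (v - d)) * (∑ u ∈ range q, b u * G (u - d)) +
      (∑ v ∈ range q, G (v - d)) * (∑ u ∈ range q, b u * ι (u - d))) =
      ∑ u ∈ range q, ∑ v ∈ range q, b u * (ι (v - d) * G (u - d) + G (v - d) * ι (u - d)) := by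
      intro d _
      rw [mul_comm (∑ v ∈ range q, ι (v - d)), mul_comm (∑ v ∈ range q, G (v - d)),
        Finset.sum_mul_sum, Finset.sum_mul_sum, ← sum_add_distrib]
      apply sum_congr rfl
      intro u _
      rw [← sum_add_distrib]
      apply sum_congr rfl
      intro v _
      ring
    rw [sum_congr rfl c1, sum_comm]
    apply sum_congr rfl
    intro u _
    rw [sum_comm]
    apply sum_congr rfl
    intro v _
    rw [mul_sum]
  rw [b2]
  have b3 : ∀ u ∈ range q, ∀ v ∈ range q, b u *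
        ∑ d ∈ Finset.Ico (-(n : ℤ)) q, (ι (v - d) * G (u - d) + G (v - d) * ι (u - d)) =
      b u * (2 * F G n) - b u * ((fun t : ℕ => F G t + (F G n - F G ((n : ℤ) - t)))
        (u - v + (v - u))) := by
    intro u hu v hv
    rw [Finset.mem_range] at hu hv
    rw [C_eq h0 hn i1 i2 i3 u v hu hv]
    simp only
    ring
  rw [sum_congr rfl (fun u hu => sum_congr rfl (fun v hv => b3 u hu v hv))]
  simp only [sum_sub_distrib]
  rw [double b (fun t : ℕ => F G t + (F G n - F G ((n : ℤ) - t)))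
    (by simp [F_zero]) q]
  have b4 : ∀ m : ℕ, ∑ u ∈ range m, b u = F G (N * (m : ℤ)) := by
    intro m
    have := Finset.sum_range_sub (fun j : ℕ => F G (N * (j : ℤ))) m
    rw [hb]
    simp only [Nat.cast_zero, mul_zero, F_zero, sub_zero] at this
    exact this
  have b5 : ∀ t ∈ range q, ∑ u ∈ Finset.Ico t q, b u + ∑ u ∈ range (q - t), b u =
      (F G n - F G (N * t)) + F G (N * q - N * t) := by
    intro t ht
    rw [Finset.mem_range] at ht
    rw [Finset.sum_Ico_eq_sub _ ht.le, b4, b4, b4]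
    have e1 : (N : ℤ) * (q : ℤ) = n := by rw [hnq]; push_cast; ring
    have e2 : (N : ℤ) * ((q - t : ℕ) : ℤ) = N * q - N * t := by
      push_cast [Nat.cast_sub ht.le]
      ring
    rw [e1, e2, e1]
  congr 1
  · have e1 : (N : ℤ) * (q : ℤ) = n := by rw [hnq]; push_cast; ring
    have e2 : ∑ u ∈ range q, ∑ _v ∈ range q, b u * (2 * F G n) =
        (q : ℝ) * ((∑ u ∈ range q, b u) * (2 * F G n)) := by
      rw [sum_mul, mul_sum]
      apply sum_congr rfl
      intro u _
      rw [sum_const, card_range, nsmul_eq_mul]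
    rw [e2, b4, e1]
    ring
  · apply sum_congr rfl
    intro t ht
    rw [b5 t ht]

/-- The main inequality. -/
lemma main_ineq (hN : 32 ≤ N) (hcop : Nat.Coprime q N)
    (h0 : ∀ x < 0, G x = 0) (hn : ∀ x : ℤ, ((N * q : ℕ) : ℤ) ≤ x → G x = 0)
    (i1 : ∀ x : ℤ, 0 ≤ x → x < ((N * q : ℕ) : ℤ) → ι x = 1)
    (i2 : ∀ x < 0, ι x = 0) (i3 : ∀ x : ℤ, ((N * q : ℕ) : ℤ) ≤ x → ι x = 0) :
    0 ≤ N * Om G (N * q) q + 2 * ∑ d ∈ Finset.Ico (-((N * q : ℕ) : ℤ)) q,
      ((∑ v ∈ range q, ι (v - d)) * (∑ ρ ∈ range N, ∑ u ∈ range q, G (N * u + ρ) * G (u - d)) +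
      (∑ v ∈ range q, G (v - d)) * (∑ ρ ∈ range N, ∑ u ∈ range q, G (N * u + ρ) * ι (u - d))) := by
  rw [main_sum h0 hn i1 i2 i3]
  have hN0 : 0 < N := by omega
  have hqn : q ≤ N * q := Nat.le_mul_of_pos_left q hN0
  have e1 := E_bound (q := q) h0 hn hqn
  have e2 := B_bound (q := q) h0 hn hN0 hcop 1 (Or.inl rfl)
  have e3 := B_bound (q := q) h0 hn hN0 hcop (-1) (Or.inr rfl)
  have hOm : 0 ≤ Om G (N * q) q := by
    unfold Om
    positivity
  set n : ℕ := N * q with hnq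
  have hB : ∑ t ∈ range q, ((F G n - F G (N * t)) + F G (N * q - N * t)) ^ 2 ≤
      4 * (N * Om G n q) := by
    have f1 : ∀ t ∈ range q, ((F G n - F G (N * t)) + F G (N * q - N * t)) ^ 2 ≤
        2 * (F G (1 * (N * t) + N * q) - F G (1 * (N * t))) ^ 2 +
        2 * (F G (-1 * (N * t) + N * q) - F G (-1 * (N * t))) ^ 2 := by
      intro t _
      have hcast : (n : ℤ) = N * q := by rw [hnq]; push_cast; ring
      have g0 : (0 : ℤ) ≤ N * t := by positivity
      have g1 : F G (1 * (N * t) + N * q) = F G n := by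
        apply F_ge hn
        rw [hcast]
        linarith
      have g2 : F G (-1 * (N * t)) = 0 := by
        apply F_nonpos
        linarith
      rw [g1, g2]
      rw [show (-1 : ℤ) * (N * t) + N * q = N * q - N * t by ring,
        show (1 : ℤ) * (N * t) = N * t by ring]
      nlinarith [sq_nonneg ((F G n - F G (N * t)) - F G (N * q - N * t))]
    refine le_trans (sum_le_sum f1) ?_
    rw [sum_add_distrib, ← mul_sum, ← mul_sum]
    linarith
  have hEB : ∑ t ∈ range q,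
        (F G t + (F G n - F G ((n : ℤ) - t))) *
        ((F G n - F G (N * t)) + F G (N * q - N * t)) ≤
      4 * ∑ t ∈ range q, (F G t + (F G n - F G ((n : ℤ) - t))) ^ 2 + 1 / 16 *
        ∑ t ∈ range q, ((F G n - F G (N * t)) + F G (N * q - N * t)) ^ 2 := by
    rw [mul_sum, mul_sum, ← sum_add_distrib]
    apply sum_le_sum
    intro t _
    nlinarith [sq_nonneg (8 * (F G t + (F G n - F G ((n : ℤ) - t))) -
      ((F G n - F G (N * t)) + F G (N * q - N * t)))]
  have hq0 : (0 : ℝ) ≤ q := Nat.cast_nonneg q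
  have hσ : 0 ≤ 2 * (q : ℝ) * F G n ^ 2 := by positivity
  have hN' : (32 : ℝ) ≤ N := by exact_mod_cast hN
  nlinarith [mul_nonneg (sub_nonneg.2 hN') hOm]

end

end Pool.Agent.Helper63.CoreProof

namespace Pool.Agent.Helper63.CoreProof

open Pool.Agent.Helper63.Common

/-- The exact two-colour inequality. -/
theorem core (N q : ℕ) (hN : 32 ≤ N) (hq : Nat.Coprime q N) (g : Fin (N * q) → ℝ) :
    2 * T N (N * q) (fun _ => 1)
      ≤ T N (N * q) (fun x => 1 + g x) + T N (N * q) (fun x => 1 - g x) := by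
  have hN0 : 0 < N := by omega
  rw [T_eq N q hN0, T_eq N q hN0, T_eq N q hN0]
  set ι : ℤ → ℝ := ext (fun _ : Fin (N * q) => (1 : ℝ)) with hι
  set G : ℤ → ℝ := ext g with hG
  have m := main_ineq (G := G) (ι := ι) (q := q) (N := N) hN hq (ext_neg g) (ext_ge g) ext_one
    (ext_neg _) (ext_ge _)
  have hpos : ∀ ρ ∈ range N, ∀ u ∈ range q, ι (N * (u : ℤ) + ρ) = 1 := by
    intro ρ hρ u hu
    rw [Finset.mem_range] at hρ hu
    have f1 : N * u + ρ < N * q := by
      calc N * u + ρ < N * u + N := by omega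
        _ = N * (u + 1) := by ring
        _ ≤ N * q := Nat.mul_le_mul_left _ hu
    have f2 : (N : ℤ) * u + ρ = ((N * u + ρ : ℕ) : ℤ) := by push_cast; ring
    rw [f2]
    exact ext_one _ (Int.natCast_nonneg _) (by exact_mod_cast f1)
  have key : ∀ ρ ∈ range N, ∀ d : ℤ,
      2 * (∑ u ∈ range q, G (u - d)) ^ 2 +
        4 * ((∑ v ∈ range q, ι (v - d)) * (∑ u ∈ range q, G (N * u + ρ) * G (u - d)) +
          (∑ v ∈ range q, G (v - d)) * (∑ u ∈ range q, G (N * u + ρ) * ι (u - d))) ≤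
      (∑ u ∈ range q, ext (fun x => 1 + g x) (N * u + ρ) * ext (fun x => 1 + g x) (u - d)) ^ 2 +
      (∑ u ∈ range q, ext (fun x => 1 - g x) (N * u + ρ) * ext (fun x => 1 - g x) (u - d)) ^ 2 -
      2 * (∑ u ∈ range q, ι (N * u + ρ) * ι (u - d)) ^ 2 := by
    intro ρ hρ d
    have e0 : ∑ u ∈ range q, ι (N * u + ρ) * ι (u - d) = ∑ v ∈ range q, ι (v - d) := by
      apply sum_congr rfl
      intro u hu
      rw [hpos ρ hρ u hu, one_mul]
    have e1 : ∑ u ∈ range q,
        ext (fun x => 1 + g x) (N * u + ρ) * ext (fun x => 1 + g x) (u - d) =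
        ∑ v ∈ range q, ι (v - d) + ∑ u ∈ range q, G (u - d) +
        ∑ u ∈ range q, G (N * u + ρ) * ι (u - d) + ∑ u ∈ range q, G (N * u + ρ) * G (u - d) := by
      rw [← sum_add_distrib, ← sum_add_distrib, ← sum_add_distrib]
      apply sum_congr rfl
      intro u hu
      rw [ext_add, ext_add, ← hι, ← hG, hpos ρ hρ u hu]
      ring
    have e2 : ∑ u ∈ range q,
        ext (fun x => 1 - g x) (N * u + ρ) * ext (fun x => 1 - g x) (u - d) =
        ∑ v ∈ range q, ι (v - d) - ∑ u ∈ range q, G (u - d) -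
        ∑ u ∈ range q, G (N * u + ρ) * ι (u - d) + ∑ u ∈ range q, G (N * u + ρ) * G (u - d) := by
      rw [← sum_sub_distrib, ← sum_sub_distrib, ← sum_add_distrib]
      apply sum_congr rfl
      intro u hu
      rw [ext_sub, ext_sub, ← hι, ← hG, hpos ρ hρ u hu]
      ring
    rw [e0, e1, e2]
    nlinarith [sq_nonneg (∑ u ∈ range q, G (N * u + ρ) * ι (u - d)),
      sq_nonneg (∑ u ∈ range q, G (N * u + ρ) * G (u - d))]
  have s1 := sum_le_sum (fun ρ hρ => sum_le_sum
    (s := Finset.Ico (-((N * q : ℕ) : ℤ)) q) (fun d _ => key ρ hρ d))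
  simp only [sum_sub_distrib, sum_add_distrib] at s1
  have s2 : ∑ ρ ∈ range N, ∑ d ∈ Finset.Ico (-((N * q : ℕ) : ℤ)) q,
      2 * (∑ u ∈ range q, G (u - d)) ^ 2 = 2 * (N * Om G (N * q) q) := by
    rw [sum_const, card_range, nsmul_eq_mul, ← mul_sum]
    unfold Om
    ring
  have s3 : ∑ ρ ∈ range N, ∑ d ∈ Finset.Ico (-((N * q : ℕ) : ℤ)) q,
      4 * ((∑ v ∈ range q, ι (v - d)) * (∑ u ∈ range q, G (N * u + ρ) * G (u - d)) +
          (∑ v ∈ range q, G (v - d)) * (∑ u ∈ range q, G (N * u + ρ) * ι (u - d))) =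
      4 * ∑ d ∈ Finset.Ico (-((N * q : ℕ) : ℤ)) q,
      ((∑ v ∈ range q, ι (v - d)) * (∑ ρ ∈ range N, ∑ u ∈ range q, G (N * u + ρ) * G (u - d)) +
      (∑ v ∈ range q, G (v - d)) * (∑ ρ ∈ range N, ∑ u ∈ range q, G (N * u + ρ) * ι (u - d))) := by
    rw [sum_comm, mul_sum]
    apply sum_congr rfl
    intro d _
    rw [← mul_sum, sum_add_distrib, mul_sum, mul_sum]
  have s4 : ∑ ρ ∈ range N, ∑ d ∈ Finset.Ico (-((N * q : ℕ) : ℤ)) q,
      2 * (∑ u ∈ range q, ι (N * u + ρ) * ι (u - d)) ^ 2 =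
      2 * ∑ ρ ∈ range N, ∑ d ∈ Finset.Ico (-((N * q : ℕ) : ℤ)) q,
        (∑ u ∈ range q, ι (N * u + ρ) * ι (u - d)) ^ 2 := by
    rw [mul_sum]
    apply sum_congr rfl
    intro ρ _
    rw [mul_sum]
  rw [s2, s3, s4] at s1
  linarith

end Pool.Agent.Helper63.CoreProof

namespace Pool.Agent.Helper63.Common

/-- the exact 2-colour inequality, for every real `g` (see PAPER.md, part A) -/
theorem core (N q : ℕ) (hN : 32 ≤ N) (hq : Nat.Coprime q N) (g : Fin (N * q) → ℝ) :
    2 * T N (N * q) (fun _ => 1)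
      ≤ T N (N * q) (fun x => 1 + g x) + T N (N * q) (fun x => 1 - g x) :=
  Pool.Agent.Helper63.CoreProof.core N q hN hq g

end Pool.Agent.Helper63.Common
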