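import Pool.Agent.Helper63.Common.Osc

set_option autoImplicit false
open MeasureTheory Set Filter Topology

namespace Pool.Agent.Helper63.Common

lemma s1_neg (θ : ℝ) : s1 (-θ) = s1 θ := by
  unfold s1
  rw [show 2 * Real.pi * -θ = -(2 * Real.pi * θ) by ring, Real.cos_neg]

lemma s1_nat_sub (k : ℕ) (θ : ℝ) : s1 (k - θ) = s1 θ := by
  unfold s1
  rw [show 2 * Real.pi * ((k : ℝ) - θ) = (k : ℝ) * (2 * Real.pi) - 2 * Real.pi * θ by ring,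
    Real.cos_nat_mul_two_pi_sub]

/-- size of `psi1` -/
lemma abs_psi1_le {N : ℕ} (hN : 8 ≤ N) {w : ℝ} (hw : 1 ≤ w) {a a1 b b1 : ℝ → ℝ} {K : ℝ}
    (ha1 : ∀ x, |a1 x| ≤ K) (hb1 : ∀ x, |b1 x| ≤ K) (x : ℝ) :
    |psi1 N w a a1 b b1 x| ≤ w⁻¹ ^ 2 * ((2 * Real.pi ^ 2)⁻¹ * (|a x| + (N : ℝ)⁻¹ * |b (N * x)|))
      + w⁻¹ ^ 3 * (2 * K) := by
  have hN' : (8 : ℝ) ≤ N := by exact_mod_cast hN
  have hNi : (N : ℝ)⁻¹ ≤ 1 := inv_le_one_of_one_le₀ (by linarith)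
  have hNi0 : (0 : ℝ) ≤ (N : ℝ)⁻¹ := by positivity
  have hw0 : 0 < w := by linarith
  have hw2 : 0 ≤ w⁻¹ ^ 2 := by positivity
  have hw3 : 0 ≤ w⁻¹ ^ 3 := by positivity
  have u1 : |a x * s1 (w * x)| ≤ (2 * Real.pi ^ 2)⁻¹ * |a x| := by
    rw [abs_mul, mul_comm]
    exact mul_le_mul_of_nonneg_right (abs_s1_le' _) (abs_nonneg _)
  have u2 : |a1 x * s0 (w * x)| ≤ K := abs_mul_le' (ha1 x) (abs_s0_le (w * x))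
  have u3 : |b (N * x) * s1 (N * w * x)| ≤ (2 * Real.pi ^ 2)⁻¹ * |b (N * x)| := by
    rw [abs_mul, mul_comm]
    exact mul_le_mul_of_nonneg_right (abs_s1_le' _) (abs_nonneg _)
  have u4 : |b1 (N * x) * s0 (N * w * x)| ≤ K := abs_mul_le' (hb1 (N * x)) (abs_s0_le (N * w * x))
  have u4' : |(N : ℝ)⁻¹ * (b1 (N * x) * s0 (N * w * x))| ≤ K := by
    rw [mul_comm]; exact abs_mul_le' u4 (by rwa [abs_of_nonneg hNi0])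
  have v1 : |w⁻¹ ^ 2 * (a x * s1 (w * x))| ≤ w⁻¹ ^ 2 * ((2 * Real.pi ^ 2)⁻¹ * |a x|) := by
    rw [abs_mul, abs_of_nonneg hw2]; exact mul_le_mul_of_nonneg_left u1 hw2
  have v2 : |w⁻¹ ^ 3 * (a1 x * s0 (w * x))| ≤ w⁻¹ ^ 3 * K := by
    rw [abs_mul, abs_of_nonneg hw3]; exact mul_le_mul_of_nonneg_left u2 hw3
  have v3 : |w⁻¹ ^ 2 * ((N : ℝ)⁻¹ * (b (N * x) * s1 (N * w * x)))|
      ≤ w⁻¹ ^ 2 * ((N : ℝ)⁻¹ * ((2 * Real.pi ^ 2)⁻¹ * |b (N * x)|)) := by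
    rw [abs_mul, abs_of_nonneg hw2, abs_mul, abs_of_nonneg hNi0]
    exact mul_le_mul_of_nonneg_left (mul_le_mul_of_nonneg_left u3 hNi0) hw2
  have v4 : |w⁻¹ ^ 3 * ((N : ℝ)⁻¹ * (b1 (N * x) * s0 (N * w * x)))| ≤ w⁻¹ ^ 3 * K := by
    rw [abs_mul, abs_of_nonneg hw3]; exact mul_le_mul_of_nonneg_left u4' hw3
  unfold psi1
  have t1 := abs_add_le (w⁻¹ ^ 2 * (a x * s1 (w * x)) + w⁻¹ ^ 3 * (a1 x * s0 (w * x))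
    + w⁻¹ ^ 2 * ((N : ℝ)⁻¹ * (b (N * x) * s1 (N * w * x))))
    (w⁻¹ ^ 3 * ((N : ℝ)⁻¹ * (b1 (N * x) * s0 (N * w * x))))
  have t2 := abs_add_le (w⁻¹ ^ 2 * (a x * s1 (w * x)) + w⁻¹ ^ 3 * (a1 x * s0 (w * x)))
    (w⁻¹ ^ 2 * ((N : ℝ)⁻¹ * (b (N * x) * s1 (N * w * x))))
  have t3 := abs_add_le (w⁻¹ ^ 2 * (a x * s1 (w * x))) (w⁻¹ ^ 3 * (a1 x * s0 (w * x)))
  have e : w⁻¹ ^ 2 * ((2 * Real.pi ^ 2)⁻¹ * (|a x| + (N : ℝ)⁻¹ * |b (N * x)|)) + w⁻¹ ^ 3 * (2 * K)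
      = w⁻¹ ^ 2 * ((2 * Real.pi ^ 2)⁻¹ * |a x|) + w⁻¹ ^ 3 * K
        + w⁻¹ ^ 2 * ((N : ℝ)⁻¹ * ((2 * Real.pi ^ 2)⁻¹ * |b (N * x)|)) + w⁻¹ ^ 3 * K := by ring
  rw [e]
  linarith

/-- `U` up to the error -/
lemma U_eq (N : ℕ) (hN : 8 ≤ N) (k : ℕ) {a a1 b b1 : ℝ → ℝ} {K : ℝ}
    (ha1 : ∀ x, |a1 x| ≤ K) (hb1 : ∀ x, |b1 x| ≤ K) (hk : 1 ≤ k) (c : ℝ) :
    |(psi1 N ((N : ℝ) * k) a a1 b b1 ((1 - c) / N) - psi1 N ((N : ℝ) * k) a a1 b b1 (-c / N))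
      - (((N : ℝ) * k)⁻¹ ^ 2 * (s1 (k * c) * (a ((1 - c) / N) - a (-c / N)))
        + ((N : ℝ) * k)⁻¹ ^ 2 * ((N : ℝ)⁻¹ * (s1 (N * k * c) * (b (1 - c) - b (-c)))))|
      ≤ ((N : ℝ) * k)⁻¹ ^ 3 * (4 * K) := by
  have hN' : (8 : ℝ) ≤ N := by exact_mod_cast hN
  have hN0 : (N : ℝ) ≠ 0 := by linarith
  have hk' : (1 : ℝ) ≤ k := by exact_mod_cast hk
  have hNi : (N : ℝ)⁻¹ ≤ 1 := inv_le_one_of_one_le₀ (by linarith)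
  have hNi0 : (0 : ℝ) ≤ (N : ℝ)⁻¹ := by positivity
  have e1 : (N : ℝ) * k * ((1 - c) / N) = (k : ℝ) - k * c := by field_simp
  have e2 : (N : ℝ) * (N * k) * ((1 - c) / N) = ((N * k : ℕ) : ℝ) - N * k * c := by
    push_cast; field_simp
  have e3 : (N : ℝ) * k * (-c / N) = -(k * c) := by field_simp
  have e4 : (N : ℝ) * (N * k) * (-c / N) = -(N * k * c) := by field_simp
  have e5 : (N : ℝ) * ((1 - c) / N) = 1 - c := by field_simp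
  have e6 : (N : ℝ) * (-c / N) = -c := by field_simp
  unfold psi1
  rw [e1, e2, e3, e4, e5, e6, s1_nat_sub, s1_nat_sub, s1_neg, s1_neg]
  set w : ℝ := (N : ℝ) * k with hw
  have hw3 : 0 ≤ w⁻¹ ^ 3 := by positivity
  have u1 := abs_mul_le' (ha1 ((1 - c) / N)) (abs_s0_le ((k : ℝ) - k * c))
  have u2 := abs_mul_le' (hb1 (1 - c)) (abs_s0_le (((N * k : ℕ) : ℝ) - w * c))
  have u3 := abs_mul_le' (ha1 (-c / N)) (abs_s0_le (-((k : ℝ) * c)))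
  have u4 := abs_mul_le' (hb1 (-c)) (abs_s0_le (-(w * c)))
  have u2' : |(N : ℝ)⁻¹ * (b1 (1 - c) * s0 (((N * k : ℕ) : ℝ) - w * c))| ≤ K := by
    rw [mul_comm]; exact abs_mul_le' u2 (by rwa [abs_of_nonneg hNi0])
  have u4' : |(N : ℝ)⁻¹ * (b1 (-c) * s0 (-(w * c)))| ≤ K := by
    rw [mul_comm]; exact abs_mul_le' u4 (by rwa [abs_of_nonneg hNi0])
  set A := a1 ((1 - c) / N) * s0 ((k : ℝ) - k * c)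
  set A' := a1 (-c / N) * s0 (-((k : ℝ) * c))
  set D := (N : ℝ)⁻¹ * (b1 (1 - c) * s0 (((N * k : ℕ) : ℝ) - w * c))
  set D' := (N : ℝ)⁻¹ * (b1 (-c) * s0 (-(w * c)))
  have key : ∀ P P' Q Q' S R : ℝ,
      (w⁻¹ ^ 2 * (P * S) + w⁻¹ ^ 3 * A + w⁻¹ ^ 2 * ((N : ℝ)⁻¹ * (Q * R)) + w⁻¹ ^ 3 * D
        - (w⁻¹ ^ 2 * (P' * S) + w⁻¹ ^ 3 * A' + w⁻¹ ^ 2 * ((N : ℝ)⁻¹ * (Q' * R)) + w⁻¹ ^ 3 * D'))
        - (w⁻¹ ^ 2 * (S * (P - P')) + w⁻¹ ^ 2 * ((N : ℝ)⁻¹ * (R * (Q - Q'))))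
      = w⁻¹ ^ 3 * (A + D - A' - D') := by
    intro P P' Q Q' S R; ring
  rw [key, abs_mul, abs_of_nonneg hw3]
  apply mul_le_mul_of_nonneg_left _ hw3
  have hA := abs_le.1 u1
  have hA' := abs_le.1 u3
  have hD := abs_le.1 u2'
  have hD' := abs_le.1 u4'
  rw [abs_le]
  constructor <;> linarith [hA.1, hA.2, hA'.1, hA'.2, hD.1, hD.2, hD'.1, hD'.2]

/-- pointwise bound of the first order part (uses `gamma_main`, `B_one_left`, `B_one_right`) -/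
theorem D_bound (N : ℕ) (hN : 8 ≤ N) {a a1 a2 b b1 b2 : ℝ → ℝ} (h : Pair N a a1 a2 b b1 b2) :
    ∃ C : ℝ, 0 ≤ C ∧ ∀ k : ℕ, 1 ≤ k → ∀ c : ℝ,
      |B N one (psi2 N (N * k) a a1 a2 b b1 b2) c
        + B N (psi2 N (N * k) a a1 a2 b b1 b2) one c
        + B N (psi2 N (N * k) a a1 a2 b b1 b2) (psi2 N (N * k) a a1 a2 b b1 b2) c|
      ≤ ((N : ℝ) * k)⁻¹ ^ 2 * ((2 * Real.pi ^ 2)⁻¹ * dmaj N a b c) + C * ((N : ℝ) * k)⁻¹ ^ 3 := by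
  obtain ⟨K, hK0, hKa, hKa1, hKa2, hKb, hKb1, hKb2⟩ := h.bound
  obtain ⟨C0, hC0⟩ := gamma_main N hN h
  have hN' : (8 : ℝ) ≤ N := by exact_mod_cast hN
  have hN0 : (N : ℝ) ≠ 0 := by linarith
  have hNi : (N : ℝ)⁻¹ ≤ 1 := inv_le_one_of_one_le₀ (by linarith)
  have hNi0 : (0 : ℝ) ≤ (N : ℝ)⁻¹ := by positivity
  refine ⟨8 * K + |C0|, by positivity, fun k hk c => ?_⟩
  have hk' : (1 : ℝ) ≤ k := by exact_mod_cast hk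
  have hw8 : 8 ≤ (N : ℝ) * k := by nlinarith
  have hw1 : 1 ≤ (N : ℝ) * k := by linarith
  have hbump := bump_psi N hN h ((N : ℝ) * k) (by linarith)
  have hU := U_eq N hN k (a := a) (b := b) hKa1 hKb1 hk c
  have hG := hC0 k hk c
  have hs : Real.cos (2 * Real.pi * (N * k * c)) / (2 * Real.pi ^ 2) = s1 (N * k * c) := rfl
  rw [hs] at hG
  have hI : (∫ t in (0 : ℝ)..1, a t * b (t - c)) = ∫ t in (0 : ℝ)..1, a t * b (-c + t) := by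
    apply intervalIntegral.integral_congr
    intro t _
    simp only
    rw [show t - c = -c + t by ring]
  rw [hI] at hG
  rw [B_one_left N (by omega) hbump, B_one_right N (by omega) hbump]
  have hW1 := abs_psi1_le hN hw1 (a := a) (b := b) hKa1 hKb1 (c + N)
  have hW2 := abs_psi1_le hN hw1 (a := a) (b := b) hKa1 hKb1 c
  set w : ℝ := (N : ℝ) * k with hw_def
  set G := B N (psi2 N w a a1 a2 b b1 b2) (psi2 N w a a1 a2 b b1 b2) c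
  set I := ∫ t in (0 : ℝ)..1, a t * b (-c + t) with hIdef
  have hLam : Lam a b (-c) = (b (1 - c) - b (-c)) + I := by
    unfold Lam
    rw [show -c + 1 = 1 - c by ring]
  set p1 := psi1 N w a a1 b b1 ((1 - c) / N)
  set p0 := psi1 N w a a1 b b1 (-c / N)
  set q1 := psi1 N w a a1 b b1 (c + N)
  set q0 := psi1 N w a a1 b b1 c
  set S := s1 (k * c)
  set R := s1 (w * c)
  set P := a ((1 - c) / N) - a (-c / N)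
  set Q := b (1 - c) - b (-c)
  have hw2 : 0 ≤ w⁻¹ ^ 2 := by positivity
  have hw3 : 0 ≤ w⁻¹ ^ 3 := by positivity
  have hS : |S| ≤ (2 * Real.pi ^ 2)⁻¹ := abs_s1_le' _
  have hR : |R| ≤ (2 * Real.pi ^ 2)⁻¹ := abs_s1_le' _
  have m1 : |w⁻¹ ^ 2 * (S * P)| ≤ w⁻¹ ^ 2 * ((2 * Real.pi ^ 2)⁻¹ * |P|) := by
    rw [abs_mul, abs_of_nonneg hw2, abs_mul]
    exact mul_le_mul_of_nonneg_left (mul_le_mul_of_nonneg_right hS (abs_nonneg _)) hw2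
  have m2 : |w⁻¹ ^ 2 * ((N : ℝ)⁻¹ * (R * Lam a b (-c)))|
      ≤ w⁻¹ ^ 2 * ((N : ℝ)⁻¹ * ((2 * Real.pi ^ 2)⁻¹ * |Lam a b (-c)|)) := by
    rw [abs_mul, abs_of_nonneg hw2, abs_mul, abs_of_nonneg hNi0, abs_mul]
    exact mul_le_mul_of_nonneg_left
      (mul_le_mul_of_nonneg_left (mul_le_mul_of_nonneg_right hR (abs_nonneg _)) hNi0) hw2
  have m3 : |(N : ℝ)⁻¹ * (q1 - q0)| ≤ (N : ℝ)⁻¹ * (|q1| + |q0|) := by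
    rw [abs_mul, abs_of_nonneg hNi0]
    exact mul_le_mul_of_nonneg_left (abs_sub _ _) hNi0
  have m4 : (N : ℝ)⁻¹ * (|q1| + |q0|) ≤ w⁻¹ ^ 2 * ((2 * Real.pi ^ 2)⁻¹ *
      ((N : ℝ)⁻¹ * (|a (c + N)| + |a c|) + (N : ℝ)⁻¹ ^ 2 * (|b (N * (c + N))| + |b (N * c)|)))
      + w⁻¹ ^ 3 * (4 * K) := by
    have hx := mul_le_mul_of_nonneg_left (add_le_add hW1 hW2) hNi0
    have hy : (N : ℝ)⁻¹ * (w⁻¹ ^ 3 * (4 * K)) ≤ w⁻¹ ^ 3 * (4 * K) := by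
      have : 0 ≤ w⁻¹ ^ 3 * (4 * K) := by positivity
      nlinarith
    refine hx.trans ?_
    have e : (N : ℝ)⁻¹ * (w⁻¹ ^ 2 * ((2 * Real.pi ^ 2)⁻¹ * (|a (c + N)| + (N : ℝ)⁻¹ * |b (N * (c + N))|))
          + w⁻¹ ^ 3 * (2 * K) + (w⁻¹ ^ 2 * ((2 * Real.pi ^ 2)⁻¹ * (|a c| + (N : ℝ)⁻¹ * |b (N * c)|))
          + w⁻¹ ^ 3 * (2 * K)))
        = w⁻¹ ^ 2 * ((2 * Real.pi ^ 2)⁻¹ *
      ((N : ℝ)⁻¹ * (|a (c + N)| + |a c|) + (N : ℝ)⁻¹ ^ 2 * (|b (N * (c + N))| + |b (N * c)|)))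
          + (N : ℝ)⁻¹ * (w⁻¹ ^ 3 * (4 * K)) := by ring
    rw [e]
    linarith
  have hC : C0 * w⁻¹ ^ 3 ≤ |C0| * w⁻¹ ^ 3 := mul_le_mul_of_nonneg_right (le_abs_self _) hw3
  have e : p1 - p0 + (N : ℝ)⁻¹ * (q1 - q0) + G
      = w⁻¹ ^ 2 * (S * P) + w⁻¹ ^ 2 * ((N : ℝ)⁻¹ * (R * Lam a b (-c))) + (N : ℝ)⁻¹ * (q1 - q0)
        + ((p1 - p0) - (w⁻¹ ^ 2 * (S * P) + w⁻¹ ^ 2 * ((N : ℝ)⁻¹ * (R * Q))))
        + (G - w⁻¹ ^ 2 * (R * ((N : ℝ)⁻¹ * I))) := by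
    rw [hLam]; ring
  have fin : w⁻¹ ^ 2 * ((2 * Real.pi ^ 2)⁻¹ * dmaj N a b c) + (8 * K + |C0|) * w⁻¹ ^ 3
      = w⁻¹ ^ 2 * ((2 * Real.pi ^ 2)⁻¹ * |P|)
        + w⁻¹ ^ 2 * ((N : ℝ)⁻¹ * ((2 * Real.pi ^ 2)⁻¹ * |Lam a b (-c)|))
        + (w⁻¹ ^ 2 * ((2 * Real.pi ^ 2)⁻¹ *
      ((N : ℝ)⁻¹ * (|a (c + N)| + |a c|) + (N : ℝ)⁻¹ ^ 2 * (|b (N * (c + N))| + |b (N * c)|)))
      + w⁻¹ ^ 3 * (4 * K)) + w⁻¹ ^ 3 * (4 * K) + |C0| * w⁻¹ ^ 3 := by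
    unfold dmaj
    ring
  rw [fin]
  have t1 := abs_add_le (w⁻¹ ^ 2 * (S * P) + w⁻¹ ^ 2 * ((N : ℝ)⁻¹ * (R * Lam a b (-c)))
        + (N : ℝ)⁻¹ * (q1 - q0)
        + ((p1 - p0) - (w⁻¹ ^ 2 * (S * P) + w⁻¹ ^ 2 * ((N : ℝ)⁻¹ * (R * Q)))))
        (G - w⁻¹ ^ 2 * (R * ((N : ℝ)⁻¹ * I)))
  have t2 := abs_add_le (w⁻¹ ^ 2 * (S * P) + w⁻¹ ^ 2 * ((N : ℝ)⁻¹ * (R * Lam a b (-c)))
        + (N : ℝ)⁻¹ * (q1 - q0))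
        ((p1 - p0) - (w⁻¹ ^ 2 * (S * P) + w⁻¹ ^ 2 * ((N : ℝ)⁻¹ * (R * Q))))
  have t3 := abs_add_le (w⁻¹ ^ 2 * (S * P) + w⁻¹ ^ 2 * ((N : ℝ)⁻¹ * (R * Lam a b (-c))))
        ((N : ℝ)⁻¹ * (q1 - q0))
  have t4 := abs_add_le (w⁻¹ ^ 2 * (S * P)) (w⁻¹ ^ 2 * ((N : ℝ)⁻¹ * (R * Lam a b (-c))))
  rw [← e] at t1
  linarith

end Pool.Agent.Helper63.Common
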