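import Mathlib

/-!
Common definitions for the solution of MP_3b56a7_co (S08207).
Equation: x0 - x1 = N (x2 - x3), coefficient vector (1,-1,-N,N).
-/

set_option autoImplicit false

open MeasureTheory Set Filter Topology

namespace Pool.Agent.Helper63.Common

/-! ### discrete side -/

/-- coefficients of the equation `x0 - x1 - N x2 + N x3 = 0` -/
def coef (N : ℕ) : Fin 4 → ℤ := ![1, -1, -(N : ℤ), (N : ℤ)]

/-- the solutions in `{1,...,n}` (a coordinate `i : Fin n` stands for the integer `i+1`) -/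
def sol (N n : ℕ) : Finset (Fin 4 → Fin n) :=
  Finset.univ.filter (fun x : Fin 4 → Fin n => ∑ i, coef N i * (((x i : ℕ) : ℤ) + 1) = 0)

/-- weighted number of solutions -/
noncomputable def T (N n : ℕ) (h : Fin n → ℝ) : ℝ := ∑ x ∈ sol N n, ∏ i, h (x i)

/-- monochromatic solutions of a colouring -/
def mono {r : ℕ} (N n : ℕ) (c : Fin n → Fin r) : Finset (Fin 4 → Fin n) :=
  Finset.univ.filter (fun x : Fin 4 → Fin n =>
    ∑ i, coef N i * (((x i : ℕ) : ℤ) + 1) = 0 ∧ ∀ i j : Fin 4, c (x i) = c (x j))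

lemma coef_ne_zero {N : ℕ} (hN : 0 < N) (i : Fin 4) : coef N i ≠ 0 := by
  fin_cases i <;> simp [coef] <;> omega

lemma sum_coef {n : ℕ} (N : ℕ) (x : Fin 4 → Fin n) :
    ∑ i, coef N i * (((x i : ℕ) : ℤ) + 1)
      = ((x 0 : ℕ) : ℤ) - ((x 1 : ℕ) : ℤ) - N * (((x 2 : ℕ) : ℤ) - ((x 3 : ℕ) : ℤ)) := by
  simp [Fin.sum_univ_four, coef]
  ring

lemma mem_sol {N n : ℕ} {x : Fin 4 → Fin n} :
    x ∈ sol N n ↔ ((x 0 : ℕ) : ℤ) - ((x 1 : ℕ) : ℤ) = N * (((x 2 : ℕ) : ℤ) - ((x 3 : ℕ) : ℤ)) := by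
  unfold sol
  rw [Finset.mem_filter, sum_coef]
  constructor
  · intro h; linarith [h.2]
  · intro h; exact ⟨Finset.mem_univ _, by linarith⟩

/-! ### continuous side -/

/-- indicator of the unit interval `(0,1]` -/
noncomputable def one : ℝ → ℝ := Set.indicator (Set.Ioc 0 1) (fun _ => (1 : ℝ))

/-- `B N h k c = ∫ h (c + N y) k y dy` -/
noncomputable def B (N : ℕ) (h k : ℝ → ℝ) (c : ℝ) : ℝ := ∫ y, h (c + N * y) * k y

/-- `Phi N h = ∫ (B N h h c)^2 dc`, the continuous weighted count of solutions -/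
noncomputable def Phi (N : ℕ) (h : ℝ → ℝ) : ℝ := ∫ c, (B N h h c) ^ 2

/-- the remainder functional `Phi (1+g) - Phi 1 - (linear part)` -/
noncomputable def Rfun (N : ℕ) (g : ℝ → ℝ) : ℝ :=
  2 * (∫ c, B N one one c * B N g g c)
    + ∫ c, (B N one g c + B N g one c + B N g g c) ^ 2

/-! ### the oscillating test functions -/

/-- `s θ = sin (2πθ) / (4π³)` -/
noncomputable def s0 (θ : ℝ) : ℝ := Real.sin (2 * Real.pi * θ) / (4 * Real.pi ^ 3)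
/-- `s' θ = cos (2πθ) / (2π²)` -/
noncomputable def s1 (θ : ℝ) : ℝ := Real.cos (2 * Real.pi * θ) / (2 * Real.pi ^ 2)
/-- `s'' θ = - sin (2πθ) / π` -/
noncomputable def s2 (θ : ℝ) : ℝ := -(Real.sin (2 * Real.pi * θ) / Real.pi)

/-- an envelope function `a` with its first two derivatives -/
structure Env (a a1 a2 : ℝ → ℝ) : Prop where
  d1 : ∀ x, HasDerivAt a (a1 x) x
  d2 : ∀ x, HasDerivAt a1 (a2 x) x
  c2 : Continuous a2

/-- `ψ x = ω⁻³ (a x s(ωx) + N⁻² b(Nx) s(Nωx))` -/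
noncomputable def psi (N : ℕ) (w : ℝ) (a b : ℝ → ℝ) (x : ℝ) : ℝ :=
  w⁻¹ ^ 3 * (a x * s0 (w * x)) + w⁻¹ ^ 3 * ((N : ℝ)⁻¹ ^ 2 * (b (N * x) * s0 (N * w * x)))

/-- first derivative of `psi` -/
noncomputable def psi1 (N : ℕ) (w : ℝ) (a a1 b b1 : ℝ → ℝ) (x : ℝ) : ℝ :=
  w⁻¹ ^ 2 * (a x * s1 (w * x)) + w⁻¹ ^ 3 * (a1 x * s0 (w * x))
    + w⁻¹ ^ 2 * ((N : ℝ)⁻¹ * (b (N * x) * s1 (N * w * x)))
    + w⁻¹ ^ 3 * ((N : ℝ)⁻¹ * (b1 (N * x) * s0 (N * w * x)))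

/-- second derivative of `psi`; this is the test function `g` -/
noncomputable def psi2 (N : ℕ) (w : ℝ) (a a1 a2 b b1 b2 : ℝ → ℝ) (x : ℝ) : ℝ :=
  w⁻¹ * (a x * s2 (w * x)) + 2 * (w⁻¹ ^ 2 * (a1 x * s1 (w * x))) + w⁻¹ ^ 3 * (a2 x * s0 (w * x))
    + w⁻¹ * (b (N * x) * s2 (N * w * x)) + 2 * (w⁻¹ ^ 2 * (b1 (N * x) * s1 (N * w * x)))
    + w⁻¹ ^ 3 * (b2 (N * x) * s0 (N * w * x))

/-- the cancellation functional -/
noncomputable def Lam (a b : ℝ → ℝ) (s : ℝ) : ℝ :=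
  b (s + 1) - b s + ∫ t in (0 : ℝ)..1, a t * b (s + t)

/-- pointwise majorant of the (rescaled) first order part -/
noncomputable def dmaj (N : ℕ) (a b : ℝ → ℝ) (c : ℝ) : ℝ :=
  |a ((1 - c) / N) - a (-c / N)| + (N : ℝ)⁻¹ * |Lam a b (-c)|
    + (N : ℝ)⁻¹ * (|a (c + N)| + |a c|)
    + (N : ℝ)⁻¹ ^ 2 * (|b (N * (c + N))| + |b (N * c)|)

end Pool.Agent.Helper63.Common
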