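import Pool.Agent.Helper63.Common.Defs

set_option autoImplicit false
open MeasureTheory Set Filter Topology

namespace Pool.Agent.Helper63.Common

/-- linear part of `Phi` at `one` -/
noncomputable def Lin (N : ℕ) (g : ℝ → ℝ) : ℝ :=
  2 * ∫ c, B N one one c * (B N one g c + B N g one c)

namespace Expand

/-- bounded, measurable, supported in a compact interval -/
structure Nice (u v : ℝ) (h : ℝ → ℝ) : Prop where
  meas : Measurable h
  bdd : ∃ C : ℝ, 0 ≤ C ∧ ∀ x, |h x| ≤ C
  supp : ∀ x, x ∉ Set.Icc u v → h x = 0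

lemma Nice.integrable {u v : ℝ} {h : ℝ → ℝ} (H : Nice u v h) : Integrable h := by
  obtain ⟨C, hC0, hC⟩ := H.bdd
  have h1 : IntegrableOn h (Set.Icc u v) := by
    apply Measure.integrableOn_of_bounded (M := C)
    · exact measure_Icc_lt_top.ne
    · exact H.meas.aestronglyMeasurable
    · filter_upwards with x
      rw [Real.norm_eq_abs]
      exact hC x
  rw [integrableOn_iff_integrable_of_support_subset] at h1
  · exact h1
  · intro x hx
    by_contra hcon
    exact hx (H.supp x hcon)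

lemma integral_add3 {f1 f2 f3 : ℝ → ℝ} (h1 : Integrable f1) (h2 : Integrable f2)
    (h3 : Integrable f3) :
    ∫ c, (f1 c + f2 c + f3 c) = (∫ c, f1 c) + (∫ c, f2 c) + ∫ c, f3 c := by
  have h12 : Integrable (fun c => f1 c + f2 c) := h1.add h2
  rw [integral_add h12 h3, integral_add h1 h2]

lemma Nice.add {u v : ℝ} {h k : ℝ → ℝ} (H : Nice u v h) (K : Nice u v k) :
    Nice u v (fun x => h x + k x) := by
  obtain ⟨C, hC0, hC⟩ := H.bdd
  obtain ⟨D, hD0, hD⟩ := K.bdd
  refine ⟨H.meas.add K.meas, ⟨C + D, by positivity, fun x => ?_⟩, fun x hx => ?_⟩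
  · exact (abs_add_le _ _).trans (add_le_add (hC x) (hD x))
  · rw [H.supp x hx, K.supp x hx, add_zero]

lemma Nice.smul {u v : ℝ} {h : ℝ → ℝ} (H : Nice u v h) (t : ℝ) :
    Nice u v (fun x => t * h x) := by
  obtain ⟨C, hC0, hC⟩ := H.bdd
  refine ⟨H.meas.const_mul t, ⟨|t| * C, by positivity, fun x => ?_⟩, fun x hx => ?_⟩
  · rw [abs_mul]
    exact mul_le_mul_of_nonneg_left (hC x) (abs_nonneg t)
  · rw [H.supp x hx, mul_zero]

lemma Nice.mul {u v : ℝ} {h k : ℝ → ℝ} (H : Nice u v h) (K : Nice u v k) :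
    Nice u v (fun x => h x * k x) := by
  obtain ⟨C, hC0, hC⟩ := H.bdd
  obtain ⟨D, hD0, hD⟩ := K.bdd
  refine ⟨H.meas.mul K.meas, ⟨C * D, by positivity, fun x => ?_⟩, fun x hx => ?_⟩
  · rw [abs_mul]
    exact mul_le_mul (hC x) (hD x) (abs_nonneg _) hC0
  · rw [H.supp x hx, zero_mul]

lemma nice_one : Nice 0 1 one := by
  refine ⟨measurable_const.indicator measurableSet_Ioc, ⟨1, by norm_num, fun x => ?_⟩, fun x hx => ?_⟩
  · unfold one
    by_cases h : x ∈ Set.Ioc (0 : ℝ) 1
    · rw [Set.indicator_of_mem h]; norm_num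
    · rw [Set.indicator_of_notMem h]; norm_num
  · unfold one
    rw [Set.indicator_of_notMem]
    intro h
    exact hx ⟨h.1.le, h.2⟩

lemma nice_cont {g : ℝ → ℝ} (hg : Continuous g)
    (sg : ∀ x, x ∉ Set.Ioo (0 : ℝ) 1 → g x = 0) : Nice 0 1 g := by
  obtain ⟨C, hC⟩ := (isCompact_Icc (a := (0 : ℝ)) (b := 1)).exists_bound_of_continuousOn
    hg.continuousOn
  refine ⟨hg.measurable, ⟨max C 0, le_max_right _ _, fun x => ?_⟩, fun x hx => ?_⟩
  · by_cases h : x ∈ Set.Icc (0 : ℝ) 1
    · exact (hC x h).trans (le_max_left _ _)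
    · rw [sg x (fun h' => h ⟨h'.1.le, h'.2.le⟩), abs_zero]
      exact le_max_right _ _
  · exact sg x (fun h' => hx ⟨h'.1.le, h'.2.le⟩)

lemma nice_slice (N : ℕ) {h k : ℝ → ℝ} (H : Nice 0 1 h) (K : Nice 0 1 k) (c : ℝ) :
    Nice 0 1 (fun y => h (c + N * y) * k y) := by
  obtain ⟨C, hC0, hC⟩ := H.bdd
  obtain ⟨D, hD0, hD⟩ := K.bdd
  refine ⟨(H.meas.comp (by fun_prop)).mul K.meas, ⟨C * D, by positivity, fun x => ?_⟩,
    fun x hx => ?_⟩
  · rw [abs_mul]
    exact mul_le_mul (hC _) (hD x) (abs_nonneg _) hC0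
  · rw [K.supp x hx, mul_zero]

lemma B_add_left (N : ℕ) {h1 h2 k : ℝ → ℝ} (H1 : Nice 0 1 h1) (H2 : Nice 0 1 h2)
    (K : Nice 0 1 k) (c : ℝ) :
    B N (fun x => h1 x + h2 x) k c = B N h1 k c + B N h2 k c := by
  unfold B
  rw [← integral_add (nice_slice N H1 K c).integrable (nice_slice N H2 K c).integrable]
  congr 1
  funext y
  ring

lemma B_add_right (N : ℕ) {h k1 k2 : ℝ → ℝ} (H : Nice 0 1 h) (K1 : Nice 0 1 k1)
    (K2 : Nice 0 1 k2) (c : ℝ) :
    B N h (fun x => k1 x + k2 x) c = B N h k1 c + B N h k2 c := by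
  unfold B
  rw [← integral_add (nice_slice N H K1 c).integrable (nice_slice N H K2 c).integrable]
  congr 1
  funext y
  ring

lemma B_smul_left (N : ℕ) (t : ℝ) (h k : ℝ → ℝ) (c : ℝ) :
    B N (fun x => t * h x) k c = t * B N h k c := by
  unfold B
  rw [← integral_const_mul]
  congr 1
  funext y
  ring

lemma B_smul_right (N : ℕ) (t : ℝ) (h k : ℝ → ℝ) (c : ℝ) :
    B N h (fun x => t * k x) c = t * B N h k c := by
  unfold B
  rw [← integral_const_mul]
  congr 1
  funext y
  ring

lemma nice_B (N : ℕ) {h k : ℝ → ℝ} (H : Nice 0 1 h) (K : Nice 0 1 k) :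
    Nice (-(N : ℝ)) 1 (B N h k) := by
  obtain ⟨C, hC0, hC⟩ := H.bdd
  obtain ⟨D, hD0, hD⟩ := K.bdd
  refine ⟨?_, ⟨C * D, by positivity, fun c => ?_⟩, fun c hc => ?_⟩
  · have h1 : StronglyMeasurable (Function.uncurry (fun (c : ℝ) (y : ℝ) => h (c + N * y) * k y)) := by
      apply Measurable.stronglyMeasurable
      exact (H.meas.comp (by fun_prop)).mul (K.meas.comp measurable_snd)
    exact (h1.integral_prod_right (ν := volume)).measurable
  · have h2 : B N h k c = ∫ y in Set.Icc (0 : ℝ) 1, h (c + N * y) * k y := by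
      unfold B
      rw [setIntegral_eq_integral_of_forall_compl_eq_zero]
      intro x hx
      rw [K.supp x hx, mul_zero]
    rw [h2, ← Real.norm_eq_abs]
    have h3 := norm_setIntegral_le_of_norm_le_const (μ := (volume : Measure ℝ))
      (s := Set.Icc (0 : ℝ) 1) (f := fun y => h (c + N * y) * k y) (C := C * D)
      measure_Icc_lt_top (fun x _ => by
        rw [Real.norm_eq_abs, abs_mul]
        exact mul_le_mul (hC _) (hD x) (abs_nonneg _) hC0)
    refine h3.trans ?_
    simp
  · unfold B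
    rw [integral_eq_zero_of_ae]
    filter_upwards with y
    simp only [Pi.zero_apply]
    by_cases hy : y ∈ Set.Icc (0 : ℝ) 1
    · rw [H.supp, zero_mul]
      intro hcon
      apply hc
      have hN : (0 : ℝ) ≤ N := Nat.cast_nonneg N
      constructor
      · have : (N : ℝ) * y ≤ N * 1 := mul_le_mul_of_nonneg_left hy.2 hN
        linarith [hcon.1]
      · have : (0 : ℝ) ≤ N * y := mul_nonneg hN hy.1
        linarith [hcon.2]
    · rw [K.supp y hy, mul_zero]

end Expand

open Expand

theorem expand (N : ℕ) (hN : 0 < N) (g : ℝ → ℝ) (hg : Continuous g)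
    (sg : ∀ x, x ∉ Set.Ioo (0 : ℝ) 1 → g x = 0) (t : ℝ) :
    Phi N (fun x => one x + t * g x)
      = Phi N one + t * Lin N g + 2 * t ^ 2 * (∫ c, B N one one c * B N g g c)
        + ∫ c, (t * (B N one g c + B N g one c) + t ^ 2 * B N g g c) ^ 2 := by
  have n1 : Nice 0 1 one := nice_one
  have ng : Nice 0 1 g := nice_cont hg sg
  have ntg : Nice 0 1 (fun x => t * g x) := ng.smul t
  have nq := nice_B N n1 n1
  have nU := nice_B N n1 ng
  have nW := nice_B N ng n1
  have nG := nice_B N ng ng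
  have key : ∀ c, B N (fun x => one x + t * g x) (fun x => one x + t * g x) c
      = B N one one c + (t * (B N one g c + B N g one c) + t ^ 2 * B N g g c) := by
    intro c
    rw [B_add_left N n1 ntg (n1.add ntg) c, B_add_right N n1 n1 ntg c,
      B_add_right N ntg n1 ntg c, B_smul_right, B_smul_left, B_smul_left, B_smul_right]
    ring
  have nX : Nice (-(N : ℝ)) 1
      (fun c => t * (B N one g c + B N g one c) + t ^ 2 * B N g g c) :=
    ((nU.add nW).smul t).add (nG.smul (t ^ 2))
  have i1 : Integrable (fun c => (B N one one c) ^ 2) := by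
    have := (nq.mul nq).integrable
    simpa [sq] using this
  have i2 : Integrable (fun c => (t * (B N one g c + B N g one c) + t ^ 2 * B N g g c) ^ 2) := by
    have := (nX.mul nX).integrable
    simpa [sq] using this
  have i3 : Integrable (fun c => t * (2 * (B N one one c * (B N one g c + B N g one c)))) :=
    (((nq.mul (nU.add nW)).smul 2).smul t).integrable
  have i4 : Integrable (fun c => 2 * t ^ 2 * (B N one one c * B N g g c)) :=
    ((nq.mul nG).smul (2 * t ^ 2)).integrable
  unfold Phi Lin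
  have e1 : (fun c => (B N (fun x => one x + t * g x) (fun x => one x + t * g x) c) ^ 2)
      = fun c => (((B N one one c) ^ 2 + t * (2 * (B N one one c * (B N one g c + B N g one c))))
        + 2 * t ^ 2 * (B N one one c * B N g g c))
        + (t * (B N one g c + B N g one c) + t ^ 2 * B N g g c) ^ 2 := by
    funext c
    rw [key c]
    ring
  have i134 : Integrable (fun c => (B N one one c) ^ 2
      + t * (2 * (B N one one c * (B N one g c + B N g one c)))
      + 2 * t ^ 2 * (B N one one c * B N g g c)) := (i1.add i3).add i4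
  rw [e1, integral_add i134 i2, integral_add3 i1 i3 i4,
    integral_const_mul, integral_const_mul, integral_const_mul]

theorem Phi_smul (N : ℕ) (t : ℝ) (h : ℝ → ℝ) : Phi N (fun x => t * h x) = t ^ 4 * Phi N h := by
  unfold Phi
  rw [← integral_const_mul]
  congr 1
  funext c
  rw [B_smul_left, B_smul_right]
  ring

/-- with many colours: one colour of density `(1+g)/r`, the others `(1-g/(r-1))/r` -/
theorem exists_r (N : ℕ) (hN : 0 < N) (g : ℝ → ℝ) (hg : Continuous g)
    (sg : ∀ x, x ∉ Set.Ioo (0 : ℝ) 1 → g x = 0) (hR : Rfun N g < 0) :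
    ∃ r : ℕ, 3 ≤ r ∧
      Phi N (fun x => (r : ℝ)⁻¹ * (one x + g x))
        + ((r : ℝ) - 1) * Phi N (fun x => (r : ℝ)⁻¹ * (one x - ((r : ℝ) - 1)⁻¹ * g x))
        < ((r : ℝ) ^ 3)⁻¹ * Phi N one := by
  have n1 : Nice 0 1 one := nice_one
  have ng : Nice 0 1 g := nice_cont hg sg
  have nq := nice_B N n1 n1
  have nU := nice_B N n1 ng
  have nW := nice_B N ng n1
  have nG := nice_B N ng ng
  set A : ℝ := ∫ c, B N one one c * B N g g c with hA
  set S : ℝ := ∫ c, (B N one g c + B N g one c) * (B N one g c + B N g one c) with hS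
  set P : ℝ := ∫ c, (B N one g c + B N g one c) * B N g g c with hP
  set Q : ℝ := ∫ c, B N g g c * B N g g c with hQ
  have iS : Integrable (fun c => (B N one g c + B N g one c) * (B N one g c + B N g one c)) :=
    ((nU.add nW).mul (nU.add nW)).integrable
  have iP : Integrable (fun c => (B N one g c + B N g one c) * B N g g c) :=
    ((nU.add nW).mul nG).integrable
  have iQ : Integrable (fun c => B N g g c * B N g g c) := (nG.mul nG).integrable
  have hint : ∀ t : ℝ, (∫ c, (t * (B N one g c + B N g one c) + t ^ 2 * B N g g c) ^ 2)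
      = t ^ 2 * S + 2 * t ^ 3 * P + t ^ 4 * Q := by
    intro t
    have e1 : (fun c => (t * (B N one g c + B N g one c) + t ^ 2 * B N g g c) ^ 2)
        = fun c => (t ^ 2 * ((B N one g c + B N g one c) * (B N one g c + B N g one c))
          + 2 * t ^ 3 * ((B N one g c + B N g one c) * B N g g c))
          + t ^ 4 * (B N g g c * B N g g c) := by
      funext c
      ring
    rw [e1, integral_add3 (iS.const_mul _) (iP.const_mul _) (iQ.const_mul _),
      integral_const_mul, integral_const_mul, integral_const_mul]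
  have hexp : ∀ t : ℝ, Phi N (fun x => one x + t * g x)
      = Phi N one + t * Lin N g + 2 * t ^ 2 * A + (t ^ 2 * S + 2 * t ^ 3 * P + t ^ 4 * Q) := by
    intro t
    rw [expand N hN g hg sg t, hint t]
  have hRv : Rfun N g = 2 * A + (S + 2 * P + Q) := by
    unfold Rfun
    have := hint 1
    simp only [one_mul, one_pow, mul_one] at this
    rw [this]
  set M : ℝ := |2 * A + S| + 2 * |P| + |Q| with hM
  have hM0 : 0 ≤ M := by positivity
  obtain ⟨r0, hr0⟩ := exists_nat_gt (M / (-Rfun N g))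
  refine ⟨r0 + 3, by omega, ?_⟩
  have hr : (((r0 + 3 : ℕ) : ℝ)) = (r0 : ℝ) + 3 := by push_cast; ring
  rw [hr]
  set r : ℝ := (r0 : ℝ) + 3 with hrdef
  have hr0' : (0 : ℝ) ≤ r0 := Nat.cast_nonneg r0
  have hrpos : 0 < r := by linarith
  have hr1 : 0 < r - 1 := by linarith
  set τ : ℝ := (r - 1)⁻¹ with hτ
  have hτ0 : 0 < τ := inv_pos.mpr hr1
  have hτr : (r - 1) * τ = 1 := mul_inv_cancel₀ hr1.ne'
  have hτ1 : τ ≤ 1 := by
    rw [hτ]
    apply inv_le_one_of_one_le₀
    linarith
  have hneg : 0 < -Rfun N g := by linarith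
  have hMr : τ * M < -Rfun N g := by
    have h1 : M / (-Rfun N g) < r - 1 := by linarith
    rw [div_lt_iff₀ hneg] at h1
    calc τ * M < τ * ((r - 1) * (-Rfun N g)) := mul_lt_mul_of_pos_left h1 hτ0
      _ = ((r - 1) * τ) * (-Rfun N g) := by ring
      _ = -Rfun N g := by rw [hτr, one_mul]
  rw [Phi_smul, Phi_smul]
  have e1 : Phi N (fun x => one x + g x) = Phi N one + Lin N g + Rfun N g := by
    have := hexp 1
    simp only [one_mul, one_pow, mul_one] at this
    rw [this, hRv]
    ring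
  have e2 : Phi N (fun x => one x - τ * g x)
      = Phi N one - τ * Lin N g + τ ^ 2 * (2 * A + S - 2 * τ * P + τ ^ 2 * Q) := by
    have := hexp (-τ)
    have h3 : (fun x => one x + -τ * g x) = fun x => one x - τ * g x := by
      funext x; ring
    rw [h3] at this
    rw [this]
    ring
  rw [e1, e2]
  set E : ℝ := 2 * A + S - 2 * τ * P + τ ^ 2 * Q with hE
  have hE1 : E ≤ M := by
    have a1 : 2 * A + S ≤ |2 * A + S| := le_abs_self _
    have a2 : -(2 * τ * P) ≤ 2 * |P| := by
      have : |τ * P| ≤ |P| := by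
        rw [abs_mul, abs_of_pos hτ0]
        nlinarith [abs_nonneg P]
      nlinarith [neg_abs_le (τ * P)]
    have a3 : τ ^ 2 * Q ≤ |Q| := by
      have h4 : τ ^ 2 ≤ 1 := by nlinarith
      have : |τ ^ 2 * Q| ≤ |Q| := by
        rw [abs_mul, abs_of_nonneg (sq_nonneg τ)]
        nlinarith [abs_nonneg Q]
      exact (le_abs_self _).trans this
    rw [hE, hM]
    linarith
  have hmain : Rfun N g + τ * E < 0 := by
    have : τ * E ≤ τ * M := mul_le_mul_of_nonneg_left hE1 hτ0.le
    linarith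
  have hsum : r⁻¹ ^ 4 * (Phi N one + Lin N g + Rfun N g)
      + (r - 1) * (r⁻¹ ^ 4 * (Phi N one - τ * Lin N g + τ ^ 2 * E))
      = r⁻¹ ^ 4 * (r * Phi N one) + r⁻¹ ^ 4 * (Rfun N g + τ * E) := by
    have h5 : (r - 1) * (Phi N one - τ * Lin N g + τ ^ 2 * E)
        = (r - 1) * Phi N one - Lin N g + τ * E := by
      have : (r - 1) * (Phi N one - τ * Lin N g + τ ^ 2 * E)
          = (r - 1) * Phi N one - ((r - 1) * τ) * Lin N g + ((r - 1) * τ) * (τ * E) := by ring
      rw [this, hτr]
      ring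
    calc r⁻¹ ^ 4 * (Phi N one + Lin N g + Rfun N g)
          + (r - 1) * (r⁻¹ ^ 4 * (Phi N one - τ * Lin N g + τ ^ 2 * E))
        = r⁻¹ ^ 4 * ((Phi N one + Lin N g + Rfun N g)
          + (r - 1) * (Phi N one - τ * Lin N g + τ ^ 2 * E)) := by ring
      _ = _ := by rw [h5]; ring
  rw [hsum]
  have h6 : r⁻¹ ^ 4 * (r * Phi N one) = (r ^ 3)⁻¹ * Phi N one := by
    field_simp
  rw [h6]
  have h7 : r⁻¹ ^ 4 * (Rfun N g + τ * E) < 0 :=
    mul_neg_of_pos_of_neg (by positivity) hmain
  linarith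

end Pool.Agent.Helper63.Common
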