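import Pool.Agent.Helper63.Common.Dbound

set_option autoImplicit false
open MeasureTheory Set Filter Topology

namespace Pool.Agent.Helper63.Common

namespace NegG

lemma one_zero {x : ℝ} (hx : x ∉ Set.Ioc (0 : ℝ) 1) : one x = 0 := by
  unfold one
  exact Set.indicator_of_notMem hx _

lemma B_zero (N : ℕ) {h k : ℝ → ℝ} (hh : ∀ x, x ∉ Set.Ioc (0 : ℝ) 1 → h x = 0)
    (hk : ∀ x, x ∉ Set.Ioc (0 : ℝ) 1 → k x = 0) {c : ℝ} (hc : c ∉ Set.Ioc (-(N : ℝ)) 1) :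
    B N h k c = 0 := by
  unfold B
  have : (fun y : ℝ => h (c + N * y) * k y) = fun _ => 0 := by
    funext y
    by_cases hy : y ∈ Set.Ioc (0 : ℝ) 1
    · have hN : (0 : ℝ) ≤ N := Nat.cast_nonneg N
      have : c + N * y ∉ Set.Ioc (0 : ℝ) 1 := by
        intro hcy
        apply hc
        obtain ⟨h1, h2⟩ := hcy
        obtain ⟨h3, h4⟩ := hy
        constructor
        · nlinarith
        · nlinarith
      rw [hh _ this, zero_mul]
    · rw [hk _ hy, mul_zero]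
  rw [this, integral_zero]

lemma abs_s0_le (x : ℝ) : |s0 x| ≤ 1 := by
  unfold s0
  have hpi := Real.pi_gt_three
  rw [abs_div, abs_of_pos (show (0 : ℝ) < 4 * Real.pi ^ 3 by positivity),
    div_le_one (by positivity)]
  have h1 := Real.abs_sin_le_one (2 * Real.pi * x)
  have h2 : (1 : ℝ) ≤ Real.pi ^ 3 := one_le_pow₀ (by linarith)
  linarith

lemma abs_s1_le (x : ℝ) : |s1 x| ≤ 1 := by
  unfold s1
  have hpi := Real.pi_gt_three
  rw [abs_div, abs_of_pos (show (0 : ℝ) < 2 * Real.pi ^ 2 by positivity),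
    div_le_one (by positivity)]
  have h1 := Real.abs_cos_le_one (2 * Real.pi * x)
  have h2 : (1 : ℝ) ≤ Real.pi ^ 2 := one_le_pow₀ (by linarith)
  linarith

lemma abs_s2_le (x : ℝ) : |s2 x| ≤ 1 := by
  unfold s2
  have hpi := Real.pi_gt_three
  rw [abs_neg, abs_div, abs_of_pos (show (0 : ℝ) < Real.pi by positivity),
    div_le_one (by positivity)]
  have h1 := Real.abs_sin_le_one (2 * Real.pi * x)
  linarith

/-- uniform bound of `psi2` -/
lemma psi2_bound (N : ℕ) (hN : 8 ≤ N) {a a1 a2 b b1 b2 : ℝ → ℝ} (h : Pair N a a1 a2 b b1 b2) :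
    ∃ M : ℝ, 0 ≤ M ∧ ∀ w : ℝ, 1 ≤ w → ∀ x, |psi2 N w a a1 a2 b b1 b2 x| ≤ M / w := by
  have ca : Continuous a := continuous_iff_continuousAt.2 fun x => (h.ea.d1 x).continuousAt
  have ca1 : Continuous a1 := continuous_iff_continuousAt.2 fun x => (h.ea.d2 x).continuousAt
  have cb : Continuous b := continuous_iff_continuousAt.2 fun x => (h.eb.d1 x).continuousAt
  have cb1 : Continuous b1 := continuous_iff_continuousAt.2 fun x => (h.eb.d2 x).continuousAt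
  have ex : ∀ f : ℝ → ℝ, Continuous f → ∃ M : ℝ, 0 ≤ M ∧ ∀ x ∈ Set.Icc (0 : ℝ) N, |f x| ≤ M := by
    intro f hf
    obtain ⟨M, hM⟩ := isCompact_Icc.exists_bound_of_continuousOn (s := Set.Icc (0 : ℝ) N)
      hf.continuousOn
    refine ⟨|M|, abs_nonneg _, fun x hx => ?_⟩
    have := hM x hx
    rw [Real.norm_eq_abs] at this
    exact this.trans (le_abs_self _)
  obtain ⟨A0, hA0, ha0⟩ := ex a ca
  obtain ⟨A1, hA1, ha1⟩ := ex a1 ca1
  obtain ⟨A2, hA2, ha2⟩ := ex a2 h.ea.c2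
  obtain ⟨B0, hB0, hb0⟩ := ex b cb
  obtain ⟨B1, hB1, hb1⟩ := ex b1 cb1
  obtain ⟨B2, hB2, hb2⟩ := ex b2 h.eb.c2
  have hN1 : (1 : ℝ) ≤ N := by exact_mod_cast (by omega : 1 ≤ N)
  refine ⟨A0 + 2 * A1 + A2 + B0 + 2 * B1 + B2, by positivity, ?_⟩
  intro w hw x
  have hw0 : 0 < w := by linarith
  by_cases hx : x ∈ Set.Ioo (0 : ℝ) 1
  · have hx1 : x ∈ Set.Icc (0 : ℝ) N := ⟨hx.1.le, by linarith [hx.2]⟩
    have hx2 : (N : ℝ) * x ∈ Set.Icc (0 : ℝ) N := by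
      constructor
      · have := hx.1; positivity
      · nlinarith [hx.2]
    have hi : w⁻¹ ≤ 1 := inv_le_one_of_one_le₀ hw
    have hi0 : 0 < w⁻¹ := by positivity
    have hi2 : w⁻¹ ^ 2 ≤ w⁻¹ := by nlinarith
    have hi3 : w⁻¹ ^ 3 ≤ w⁻¹ := by
      have : w⁻¹ ^ 3 = w⁻¹ * w⁻¹ ^ 2 := by ring
      rw [this]; nlinarith
    have key : ∀ (p u A v : ℝ), 0 ≤ p → p ≤ w⁻¹ → |u| ≤ A → |v| ≤ 1 → |p * (u * v)| ≤ w⁻¹ * A := by
      intro p u A v hp hpw hu hv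
      rw [abs_mul, abs_mul, abs_of_nonneg hp]
      have : |u| * |v| ≤ A := by
        have := abs_nonneg u
        have := abs_nonneg v
        nlinarith
      have h0 : 0 ≤ |u| * |v| := by positivity
      have hA : 0 ≤ A := le_trans h0 this
      exact mul_le_mul hpw this h0 hi0.le
    unfold psi2
    have t1 := key w⁻¹ (a x) A0 (s2 (w * x)) hi0.le le_rfl (ha0 x hx1) (abs_s2_le _)
    have t2 := key (w⁻¹ ^ 2) (a1 x) A1 (s1 (w * x)) (by positivity) hi2 (ha1 x hx1) (abs_s1_le _)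
    have t3 := key (w⁻¹ ^ 3) (a2 x) A2 (s0 (w * x)) (by positivity) hi3 (ha2 x hx1) (abs_s0_le _)
    have t4 := key w⁻¹ (b (N * x)) B0 (s2 (N * w * x)) hi0.le le_rfl (hb0 _ hx2) (abs_s2_le _)
    have t5 := key (w⁻¹ ^ 2) (b1 (N * x)) B1 (s1 (N * w * x)) (by positivity) hi2 (hb1 _ hx2)
      (abs_s1_le _)
    have t6 := key (w⁻¹ ^ 3) (b2 (N * x)) B2 (s0 (N * w * x)) (by positivity) hi3 (hb2 _ hx2)
      (abs_s0_le _)
    have e : (A0 + 2 * A1 + A2 + B0 + 2 * B1 + B2) / w =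
        w⁻¹ * A0 + 2 * (w⁻¹ * A1) + w⁻¹ * A2 + w⁻¹ * B0 + 2 * (w⁻¹ * B1) + w⁻¹ * B2 := by
      rw [div_eq_inv_mul]; ring
    rw [e]
    rw [abs_le] at t1 t2 t3 t4 t5 t6 ⊢
    constructor <;> linarith [t1.1, t1.2, t2.1, t2.2, t3.1, t3.2, t4.1, t4.2, t5.1, t5.2, t6.1, t6.2]
  · have := (bump_psi N hN h w hw0.ne').z2 x hx
    rw [this, abs_zero]
    positivity

lemma continuous_dmaj (N : ℕ) {a a1 a2 b b1 b2 : ℝ → ℝ} (h : Pair N a a1 a2 b b1 b2) :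
    Continuous (dmaj N a b) := by
  have ca : Continuous a := continuous_iff_continuousAt.2 fun x => (h.ea.d1 x).continuousAt
  have cb : Continuous b := continuous_iff_continuousAt.2 fun x => (h.eb.d1 x).continuousAt
  have cL : Continuous (fun s => Lam a b s) := by
    unfold Lam
    have c1 : Continuous (fun s : ℝ => ∫ t in (0 : ℝ)..1, a t * b (s + t)) := by
      apply intervalIntegral.continuous_parametric_intervalIntegral_of_continuous'
      simp only [Function.uncurry_def]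
      fun_prop
    fun_prop
  unfold dmaj
  fun_prop

lemma dmaj_nonneg (N : ℕ) (a b : ℝ → ℝ) (c : ℝ) : 0 ≤ dmaj N a b c := by
  unfold dmaj
  positivity

end NegG

open NegG

/-- if the local functional is negative then, for large frequency, the test function
`psi2` has negative remainder (uses `bump_psi`, `D_bound`, `gain_main`) -/
theorem neg_of_pair (N : ℕ) (hN : 8 ≤ N) {a a1 a2 b b1 b2 : ℝ → ℝ} (h : Pair N a a1 a2 b b1 b2)
    (hneg : (∫ c in (-(N : ℝ))..1, (dmaj N a b c) ^ 2)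
      + (N : ℝ)⁻¹ ^ 2 * (∫ t in (0 : ℝ)..1, a t * b t) < 0) :
    ∃ g : ℝ → ℝ, Continuous g ∧ (∀ x, x ∉ Set.Ioo (0 : ℝ) 1 → g x = 0) ∧ (∀ x, |g x| ≤ 1) ∧
      Rfun N g < 0 := by
  obtain ⟨C, hC, hD⟩ := D_bound N hN h
  obtain ⟨C', hG⟩ := gain_main N hN h
  obtain ⟨M, hM, hbd⟩ := psi2_bound N hN h
  have hN1 : (1 : ℝ) ≤ N := by exact_mod_cast (by omega : 1 ≤ N)
  have cd : Continuous (dmaj N a b) := continuous_dmaj N h
  set E := (∫ c in (-(N : ℝ))..1, (dmaj N a b c) ^ 2)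
      + (N : ℝ)⁻¹ ^ 2 * (∫ t in (0 : ℝ)..1, a t * b t) with hE
  set J := ∫ c in (-(N : ℝ))..1, dmaj N a b c with hJ
  set C2 := |C'| + 2 * C * (2 * Real.pi ^ 2)⁻¹ * J + C ^ 2 * (1 + N) with hC2
  -- the frequency
  obtain ⟨k, hk⟩ := exists_nat_gt (max 1 (max M (C2 / ((4 * Real.pi ^ 4)⁻¹ * (-E)))))
  have hk1 : (1 : ℝ) < k := (le_max_left _ _).trans_lt hk
  have hkM : M < k := ((le_max_left _ _).trans (le_max_right _ _)).trans_lt hk
  have hkC : C2 / ((4 * Real.pi ^ 4)⁻¹ * (-E)) < k :=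
    ((le_max_right _ _).trans (le_max_right _ _)).trans_lt hk
  have hk' : 1 ≤ k := by exact_mod_cast hk1.le
  set w : ℝ := (N : ℝ) * k with hw
  have hwk : (k : ℝ) ≤ w := by rw [hw]; nlinarith
  have hw1 : 1 ≤ w := by linarith
  have hw0 : 0 < w := by linarith
  have hb := bump_psi N hN h w hw0.ne'
  set g := psi2 N w a a1 a2 b b1 b2 with hg
  refine ⟨g, hb.c2, hb.z2, ?_, ?_⟩
  · intro x
    refine (hbd w hw1 x).trans ?_
    rw [div_le_one hw0]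
    linarith
  · have hgz : ∀ x, x ∉ Set.Ioc (0 : ℝ) 1 → g x = 0 := by
      intro x hx
      exact hb.z2 x (fun hx' => hx ⟨hx'.1, hx'.2.le⟩)
    have hone : ∀ x, x ∉ Set.Ioc (0 : ℝ) 1 → one x = 0 := fun x hx => one_zero hx
    have hle : (-(N : ℝ)) ≤ 1 := by linarith
    have s1 : (∫ c, (B N one g c + B N g one c + B N g g c) ^ 2)
        ≤ ∫ c in (-(N : ℝ))..1, (w⁻¹ ^ 2 * ((2 * Real.pi ^ 2)⁻¹ * dmaj N a b c) + C * w⁻¹ ^ 3) ^ 2 := by
      rw [intervalIntegral.integral_of_le hle,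
        ← setIntegral_eq_integral_of_forall_compl_eq_zero (s := Set.Ioc (-(N : ℝ)) 1)]
      · apply integral_mono_of_nonneg
        · exact Filter.Eventually.of_forall (fun c => sq_nonneg _)
        · have : Continuous (fun c => (w⁻¹ ^ 2 * ((2 * Real.pi ^ 2)⁻¹ * dmaj N a b c) + C * w⁻¹ ^ 3) ^ 2) := by
            fun_prop
          exact (this.integrableOn_Icc (a := -(N : ℝ)) (b := 1)).mono_set Set.Ioc_subset_Icc_self
        · refine Filter.Eventually.of_forall (fun c => ?_)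
          have := hD k hk' c
          exact sq_le_sq' (by linarith [(abs_le.1 this).1]) (abs_le.1 this).2
      · intro c hc
        rw [B_zero N hone hgz hc, B_zero N hgz hone hc, B_zero N hgz hgz hc]
        norm_num
    have s2 : (∫ c in (-(N : ℝ))..1, (w⁻¹ ^ 2 * ((2 * Real.pi ^ 2)⁻¹ * dmaj N a b c) + C * w⁻¹ ^ 3) ^ 2)
        = w⁻¹ ^ 4 * ((4 * Real.pi ^ 4)⁻¹ * ∫ c in (-(N : ℝ))..1, (dmaj N a b c) ^ 2)
          + w⁻¹ ^ 5 * (2 * C * (2 * Real.pi ^ 2)⁻¹ * J) + w⁻¹ ^ 6 * (C ^ 2 * (1 + N)) := by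
      have e : ∀ c, (w⁻¹ ^ 2 * ((2 * Real.pi ^ 2)⁻¹ * dmaj N a b c) + C * w⁻¹ ^ 3) ^ 2 =
          w⁻¹ ^ 4 * (4 * Real.pi ^ 4)⁻¹ * (dmaj N a b c) ^ 2
          + (w⁻¹ ^ 5 * (2 * C * (2 * Real.pi ^ 2)⁻¹)) * dmaj N a b c + w⁻¹ ^ 6 * C ^ 2 := by
        intro c
        have : (4 * Real.pi ^ 4)⁻¹ = (2 * Real.pi ^ 2)⁻¹ ^ 2 := by
          rw [inv_pow]; congr 1; ring
        rw [this]
        ring
      simp_rw [e]
      have i1 : IntervalIntegrable (fun c => w⁻¹ ^ 4 * (4 * Real.pi ^ 4)⁻¹ * (dmaj N a b c) ^ 2)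
          volume (-(N : ℝ)) 1 := by
        apply Continuous.intervalIntegrable; fun_prop
      have i2 : IntervalIntegrable (fun c => (w⁻¹ ^ 5 * (2 * C * (2 * Real.pi ^ 2)⁻¹)) * dmaj N a b c)
          volume (-(N : ℝ)) 1 := by
        apply Continuous.intervalIntegrable; fun_prop
      have i3 : IntervalIntegrable (fun _ : ℝ => w⁻¹ ^ 6 * C ^ 2) volume (-(N : ℝ)) 1 :=
        intervalIntegrable_const
      rw [intervalIntegral.integral_add (i1.add i2) i3, intervalIntegral.integral_add i1 i2,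
        intervalIntegral.integral_const_mul, intervalIntegral.integral_const_mul,
        intervalIntegral.integral_const, ← hJ, smul_eq_mul]
      ring
    have s3 := hG k hk'
    have s4 : Rfun N g ≤ w⁻¹ ^ 4 * ((4 * Real.pi ^ 4)⁻¹ * E) + w⁻¹ ^ 5 * C2 := by
      have hi0 : 0 < w⁻¹ := by positivity
      have hi1 : w⁻¹ ≤ 1 := inv_le_one_of_one_le₀ hw1
      have h65 : w⁻¹ ^ 6 * (C ^ 2 * (1 + N)) ≤ w⁻¹ ^ 5 * (C ^ 2 * (1 + N)) := by
        apply mul_le_mul_of_nonneg_right _ (by positivity)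
        exact pow_le_pow_of_le_one hi0.le hi1 (by norm_num)
      have hC'' : C' * w⁻¹ ^ 5 ≤ w⁻¹ ^ 5 * |C'| := by
        rw [mul_comm]
        exact mul_le_mul_of_nonneg_left (le_abs_self _) (by positivity)
      unfold Rfun
      calc 2 * (∫ c, B N one one c * B N g g c) + ∫ c, (B N one g c + B N g one c + B N g g c) ^ 2
          ≤ (w⁻¹ ^ 4 * ((4 * Real.pi ^ 4)⁻¹ * ((N : ℝ)⁻¹ ^ 2 * ∫ t in (0 : ℝ)..1, a t * b t))
              + C' * w⁻¹ ^ 5)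
            + (w⁻¹ ^ 4 * ((4 * Real.pi ^ 4)⁻¹ * ∫ c in (-(N : ℝ))..1, (dmaj N a b c) ^ 2)
          + w⁻¹ ^ 5 * (2 * C * (2 * Real.pi ^ 2)⁻¹ * J) + w⁻¹ ^ 6 * (C ^ 2 * (1 + N))) := by
            rw [← s2]; exact add_le_add s3 s1
        _ ≤ _ := by
            rw [hE, hC2]
            have : w⁻¹ ^ 4 * ((4 * Real.pi ^ 4)⁻¹ * ((∫ c in (-(N : ℝ))..1, (dmaj N a b c) ^ 2)
              + (N : ℝ)⁻¹ ^ 2 * (∫ t in (0 : ℝ)..1, a t * b t))) +
              w⁻¹ ^ 5 * (|C'| + 2 * C * (2 * Real.pi ^ 2)⁻¹ * J + C ^ 2 * (1 + N)) =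
              w⁻¹ ^ 4 * ((4 * Real.pi ^ 4)⁻¹ * ((N : ℝ)⁻¹ ^ 2 * ∫ t in (0 : ℝ)..1, a t * b t))
              + w⁻¹ ^ 5 * |C'| + (w⁻¹ ^ 4 * ((4 * Real.pi ^ 4)⁻¹ * ∫ c in (-(N : ℝ))..1, (dmaj N a b c) ^ 2)
              + w⁻¹ ^ 5 * (2 * C * (2 * Real.pi ^ 2)⁻¹ * J) + w⁻¹ ^ 5 * (C ^ 2 * (1 + N))) := by ring
            rw [this]
            linarith
    refine s4.trans_lt ?_
    have hpos : 0 < (4 * Real.pi ^ 4)⁻¹ * (-E) := by
      have : 0 < -E := by linarith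
      positivity
    have h5 : C2 < w * ((4 * Real.pi ^ 4)⁻¹ * (-E)) := by
      rw [div_lt_iff₀ hpos] at hkC
      exact hkC.trans_le (mul_le_mul_of_nonneg_right hwk hpos.le)
    have h6 : w⁻¹ ^ 4 * ((4 * Real.pi ^ 4)⁻¹ * E) + w⁻¹ ^ 5 * C2
        = w⁻¹ ^ 5 * (C2 - w * ((4 * Real.pi ^ 4)⁻¹ * (-E))) := by
      have : w⁻¹ ^ 4 = w⁻¹ ^ 5 * w := by field_simp
      rw [this]; ring
    rw [h6]
    have : 0 < w⁻¹ ^ 5 := by positivity
    exact mul_neg_of_pos_of_neg this (by linarith)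

end Pool.Agent.Helper63.Common
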