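import Pool.Agent.Helper63.Common.Defs

set_option autoImplicit false
open MeasureTheory Set Filter Topology

namespace Pool.Agent.Helper63.Common

namespace Kern

/-- mean value step -/
lemma mv_step {g g' : ℝ → ℝ} (hg : ∀ x, HasDerivAt g (g' x) x) (h0 : g 0 = 0) {C : ℝ} {n : ℕ}
    (hb : ∀ x, |g' x| ≤ C * |x| ^ n) (t : ℝ) : |g t| ≤ C * |t| ^ (n + 1) := by
  have hC : 0 ≤ C := by
    have h1 := hb 1
    simp only [abs_one, one_pow, mul_one] at h1
    exact le_trans (abs_nonneg _) h1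
  have h := Convex.norm_image_sub_le_of_norm_hasDerivWithin_le (f := g) (f' := g')
    (s := Set.uIcc 0 t) (x := 0) (y := t) (C := C * |t| ^ n)
    (fun x _ => (hg x).hasDerivWithinAt) ?_ (convex_uIcc 0 t) Set.left_mem_uIcc Set.right_mem_uIcc
  · simp only [h0, sub_zero, Real.norm_eq_abs] at h
    calc |g t| ≤ C * |t| ^ n * |t| := h
      _ = C * |t| ^ (n + 1) := by ring
  · intro x hx
    rw [Real.norm_eq_abs]
    refine le_trans (hb x) ?_
    have hxt : |x| ≤ |t| := by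
      have := Set.abs_sub_left_of_mem_uIcc hx
      simpa using this
    exact mul_le_mul_of_nonneg_left (pow_le_pow_left₀ (abs_nonneg _) hxt n) hC

lemma taylor3 {f f1 f2 f3 : ℝ → ℝ} (h1 : ∀ x, HasDerivAt f (f1 x) x)
    (h2 : ∀ x, HasDerivAt f1 (f2 x) x) (h3 : ∀ x, HasDerivAt f2 (f3 x) x) {C : ℝ}
    (hC : ∀ x, |f3 x| ≤ C) (s t : ℝ) :
    |f (s + t) - f s - f1 s * t - f2 s * t ^ 2 / 2| ≤ C * |t| ^ 3 := by
  have hs : ∀ x : ℝ, HasDerivAt (fun y : ℝ => s + y) 1 x := fun x =>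
    (hasDerivAt_id x).const_add s
  have e2 : ∀ x, |f2 (s + x) - f2 s| ≤ C * |x| ^ (0 + 1) := by
    intro x
    refine mv_step (g := fun y => f2 (s + y) - f2 s) (g' := fun y => f3 (s + y)) ?_ ?_ ?_ x
    · intro y
      have := ((h3 (s + y)).comp y (hs y)).sub_const (f2 s)
      simpa using this
    · simp
    · intro y; simpa using hC (s + y)
  have e1 : ∀ x, |f1 (s + x) - f1 s - f2 s * x| ≤ C * |x| ^ (1 + 1) := by
    intro x
    refine mv_step (g := fun y => f1 (s + y) - f1 s - f2 s * y)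
      (g' := fun y => f2 (s + y) - f2 s) ?_ ?_ ?_ x
    · intro y
      have := (((h2 (s + y)).comp y (hs y)).sub_const (f1 s)).sub
        ((hasDerivAt_id y).const_mul (f2 s))
      refine this.congr_deriv ?_
      simp
    · simp
    · intro y; simpa using e2 y
  have e0 := mv_step (g := fun y => f (s + y) - f s - f1 s * y - f2 s * y ^ 2 / 2)
      (g' := fun y => f1 (s + y) - f1 s - f2 s * y) (C := C) (n := 2) ?_ ?_ ?_ t
  · simpa using e0
  · intro y
    have := ((((h1 (s + y)).comp y (hs y)).sub_const (f s)).sub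
        ((hasDerivAt_id y).const_mul (f1 s))).sub
        ((((hasDerivAt_id y).pow 2).const_mul (f2 s)).div_const 2)
    refine this.congr_deriv ?_
    simp
    ring
  · simp
  · intro y; simpa using e1 y

/-- kernels with two vanishing moments -/
structure IsKer (k : ℝ → ℝ) : Prop where
  smooth : ContDiff ℝ 2 k
  supp : ∀ x, x ∉ Set.Ioo (1 / 8 : ℝ) 1 → k x = 0
  m0 : ∫ u in (0 : ℝ)..1, k u = 1
  m1 : ∫ u in (0 : ℝ)..1, u * k u = 0
  m2 : ∫ u in (0 : ℝ)..1, u ^ 2 * k u = 0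

lemma mom (φ : ℝ → ℝ) (j : ℕ) {c : ℝ} (hc : 0 < c) :
    ∫ u, u ^ j * φ (c * u) = (c⁻¹) ^ (j + 1) * ∫ v, v ^ j * φ v := by
  have h := Measure.integral_comp_mul_left (fun v => v ^ j * φ v) c
  rw [abs_of_pos (inv_pos.mpr hc), smul_eq_mul] at h
  have h2 : ∀ u : ℝ, u ^ j * φ (c * u) = (c⁻¹) ^ j * ((c * u) ^ j * φ (c * u)) := by
    intro u
    rw [mul_pow, ← mul_assoc, ← mul_assoc, ← mul_pow, inv_mul_cancel₀ hc.ne', one_pow, one_mul]
  simp_rw [h2]
  rw [integral_const_mul, h, pow_succ]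
  ring

lemma exists_ker : ∃ k : ℝ → ℝ, IsKer k := by
  let bmp : ContDiffBump (3 / 4 : ℝ) := ⟨1 / 8, 1 / 4, by norm_num, by norm_num⟩
  let φ : ℝ → ℝ := bmp.normed volume
  have hφs : ∀ x, x ∉ Set.Ioo (1 / 2 : ℝ) 1 → φ x = 0 := by
    intro x hx
    by_contra h
    have hx2 : x ∈ Function.support (bmp.normed volume) := h
    rw [ContDiffBump.support_normed_eq, Real.ball_eq_Ioo] at hx2
    apply hx
    have hr : bmp.rOut = 1 / 4 := rfl
    rw [hr] at hx2
    constructor
    · linarith [hx2.1]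
    · linarith [hx2.2]
  have hφc : ContDiff ℝ 2 φ := by
    have := bmp.contDiff_normed (n := 2) (μ := (volume : Measure ℝ))
    exact_mod_cast this
  have hφi : ∫ x, φ x = 1 := bmp.integral_normed
  have hint : ∀ (j : ℕ) (c : ℝ), 1 ≤ c → Integrable (fun u : ℝ => u ^ j * φ (c * u)) := by
    intro j c hc
    apply Continuous.integrable_of_hasCompactSupport
    · exact (continuous_pow j).mul (hφc.continuous.comp (continuous_const.mul continuous_id))
    · apply HasCompactSupport.intro (isCompact_Icc (a := (0 : ℝ)) (b := 1))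
      intro x hx
      have : φ (c * x) = 0 := by
        apply hφs
        intro h
        apply hx
        have hc0 : 0 < c := by linarith
        constructor
        · by_contra h'
          push Not at h'
          have : c * x ≤ 0 := by nlinarith
          linarith [h.1]
        · nlinarith [h.1, h.2]
      rw [this, mul_zero]
  let k : ℝ → ℝ := fun u => (1 / 3) * φ u - 4 * φ (2 * u) + (32 / 3) * φ (4 * u)
  have hks : ∀ x, x ∉ Set.Ioo (1 / 8 : ℝ) 1 → k x = 0 := by
    intro x hx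
    have h1 : φ x = 0 := hφs x (fun h => hx ⟨by linarith [h.1], h.2⟩)
    have h2 : φ (2 * x) = 0 := hφs _ (fun h => hx ⟨by linarith [h.1], by linarith [h.2]⟩)
    have h4 : φ (4 * x) = 0 := hφs _ (fun h => hx ⟨by linarith [h.1], by linarith [h.2]⟩)
    simp only [k, h1, h2, h4]
    ring
  have key : ∀ j : ℕ, ∫ u in (0 : ℝ)..1, u ^ j * k u
      = ((1 / 3) - 4 * (1 / 2 : ℝ) ^ (j + 1) + (32 / 3) * (1 / 4 : ℝ) ^ (j + 1))
        * ∫ v, v ^ j * φ v := by
    intro j
    rw [intervalIntegral.integral_eq_integral_of_support_subset]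
    · have e : ∀ u : ℝ, u ^ j * k u = ((1 / 3) * (u ^ j * φ (1 * u)) - 4 * (u ^ j * φ (2 * u)))
          + (32 / 3) * (u ^ j * φ (4 * u)) := by
        intro u; simp only [k, one_mul]; ring
      simp_rw [e]
      rw [integral_add, integral_sub, integral_const_mul, integral_const_mul, integral_const_mul,
        mom φ j (c := 1) (by norm_num), mom φ j (c := 2) (by norm_num),
        mom φ j (c := 4) (by norm_num)]
      · simp only [inv_one, one_pow, one_mul, one_div]
        ring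
      · exact (hint j 1 le_rfl).const_mul _
      · exact (hint j 2 (by norm_num)).const_mul _
      · exact ((hint j 1 le_rfl).const_mul _).sub ((hint j 2 (by norm_num)).const_mul _)
      · exact (hint j 4 (by norm_num)).const_mul _
    · intro x hx
      by_contra h
      apply hx
      have : k x = 0 := by
        apply hks
        intro h'
        exact h ⟨by linarith [h'.1], h'.2.le⟩
      simp [this]
  refine ⟨k, ?_, hks, ?_, ?_, ?_⟩
  · refine ContDiff.add (ContDiff.sub (contDiff_const.mul hφc)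
      (contDiff_const.mul (hφc.comp (contDiff_const.mul contDiff_id))))
      (contDiff_const.mul (hφc.comp (contDiff_const.mul contDiff_id)))
  · have := key 0
    simp only [pow_zero, one_mul, hφi, zero_add, pow_one] at this
    rw [this]; norm_num
  · have := key 1
    simp only [pow_one] at this
    rw [this]
    norm_num
  · have := key 2
    rw [this]
    norm_num

lemma ker_err {k : ℝ → ℝ} (hk : IsKer k) {K : ℝ} (hK : ∀ x, |k x| ≤ K)
    {f f1 f2 f3 : ℝ → ℝ} (h1 : ∀ x, HasDerivAt f (f1 x) x)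
    (h2 : ∀ x, HasDerivAt f1 (f2 x) x) (h3 : ∀ x, HasDerivAt f2 (f3 x) x) {C : ℝ}
    (hC : ∀ x, |f3 x| ≤ C) (s e : ℝ) :
    |(∫ u in (0 : ℝ)..1, k u * f (s + e * u)) - f s| ≤ K * C * |e| ^ 3 := by
  have hkc : Continuous k := hk.smooth.continuous
  have hfc : Continuous f := continuous_iff_continuousAt.mpr (fun x => (h1 x).continuousAt)
  have hK0 : 0 ≤ K := le_trans (abs_nonneg _) (hK 0)
  have hC0 : 0 ≤ C := le_trans (abs_nonneg _) (hC 0)
  set R : ℝ → ℝ := fun t => f (s + t) - f s - f1 s * t - f2 s * t ^ 2 / 2 with hR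
  have hRc : Continuous R := by
    rw [hR]; fun_prop
  have e1 : ∀ u : ℝ, k u * f (s + e * u)
      = (f s * k u + (f1 s * e) * (u * k u) + (f2 s * e ^ 2 / 2) * (u ^ 2 * k u))
        + k u * R (e * u) := by
    intro u; simp only [hR]; ring
  have i0 : IntervalIntegrable (fun u : ℝ => f s * k u) volume 0 1 :=
    (by fun_prop : Continuous (fun u : ℝ => f s * k u)).intervalIntegrable _ _
  have i1 : IntervalIntegrable (fun u : ℝ => (f1 s * e) * (u * k u)) volume 0 1 :=
    (by fun_prop : Continuous (fun u : ℝ => (f1 s * e) * (u * k u))).intervalIntegrable _ _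
  have i2 : IntervalIntegrable (fun u : ℝ => (f2 s * e ^ 2 / 2) * (u ^ 2 * k u)) volume 0 1 :=
    (by fun_prop :
      Continuous (fun u : ℝ => (f2 s * e ^ 2 / 2) * (u ^ 2 * k u))).intervalIntegrable _ _
  have i3 : IntervalIntegrable (fun u : ℝ => k u * R (e * u)) volume 0 1 :=
    (by fun_prop : Continuous (fun u : ℝ => k u * R (e * u))).intervalIntegrable _ _
  have hI : (∫ u in (0 : ℝ)..1, k u * f (s + e * u)) - f s
      = ∫ u in (0 : ℝ)..1, k u * R (e * u) := by
    simp_rw [e1]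
    rw [intervalIntegral.integral_add ((i0.add i1).add i2) i3,
      intervalIntegral.integral_add (i0.add i1) i2, intervalIntegral.integral_add i0 i1,
      intervalIntegral.integral_const_mul, intervalIntegral.integral_const_mul,
      intervalIntegral.integral_const_mul, hk.m0, hk.m1, hk.m2]
    ring
  rw [hI]
  have hb := intervalIntegral.norm_integral_le_of_norm_le_const (a := (0 : ℝ)) (b := 1)
    (f := fun u => k u * R (e * u)) (C := K * C * |e| ^ 3) ?_
  · simpa using hb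
  · intro u hu
    rw [Set.uIoc_of_le zero_le_one] at hu
    rw [Real.norm_eq_abs, abs_mul]
    have hRb := taylor3 h1 h2 h3 hC s (e * u)
    have hR2 : |R (e * u)| ≤ C * |e| ^ 3 := by
      refine le_trans hRb ?_
      apply mul_le_mul_of_nonneg_left _ hC0
      apply pow_le_pow_left₀ (abs_nonneg _)
      rw [abs_mul, abs_of_pos hu.1]
      exact mul_le_of_le_one_right (abs_nonneg _) hu.2
    calc |k u| * |R (e * u)| ≤ K * (C * |e| ^ 3) :=
          mul_le_mul (hK u) hR2 (abs_nonneg _) hK0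
      _ = K * C * |e| ^ 3 := by ring

/-- substitution -/
lemma ker_subst {k : ℝ → ℝ} (hk : IsKer k) (F : ℝ → ℝ) {m : ℝ} (hm : 1 ≤ m) :
    ∫ t in (0 : ℝ)..1, m * k (m * t) * F t = ∫ u in (0 : ℝ)..1, k u * F (m⁻¹ * u) := by
  have hm0 : m ≠ 0 := by linarith
  have h := intervalIntegral.mul_integral_comp_mul_left (a := (0 : ℝ)) (b := 1)
    (f := fun u => k u * F (m⁻¹ * u)) m
  rw [mul_zero, mul_one] at h
  have h2 : ∫ t in (0 : ℝ)..1, m * k (m * t) * F t
      = m * ∫ t in (0 : ℝ)..1, k (m * t) * F (m⁻¹ * (m * t)) := by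
    rw [← intervalIntegral.integral_const_mul]
    congr 1
    ext t
    rw [← mul_assoc m⁻¹, inv_mul_cancel₀ hm0, one_mul]
    ring
  rw [h2, h]
  have hsup : ∀ x : ℝ, 1 ≤ x → Function.support (fun u => k u * F (m⁻¹ * u)) ⊆ Ioc 0 x := by
    intro x hx u hu
    by_contra hn
    apply hu
    have : k u = 0 := hk.supp u (fun h' => hn ⟨by linarith [h'.1], by linarith [h'.2]⟩)
    simp [this]
  rw [intervalIntegral.integral_eq_integral_of_support_subset (hsup m hm),
    intervalIntegral.integral_eq_integral_of_support_subset (hsup 1 le_rfl)]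

/-- the envelope `a` -/
noncomputable def aa (k : ℝ → ℝ) (m : ℝ) (x : ℝ) : ℝ := m * k (m * x) - m * k (m * (1 - x))

lemma aa_int {k : ℝ → ℝ} (hk : IsKer k) {F : ℝ → ℝ} (hF : Continuous F) {m : ℝ} (hm : 1 ≤ m) :
    ∫ t in (0 : ℝ)..1, aa k m t * F t
      = (∫ u in (0 : ℝ)..1, k u * F (m⁻¹ * u)) - ∫ u in (0 : ℝ)..1, k u * F (1 - m⁻¹ * u) := by
  have hkc : Continuous k := hk.smooth.continuous
  have e : ∀ t : ℝ, aa k m t * F t = m * k (m * t) * F t - m * k (m * (1 - t)) * F t := by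
    intro t; simp only [aa]; ring
  simp_rw [e]
  rw [intervalIntegral.integral_sub]
  · rw [ker_subst hk F hm]
    congr 1
    have h := intervalIntegral.integral_comp_sub_left (a := (0 : ℝ)) (b := 1)
      (fun s => m * k (m * s) * F (1 - s)) 1
    simp only [sub_sub_cancel, sub_self, sub_zero] at h
    rw [h, ker_subst hk (fun s => F (1 - s)) hm]
  · exact (by fun_prop : Continuous (fun t : ℝ => m * k (m * t) * F t)).intervalIntegrable _ _
  · exact (by fun_prop : Continuous (fun t : ℝ => m * k (m * (1 - t)) * F t)).intervalIntegrable _ _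

lemma cd_deriv {k : ℝ → ℝ} {n : ℕ} (h : ContDiff ℝ (n + 1 : ℕ) k) :
    (∀ x, HasDerivAt k (deriv k x) x) ∧ ContDiff ℝ n (deriv k) := by
  have h' : ContDiff ℝ ((n : WithTop ℕ∞) + 1) k := by exact_mod_cast h
  rw [contDiff_succ_iff_deriv] at h'
  exact ⟨fun x => (h'.1 x).hasDerivAt, h'.2.2⟩

end Kern

open Kern in
/-- existence of the envelopes, uniformly in the concentration parameter `m` -/
theorem kernel_exists : ∃ M : ℝ, 0 < M ∧ ∃ b b1 b2 : ℝ → ℝ, Env b b1 b2 ∧
    (∀ x, x ∉ Set.Ioo (1 / 4 : ℝ) (7 / 4) → b x = 0) ∧ (∀ x, |b x| ≤ M) ∧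
    ∀ m : ℕ, 8 ≤ m → ∃ a a1 a2 : ℝ → ℝ, Env a a1 a2 ∧
      (∀ x, x ∉ Set.Ioo ((8 * (m : ℝ))⁻¹) (1 - (8 * (m : ℝ))⁻¹) → a x = 0) ∧
      (∀ x, x ∈ Set.Icc ((m : ℝ)⁻¹) (1 - (m : ℝ)⁻¹) → a x = 0) ∧
      (∀ x, |a x| ≤ M * m) ∧ (∀ x, |a1 x| ≤ M * (m : ℝ) ^ 2) ∧
      (∫ t in (0 : ℝ)..1, a t * b t) = -1 ∧
      (∀ s, |Lam a b s| ≤ M * ((m : ℝ) ^ 3)⁻¹) := by
  obtain ⟨k, hk⟩ := exists_ker
  -- the kernel and its derivatives
  obtain ⟨hk1, hk1c⟩ := cd_deriv (k := k) (n := 1) (by exact_mod_cast hk.smooth)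
  obtain ⟨hk2, hk2c⟩ := cd_deriv (k := deriv k) (n := 0) (by exact_mod_cast hk1c)
  have hkcs : HasCompactSupport k :=
    HasCompactSupport.intro (isCompact_Icc (a := (0 : ℝ)) (b := 1)) (fun x hx => hk.supp x
      (fun h => hx ⟨by linarith [h.1], h.2.le⟩))
  obtain ⟨K, hK⟩ := hkcs.exists_bound_of_continuous hk.smooth.continuous
  obtain ⟨K1, hK1⟩ := hkcs.deriv.exists_bound_of_continuous hk1c.continuous
  simp only [Real.norm_eq_abs] at hK hK1
  have hK0 : 0 ≤ K := le_trans (abs_nonneg _) (hK 0)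
  have hK10 : 0 ≤ K1 := le_trans (abs_nonneg _) (hK1 0)
  -- the function b
  let bmp : ContDiffBump (1 : ℝ) := ⟨1 / 2, 3 / 4, by norm_num, by norm_num⟩
  let b : ℝ → ℝ := bmp
  have hbcd : ContDiff ℝ (2 + 1 : ℕ) b := bmp.contDiff
  obtain ⟨hb1, hb1c⟩ := cd_deriv (k := b) (n := 2) hbcd
  obtain ⟨hb2, hb2c⟩ := cd_deriv (k := deriv b) (n := 1) (by exact_mod_cast hb1c)
  obtain ⟨hb3, hb3c⟩ := cd_deriv (k := deriv (deriv b)) (n := 0) (by exact_mod_cast hb2c)
  have hbcs : HasCompactSupport b := bmp.hasCompactSupport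
  obtain ⟨C, hC⟩ := hbcs.deriv.deriv.deriv.exists_bound_of_continuous hb3c.continuous
  simp only [Real.norm_eq_abs] at hC
  have hC0 : 0 ≤ C := le_trans (abs_nonneg _) (hC 0)
  have hbs : ∀ x, x ∉ Set.Ioo (1 / 4 : ℝ) (7 / 4) → b x = 0 := by
    intro x hx
    apply bmp.zero_of_le_dist
    have hr : bmp.rOut = 3 / 4 := rfl
    rw [hr, Real.dist_eq]
    by_contra h
    push Not at h
    rw [abs_lt] at h
    exact hx ⟨by linarith [h.1], by linarith [h.2]⟩
  have hbone : ∀ x, x ∈ Set.Icc (1 / 2 : ℝ) 1 → b x = 1 := by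
    intro x hx
    apply bmp.one_of_mem_closedBall
    have hr : bmp.rIn = 1 / 2 := rfl
    rw [hr, Metric.mem_closedBall, Real.dist_eq, abs_le]
    exact ⟨by linarith [hx.1], by linarith [hx.2]⟩
  have hbb : ∀ x, |b x| ≤ 1 := by
    intro x
    rw [abs_of_nonneg bmp.nonneg]
    exact bmp.le_one
  refine ⟨1 + 2 * K + 2 * K1 + 2 * (K * C), by positivity, b, deriv b, deriv (deriv b),
    ⟨hb1, hb2, hb2c.continuous⟩, hbs, ?_, ?_⟩
  · intro x
    refine le_trans (hbb x) ?_
    have : 0 ≤ 2 * K + 2 * K1 + 2 * (K * C) := by positivity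
    linarith
  intro m hm
  have hmR : (8 : ℝ) ≤ m := by exact_mod_cast hm
  have hm0 : (0 : ℝ) < m := by linarith
  have hinv : (m : ℝ)⁻¹ ≤ 1 / 8 := by
    rw [inv_le_comm₀ hm0 (by norm_num)]
    norm_num
    exact hm
  have hinv0 : 0 < (m : ℝ)⁻¹ := inv_pos.mpr hm0
  refine ⟨aa k m, fun x => (m : ℝ) ^ 2 * deriv k (m * x) + (m : ℝ) ^ 2 * deriv k (m * (1 - x)),
    fun x => (m : ℝ) ^ 3 * deriv (deriv k) (m * x) - (m : ℝ) ^ 3 * deriv (deriv k) (m * (1 - x)),
    ⟨?_, ?_, ?_⟩, ?_, ?_, ?_, ?_, ?_, ?_⟩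
  · intro x
    have d1 : HasDerivAt (fun y : ℝ => (m : ℝ) * y) m x := by
      simpa using (hasDerivAt_id x).const_mul (m : ℝ)
    have d2 : HasDerivAt (fun y : ℝ => (m : ℝ) * (1 - y)) (-m) x := by
      simpa using ((hasDerivAt_id x).const_sub 1).const_mul (m : ℝ)
    have := (((hk1 (m * x)).comp x d1).const_mul (m : ℝ)).sub
      (((hk1 (m * (1 - x))).comp x d2).const_mul (m : ℝ))
    refine this.congr_deriv ?_
    ring
  · intro x
    have d1 : HasDerivAt (fun y : ℝ => (m : ℝ) * y) m x := by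
      simpa using (hasDerivAt_id x).const_mul (m : ℝ)
    have d2 : HasDerivAt (fun y : ℝ => (m : ℝ) * (1 - y)) (-m) x := by
      simpa using ((hasDerivAt_id x).const_sub 1).const_mul (m : ℝ)
    have := (((hk2 (m * x)).comp x d1).const_mul ((m : ℝ) ^ 2)).add
      (((hk2 (m * (1 - x))).comp x d2).const_mul ((m : ℝ) ^ 2))
    refine this.congr_deriv ?_
    ring
  · have := hk2c.continuous
    fun_prop
  · -- support
    intro x hx
    have h1 : k (m * x) = 0 := by
      apply hk.supp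
      intro h
      apply hx
      have h3 : (8 * (m : ℝ))⁻¹ < x := by
        rw [mul_inv, inv_eq_one_div (8 : ℝ)]
        rw [mul_comm, inv_mul_lt_iff₀ hm0]
        exact h.1
      have h4 : x < (m : ℝ)⁻¹ := by
        rw [lt_inv_comm₀ (by nlinarith [inv_pos.mpr (by positivity : (0 : ℝ) < 8 * m)]) hm0]
        have hx0 : 0 < x := lt_trans (inv_pos.mpr (by positivity)) h3
        rw [lt_inv_comm₀ hm0 hx0]
        rw [lt_inv_comm₀ hx0 hm0]
        rw [← mul_lt_mul_iff_of_pos_right hx0, inv_mul_cancel₀ hx0.ne']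
        exact h.2
      have h5 : (8 * (m : ℝ))⁻¹ ≤ 1 / 8 := by
        rw [mul_inv]
        have : (8 : ℝ)⁻¹ * (m : ℝ)⁻¹ ≤ (8 : ℝ)⁻¹ * (1 / 8) := by gcongr
        linarith
      exact ⟨h3, by linarith⟩
    have h2 : k (m * (1 - x)) = 0 := by
      apply hk.supp
      intro h
      apply hx
      have h3 : (8 * (m : ℝ))⁻¹ < 1 - x := by
        rw [mul_inv, inv_eq_one_div (8 : ℝ)]
        rw [mul_comm, inv_mul_lt_iff₀ hm0]
        exact h.1
      have hx0 : 0 < 1 - x := lt_trans (inv_pos.mpr (by positivity)) h3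
      have h4 : 1 - x < (m : ℝ)⁻¹ := by
        rw [lt_inv_comm₀ hx0 hm0]
        rw [← mul_lt_mul_iff_of_pos_right hx0, inv_mul_cancel₀ hx0.ne']
        exact h.2
      have h5 : (8 * (m : ℝ))⁻¹ ≤ 1 / 8 := by
        rw [mul_inv]
        have : (8 : ℝ)⁻¹ * (m : ℝ)⁻¹ ≤ (8 : ℝ)⁻¹ * (1 / 8) := by gcongr
        linarith
      exact ⟨by linarith, by linarith⟩
    simp [aa, h1, h2]
  · intro x hx
    have hh : ∀ y : ℝ, (m : ℝ)⁻¹ ≤ y → k (m * y) = 0 := by
      intro y hy
      apply hk.supp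
      intro h
      have : 1 ≤ (m : ℝ) * y := by
        calc (1 : ℝ) = m * (m : ℝ)⁻¹ := (mul_inv_cancel₀ hm0.ne').symm
          _ ≤ m * y := by gcongr
      linarith [h.2]
    have h1 := hh x hx.1
    have h2 := hh (1 - x) (by linarith [hx.2])
    simp [aa, h1, h2]
  · intro x
    have h1 := hK (m * x)
    have h2 := hK (m * (1 - x))
    calc |aa k m x| ≤ |(m : ℝ) * k (m * x)| + |(m : ℝ) * k (m * (1 - x))| := by
          unfold aa; exact abs_sub _ _
      _ = m * |k (m * x)| + m * |k (m * (1 - x))| := by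
          rw [abs_mul, abs_mul, abs_of_pos hm0]
      _ ≤ m * K + m * K := by gcongr
      _ = (2 * K) * m := by ring
      _ ≤ (1 + 2 * K + 2 * K1 + 2 * (K * C)) * m := by
          have : 0 ≤ 1 + 2 * K1 + 2 * (K * C) := by positivity
          apply mul_le_mul_of_nonneg_right _ hm0.le
          linarith
  · intro x
    have h1 := hK1 (m * x)
    have h2 := hK1 (m * (1 - x))
    have hmm : (0 : ℝ) < (m : ℝ) ^ 2 := by positivity
    calc |(m : ℝ) ^ 2 * deriv k (m * x) + (m : ℝ) ^ 2 * deriv k (m * (1 - x))|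
        ≤ |(m : ℝ) ^ 2 * deriv k (m * x)| + |(m : ℝ) ^ 2 * deriv k (m * (1 - x))| :=
          abs_add_le _ _
      _ = (m : ℝ) ^ 2 * |deriv k (m * x)| + (m : ℝ) ^ 2 * |deriv k (m * (1 - x))| := by
          rw [abs_mul, abs_mul, abs_of_pos hmm]
      _ ≤ (m : ℝ) ^ 2 * K1 + (m : ℝ) ^ 2 * K1 := by gcongr
      _ = (2 * K1) * (m : ℝ) ^ 2 := by ring
      _ ≤ (1 + 2 * K + 2 * K1 + 2 * (K * C)) * (m : ℝ) ^ 2 := by
          have : 0 ≤ 1 + 2 * K + 2 * (K * C) := by positivity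
          apply mul_le_mul_of_nonneg_right _ hmm.le
          linarith
  · rw [aa_int hk bmp.continuous (by linarith)]
    have z : ∫ u in (0 : ℝ)..1, k u * b ((m : ℝ)⁻¹ * u) = 0 := by
      rw [intervalIntegral.integral_congr (g := fun _ => (0 : ℝ))]
      · simp
      · intro u hu
        rw [Set.uIcc_of_le zero_le_one] at hu
        have : b ((m : ℝ)⁻¹ * u) = 0 := by
          apply hbs
          intro h
          have : (m : ℝ)⁻¹ * u ≤ 1 / 8 * 1 := mul_le_mul hinv hu.2 hu.1 (by norm_num)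
          linarith [h.1]
        simp [this]
    have o : ∫ u in (0 : ℝ)..1, k u * b (1 - (m : ℝ)⁻¹ * u) = 1 := by
      refine Eq.trans ?_ hk.m0
      apply intervalIntegral.integral_congr
      intro u hu
      rw [Set.uIcc_of_le zero_le_one] at hu
      have : b (1 - (m : ℝ)⁻¹ * u) = 1 := by
        apply hbone
        have h1 : (m : ℝ)⁻¹ * u ≤ 1 / 8 * 1 := mul_le_mul hinv hu.2 hu.1 (by norm_num)
        have h2 : 0 ≤ (m : ℝ)⁻¹ * u := mul_nonneg hinv0.le hu.1
        exact ⟨by linarith, by linarith⟩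
      simp [this]
    have z' : ∫ u in (0 : ℝ)..1, k u * bmp ((m : ℝ)⁻¹ * u) = 0 := z
    have o' : ∫ u in (0 : ℝ)..1, k u * bmp (1 - (m : ℝ)⁻¹ * u) = 1 := o
    rw [z', o']
    norm_num
  · intro s
    have hbc : Continuous b := bmp.continuous
    have hi := aa_int hk (F := fun t => b (s + t)) (by fun_prop) (m := (m : ℝ)) (by linarith)
    have e1 := ker_err hk hK hb1 hb2 hb3 hC s (m : ℝ)⁻¹
    have e2 := ker_err hk hK hb1 hb2 hb3 hC (s + 1) (-(m : ℝ)⁻¹)
    have ee : ∀ u : ℝ, s + (1 - (m : ℝ)⁻¹ * u) = s + 1 + -(m : ℝ)⁻¹ * u := by intro u; ring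
    simp only [ee] at hi
    rw [abs_neg] at e2
    rw [abs_of_pos hinv0, inv_pow] at e1 e2
    have hL : Lam (aa k m) b s
        = ((∫ u in (0 : ℝ)..1, k u * b (s + (m : ℝ)⁻¹ * u)) - b s)
          - ((∫ u in (0 : ℝ)..1, k u * b (s + 1 + -(m : ℝ)⁻¹ * u)) - b (s + 1)) := by
      unfold Lam
      rw [hi]
      ring
    rw [hL]
    have hm3 : 0 ≤ ((m : ℝ) ^ 3)⁻¹ := by positivity
    calc _ ≤ |(∫ u in (0 : ℝ)..1, k u * b (s + (m : ℝ)⁻¹ * u)) - b s|
          + |(∫ u in (0 : ℝ)..1, k u * b (s + 1 + -(m : ℝ)⁻¹ * u)) - b (s + 1)| := abs_sub _ _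
      _ ≤ K * C * ((m : ℝ) ^ 3)⁻¹ + K * C * ((m : ℝ) ^ 3)⁻¹ := add_le_add e1 e2
      _ = (2 * (K * C)) * ((m : ℝ) ^ 3)⁻¹ := by ring
      _ ≤ (1 + 2 * K + 2 * K1 + 2 * (K * C)) * ((m : ℝ) ^ 3)⁻¹ := by
          apply mul_le_mul_of_nonneg_right _ hm3
          have : 0 ≤ 1 + 2 * K + 2 * K1 := by positivity
          linarith

end Pool.Agent.Helper63.Common
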