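import Pool.Agent.Helper63.Common.Osc
import Pool.Agent.Helper63.Common.Kernel

set_option autoImplicit false
open MeasureTheory Set Filter Topology

namespace Pool.Agent.Helper63.Common

/-- indicator of a closed interval -/
noncomputable def chi (u v : ℝ) : ℝ → ℝ := (Set.Icc u v).indicator (fun _ => (1 : ℝ))

lemma chi_nonneg (u v c : ℝ) : 0 ≤ chi u v c := by
  unfold chi; exact Set.indicator_nonneg (fun _ _ => zero_le_one) c

lemma chi_one {u v c : ℝ} (h : c ∈ Set.Icc u v) : chi u v c = 1 := by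
  unfold chi; rw [Set.indicator_of_mem h]

lemma chi_int (u v p q : ℝ) : IntervalIntegrable (chi u v) volume p q := by
  have h : Integrable (chi u v) volume := by
    unfold chi
    rw [integrable_indicator_iff measurableSet_Icc]
    exact integrableOn_const (by simp)
  exact h.intervalIntegrable

lemma int_chi (u v p q : ℝ) (hpq : p ≤ q) (huv : u ≤ v) :
    ∫ c in p..q, chi u v c ≤ v - u := by
  rw [intervalIntegral.integral_of_le hpq]
  unfold chi
  rw [integral_indicator measurableSet_Icc]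
  rw [Measure.restrict_restrict measurableSet_Icc]
  have h1 : ∫ x in Set.Icc u v ∩ Set.Ioc p q, (1 : ℝ) ≤ ∫ x in Set.Icc u v, (1 : ℝ) := by
    apply setIntegral_mono_set
    · exact integrableOn_const (by simp)
    · exact Filter.Eventually.of_forall (fun _ => zero_le_one)
    · exact (Set.inter_subset_left).eventuallyLE
  refine h1.trans ?_
  simp [huv]

lemma Lam_smul (a b : ℝ → ℝ) (k s : ℝ) : Lam a (fun x => k * b x) s = k * Lam a b s := by
  unfold Lam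
  have : (fun t => a t * (k * b (s + t))) = fun t => k * (a t * b (s + t)) := by
    funext t; ring
  rw [this, intervalIntegral.integral_const_mul]
  ring

lemma Lam_zero {a b : ℝ → ℝ} (sb : ∀ x, x ∉ Set.Ioo (1 / 4 : ℝ) (7 / 4) → b x = 0) {s : ℝ}
    (hs : 2 ≤ s) : Lam a b s = 0 := by
  unfold Lam
  have h1 : b (s + 1) = 0 := sb _ (fun h => by have := h.2; linarith)
  have h2 : b s = 0 := sb _ (fun h => by have := h.2; linarith)
  have h3 : ∫ t in (0 : ℝ)..1, a t * b (s + t) = ∫ t in (0 : ℝ)..1, (0 : ℝ) := by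
    apply intervalIntegral.integral_congr
    intro t ht
    rw [Set.uIcc_of_le zero_le_one] at ht
    have : b (s + t) = 0 := sb _ (fun h => by have := h.2; have := ht.1; linarith)
    simp [this]
  rw [h1, h2, h3]
  simp

lemma env_lip {a a1 a2 : ℝ → ℝ} (h : Env a a1 a2) {C : ℝ} (hC : ∀ x, |a1 x| ≤ C) (x y : ℝ) :
    |a y - a x| ≤ C * |y - x| := by
  have := Convex.norm_image_sub_le_of_norm_hasDerivWithin_le (f := a) (f' := a1) (C := C)
    (s := Set.univ) (x := x) (y := y) (fun z _ => (h.d1 z).hasDerivWithinAt)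
    (fun z _ => by simpa using hC z) convex_univ (Set.mem_univ _) (Set.mem_univ _)
  simpa using this

lemma sq4 (p q r s : ℝ) : (p + q + r + s) ^ 2 ≤ 4 * (p ^ 2 + q ^ 2 + r ^ 2 + s ^ 2) := by
  nlinarith [sq_nonneg (p - q), sq_nonneg (p - r), sq_nonneg (p - s), sq_nonneg (q - r),
    sq_nonneg (q - s), sq_nonneg (r - s)]

/-- choice of parameters `N = m^2`, `b = K m^5 b0`, `K = 16 M^2 + 1`, `m` large -/
theorem params : ∃ N : ℕ, 32 ≤ N ∧ ∃ a a1 a2 b b1 b2 : ℝ → ℝ, Pair N a a1 a2 b b1 b2 ∧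
    (∫ c in (-(N : ℝ))..1, (dmaj N a b c) ^ 2)
      + (N : ℝ)⁻¹ ^ 2 * (∫ t in (0 : ℝ)..1, a t * b t) < 0 := by
  obtain ⟨M, hM, b0, b01, b02, eb, sb, hb, hker⟩ := kernel_exists
  set K : ℝ := 16 * M ^ 2 + 1 with hK
  have hKpos : 0 < K := by positivity
  obtain ⟨m0, hm0⟩ := exists_nat_gt (4 * (2 * M ^ 2 + 3 * (K * M) ^ 2 + 8 * M ^ 2 + 8 * (K * M) ^ 2))
  set m : ℕ := max m0 8 with hm
  have hm8 : 8 ≤ m := le_max_right _ _
  have hmC : 4 * (2 * M ^ 2 + 3 * (K * M) ^ 2 + 8 * M ^ 2 + 8 * (K * M) ^ 2) < (m : ℝ) :=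
    lt_of_lt_of_le hm0 (by exact_mod_cast le_max_left _ _)
  obtain ⟨a, a1, a2, ea, sa, sa0, ha, ha1, hab, hLam⟩ := hker m hm8
  set μ : ℝ := (m : ℝ) with hμ
  have hμ8 : (8 : ℝ) ≤ μ := by rw [hμ]; exact_mod_cast hm8
  have hμ0 : 0 < μ := by linarith
  have hN : ((m ^ 2 : ℕ) : ℝ) = μ ^ 2 := by push_cast; rfl
  refine ⟨m ^ 2, by nlinarith, a, a1, a2, fun x => K * μ ^ 5 * b0 x, fun x => K * μ ^ 5 * b01 x,
    fun x => K * μ ^ 5 * b02 x, ?_, ?_⟩
  · refine ⟨ea, ⟨fun x => (eb.d1 x).const_mul _, fun x => (eb.d2 x).const_mul _,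
      continuous_const.mul eb.c2⟩, ?_, ?_⟩
    · intro x hx
      apply sa
      intro h
      apply hx
      rw [hN]
      have h8 : (μ ^ 2)⁻¹ ≤ (8 * μ)⁻¹ := by
        apply inv_anti₀ (by positivity)
        nlinarith
      exact ⟨lt_of_le_of_lt h8 h.1, lt_of_lt_of_le h.2 (by linarith)⟩
    · intro x hx
      simp [sb x hx]
  · -- the integral of a b
    have hI : ∫ t in (0 : ℝ)..1, a t * (K * μ ^ 5 * b0 t) = - (K * μ ^ 5) := by
      have : (fun t => a t * (K * μ ^ 5 * b0 t)) = fun t => (K * μ ^ 5) * (a t * b0 t) := by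
        funext t; ring
      rw [this, intervalIntegral.integral_const_mul, hab]
      ring
    rw [hI]
    -- pointwise bounds
    have hNinv : ((m ^ 2 : ℕ) : ℝ)⁻¹ = (μ ^ 2)⁻¹ := by rw [hN]
    have key : ∀ c ∈ Set.Icc (-(μ ^ 2)) 1,
        (dmaj (m ^ 2) a (fun x => K * μ ^ 5 * b0 x) c) ^ 2
        ≤ 4 * (M ^ 2 * (chi (-(μ ^ 2)) (-(μ ^ 2 - μ - 1)) c + chi (-μ) 1 c)
          + (K * M) ^ 2 * chi (-2) 1 c + 4 * M ^ 2 * (μ ^ 2)⁻¹
          + 2 * (K * M) ^ 2 * μ ^ 2 * (chi 0 (2 * (μ ^ 2)⁻¹) c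
            + chi (-(μ ^ 2)) (-(μ ^ 2) + 2 * (μ ^ 2)⁻¹) c)) := by
      intro c hc
      unfold dmaj
      rw [hN]
      refine (sq4 _ _ _ _).trans ?_
      have P1 : (|a ((1 - c) / μ ^ 2) - a (-c / μ ^ 2)|) ^ 2
          ≤ M ^ 2 * (chi (-(μ ^ 2)) (-(μ ^ 2 - μ - 1)) c + chi (-μ) 1 c) := by
        have hlip : |a ((1 - c) / μ ^ 2) - a (-c / μ ^ 2)| ≤ M := by
          refine (env_lip ea ha1 _ _).trans ?_
          have : (1 - c) / μ ^ 2 - -c / μ ^ 2 = (μ ^ 2)⁻¹ := by field_simp; ring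
          rw [this, abs_of_pos (by positivity)]
          have : M * μ ^ 2 * (μ ^ 2)⁻¹ = M := by field_simp
          rw [this]
        have hsq : (|a ((1 - c) / μ ^ 2) - a (-c / μ ^ 2)|) ^ 2 ≤ M ^ 2 :=
          pow_le_pow_left₀ (abs_nonneg _) hlip 2
        by_cases h1 : c ≤ -(μ ^ 2 - μ - 1)
        · have e1 : chi (-(μ ^ 2)) (-(μ ^ 2 - μ - 1)) c = 1 := chi_one ⟨hc.1, h1⟩
          have e2 := chi_nonneg (-μ) 1 c
          nlinarith [sq_nonneg M, mul_nonneg (sq_nonneg M) e2]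
        by_cases h2 : -μ ≤ c
        · have e1 : chi (-μ) 1 c = 1 := chi_one ⟨h2, hc.2⟩
          have e2 := chi_nonneg (-(μ ^ 2)) (-(μ ^ 2 - μ - 1)) c
          nlinarith [sq_nonneg M, mul_nonneg (sq_nonneg M) e2]
        · push Not at h1 h2
          have z1 : a ((1 - c) / μ ^ 2) = 0 := by
            apply sa0
            constructor
            · rw [le_div_iff₀ (by positivity)]
              have : μ⁻¹ * μ ^ 2 = μ := by field_simp
              rw [this]; linarith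
            · rw [div_le_iff₀ (by positivity)]
              have : (1 - μ⁻¹) * μ ^ 2 = μ ^ 2 - μ := by field_simp
              rw [this]; linarith
          have z2 : a (-c / μ ^ 2) = 0 := by
            apply sa0
            constructor
            · rw [le_div_iff₀ (by positivity)]
              have : μ⁻¹ * μ ^ 2 = μ := by field_simp
              rw [this]; linarith
            · rw [div_le_iff₀ (by positivity)]
              have : (1 - μ⁻¹) * μ ^ 2 = μ ^ 2 - μ := by field_simp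
              rw [this]; linarith
          rw [z1, z2]
          have e1 := chi_nonneg (-(μ ^ 2)) (-(μ ^ 2 - μ - 1)) c
          have e2 := chi_nonneg (-μ) 1 c
          simp only [sub_self, abs_zero, ne_eq, OfNat.ofNat_ne_zero, not_false_eq_true, zero_pow]
          positivity
      have P2 : ((μ ^ 2)⁻¹ * |Lam a (fun x => K * μ ^ 5 * b0 x) (-c)|) ^ 2
          ≤ (K * M) ^ 2 * chi (-2) 1 c := by
        rw [Lam_smul]
        by_cases h1 : -2 ≤ c
        · rw [chi_one ⟨h1, hc.2⟩, mul_one]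
          apply pow_le_pow_left₀ (by positivity)
          rw [abs_mul, abs_of_pos (by positivity : 0 < K * μ ^ 5)]
          calc (μ ^ 2)⁻¹ * (K * μ ^ 5 * |Lam a b0 (-c)|)
              ≤ (μ ^ 2)⁻¹ * (K * μ ^ 5 * (M * (μ ^ 3)⁻¹)) := by
                gcongr
                exact hLam _
            _ = K * M := by field_simp
        · push Not at h1
          rw [Lam_zero sb (by linarith : (2 : ℝ) ≤ -c)]
          have := chi_nonneg (-2) 1 c
          simp only [mul_zero, abs_zero, ne_eq, OfNat.ofNat_ne_zero, not_false_eq_true, zero_pow]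
          positivity
      have P3 : ((μ ^ 2)⁻¹ * (|a (c + μ ^ 2)| + |a c|)) ^ 2 ≤ 4 * M ^ 2 * (μ ^ 2)⁻¹ := by
        have h1 : (μ ^ 2)⁻¹ * (|a (c + μ ^ 2)| + |a c|) ≤ 2 * M * μ⁻¹ := by
          calc (μ ^ 2)⁻¹ * (|a (c + μ ^ 2)| + |a c|) ≤ (μ ^ 2)⁻¹ * (M * μ + M * μ) := by
                gcongr
                · exact ha _
                · exact ha _
            _ = 2 * M * μ⁻¹ := by field_simp; ring
        refine (pow_le_pow_left₀ (by positivity) h1 2).trans (le_of_eq ?_)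
        field_simp
        ring
      have hbb : ∀ x u v : ℝ, (x ∈ Set.Ioo (1 / 4 : ℝ) (7 / 4) → c ∈ Set.Icc u v) →
          |K * μ ^ 5 * b0 x| ^ 2 ≤ (K * μ ^ 5 * M) ^ 2 * chi u v c := by
        intro x u v hx
        by_cases h : x ∈ Set.Ioo (1 / 4 : ℝ) (7 / 4)
        · rw [chi_one (hx h), mul_one]
          apply pow_le_pow_left₀ (abs_nonneg _)
          rw [abs_mul, abs_of_pos (by positivity : 0 < K * μ ^ 5)]
          gcongr
          exact hb _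
        · rw [sb x h]
          have := chi_nonneg u v c
          simp only [mul_zero, abs_zero, ne_eq, OfNat.ofNat_ne_zero, not_false_eq_true, zero_pow]
          positivity
      have P4 : ((μ ^ 2)⁻¹ ^ 2 * (|K * μ ^ 5 * b0 (μ ^ 2 * (c + μ ^ 2))|
            + |K * μ ^ 5 * b0 (μ ^ 2 * c)|)) ^ 2
          ≤ 2 * (K * M) ^ 2 * μ ^ 2 * (chi 0 (2 * (μ ^ 2)⁻¹) c
            + chi (-(μ ^ 2)) (-(μ ^ 2) + 2 * (μ ^ 2)⁻¹) c) := by
        have q1 := hbb (μ ^ 2 * c) 0 (2 * (μ ^ 2)⁻¹) (by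
          rintro ⟨g1, g2⟩
          constructor
          · by_contra hcon
            push Not at hcon
            linarith [mul_neg_of_pos_of_neg (by positivity : 0 < μ ^ 2) hcon]
          · rw [← div_eq_mul_inv, le_div_iff₀ (by positivity), mul_comm]
            linarith)
        have q2 := hbb (μ ^ 2 * (c + μ ^ 2)) (-(μ ^ 2)) (-(μ ^ 2) + 2 * (μ ^ 2)⁻¹) (by
          rintro ⟨g1, g2⟩
          constructor
          · exact hc.1
          · have : c + μ ^ 2 ≤ 2 * (μ ^ 2)⁻¹ := by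
              rw [← div_eq_mul_inv, le_div_iff₀ (by positivity), mul_comm]
              linarith
            linarith)
        have hs : ∀ p q : ℝ, (p + q) ^ 2 ≤ 2 * (p ^ 2 + q ^ 2) := by
          intro p q; nlinarith [sq_nonneg (p - q)]
        calc ((μ ^ 2)⁻¹ ^ 2 * (|K * μ ^ 5 * b0 (μ ^ 2 * (c + μ ^ 2))|
            + |K * μ ^ 5 * b0 (μ ^ 2 * c)|)) ^ 2
            = ((μ ^ 2)⁻¹ ^ 2) ^ 2 * (|K * μ ^ 5 * b0 (μ ^ 2 * (c + μ ^ 2))|
            + |K * μ ^ 5 * b0 (μ ^ 2 * c)|) ^ 2 := by ring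
          _ ≤ ((μ ^ 2)⁻¹ ^ 2) ^ 2 * (2 * (|K * μ ^ 5 * b0 (μ ^ 2 * (c + μ ^ 2))| ^ 2
            + |K * μ ^ 5 * b0 (μ ^ 2 * c)| ^ 2)) := by
              gcongr
              exact hs _ _
          _ ≤ ((μ ^ 2)⁻¹ ^ 2) ^ 2 * (2 * ((K * μ ^ 5 * M) ^ 2
                * chi (-(μ ^ 2)) (-(μ ^ 2) + 2 * (μ ^ 2)⁻¹) c
            + (K * μ ^ 5 * M) ^ 2 * chi 0 (2 * (μ ^ 2)⁻¹) c)) := by
              gcongr
          _ = 2 * (K * M) ^ 2 * μ ^ 2 * (chi 0 (2 * (μ ^ 2)⁻¹) c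
            + chi (-(μ ^ 2)) (-(μ ^ 2) + 2 * (μ ^ 2)⁻¹) c) := by
              field_simp
              ring
      linarith
    -- integrate
    have hle : -(((m ^ 2 : ℕ) : ℝ)) ≤ 1 := by rw [hN]; nlinarith
    have hint : (∫ c in (-(((m ^ 2 : ℕ) : ℝ)))..1,
          (dmaj (m ^ 2) a (fun x => K * μ ^ 5 * b0 x) c) ^ 2)
        ≤ ∫ c in (-(((m ^ 2 : ℕ) : ℝ)))..1, 4 * (M ^ 2 * (chi (-(μ ^ 2)) (-(μ ^ 2 - μ - 1)) c + chi (-μ) 1 c)
          + (K * M) ^ 2 * chi (-2) 1 c + 4 * M ^ 2 * (μ ^ 2)⁻¹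
          + 2 * (K * M) ^ 2 * μ ^ 2 * (chi 0 (2 * (μ ^ 2)⁻¹) c
            + chi (-(μ ^ 2)) (-(μ ^ 2) + 2 * (μ ^ 2)⁻¹) c)) := by
      rw [intervalIntegral.integral_of_le hle, intervalIntegral.integral_of_le hle]
      apply integral_mono_of_nonneg
      · exact Filter.Eventually.of_forall (fun c => sq_nonneg _)
      · have : IntervalIntegrable (fun c => 4 * (M ^ 2 * (chi (-(μ ^ 2)) (-(μ ^ 2 - μ - 1)) c + chi (-μ) 1 c)
          + (K * M) ^ 2 * chi (-2) 1 c + 4 * M ^ 2 * (μ ^ 2)⁻¹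
          + 2 * (K * M) ^ 2 * μ ^ 2 * (chi 0 (2 * (μ ^ 2)⁻¹) c
            + chi (-(μ ^ 2)) (-(μ ^ 2) + 2 * (μ ^ 2)⁻¹) c))) volume (-(((m ^ 2 : ℕ) : ℝ))) 1 := by
          apply IntervalIntegrable.const_mul
          apply IntervalIntegrable.add
          · apply IntervalIntegrable.add
            · apply IntervalIntegrable.add
              · exact ((chi_int _ _ _ _).add (chi_int _ _ _ _)).const_mul _
              · exact (chi_int _ _ _ _).const_mul _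
            · exact intervalIntegrable_const
          · exact ((chi_int _ _ _ _).add (chi_int _ _ _ _)).const_mul _
        exact this.1
      · rw [Filter.EventuallyLE, ae_restrict_iff' measurableSet_Ioc]
        refine Filter.Eventually.of_forall (fun c hc => ?_)
        apply key
        rw [hN] at hc
        exact ⟨hc.1.le, hc.2⟩
    have hval : (∫ c in (-(((m ^ 2 : ℕ) : ℝ)))..1, 4 * (M ^ 2 * (chi (-(μ ^ 2)) (-(μ ^ 2 - μ - 1)) c + chi (-μ) 1 c)
          + (K * M) ^ 2 * chi (-2) 1 c + 4 * M ^ 2 * (μ ^ 2)⁻¹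
          + 2 * (K * M) ^ 2 * μ ^ 2 * (chi 0 (2 * (μ ^ 2)⁻¹) c
            + chi (-(μ ^ 2)) (-(μ ^ 2) + 2 * (μ ^ 2)⁻¹) c)))
        ≤ 4 * (M ^ 2 * ((μ + 1) + (μ + 1)) + (K * M) ^ 2 * 3 + 4 * M ^ 2 * (μ ^ 2)⁻¹ * (μ ^ 2 + 1)
          + 2 * (K * M) ^ 2 * μ ^ 2 * (2 * (μ ^ 2)⁻¹ + 2 * (μ ^ 2)⁻¹)) := by
      rw [intervalIntegral.integral_const_mul]
      rw [intervalIntegral.integral_add (((((chi_int _ _ _ _).add (chi_int _ _ _ _)).const_mul _).add
        ((chi_int _ _ _ _).const_mul _)).add intervalIntegrable_const)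
        (((chi_int _ _ _ _).add (chi_int _ _ _ _)).const_mul _)]
      rw [intervalIntegral.integral_add ((((chi_int _ _ _ _).add (chi_int _ _ _ _)).const_mul _).add
        ((chi_int _ _ _ _).const_mul _)) intervalIntegrable_const]
      rw [intervalIntegral.integral_add (((chi_int _ _ _ _).add (chi_int _ _ _ _)).const_mul _)
        ((chi_int _ _ _ _).const_mul _)]
      rw [intervalIntegral.integral_const, intervalIntegral.integral_const_mul,
        intervalIntegral.integral_const_mul, intervalIntegral.integral_const_mul]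
      rw [intervalIntegral.integral_add (chi_int _ _ _ _) (chi_int _ _ _ _)]
      rw [intervalIntegral.integral_add (chi_int _ _ _ _) (chi_int _ _ _ _)]
      have i1 := int_chi (-(μ ^ 2)) (-(μ ^ 2 - μ - 1)) (-(((m ^ 2 : ℕ) : ℝ))) 1 hle (by linarith)
      have i2 := int_chi (-μ) 1 (-(((m ^ 2 : ℕ) : ℝ))) 1 hle (by linarith)
      have i3 := int_chi (-2) 1 (-(((m ^ 2 : ℕ) : ℝ))) 1 hle (by norm_num)
      have i4 := int_chi 0 (2 * (μ ^ 2)⁻¹) (-(((m ^ 2 : ℕ) : ℝ))) 1 hle (by positivity)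
      have i5 := int_chi (-(μ ^ 2)) (-(μ ^ 2) + 2 * (μ ^ 2)⁻¹) (-(((m ^ 2 : ℕ) : ℝ))) 1 hle
        (by have : 0 < 2 * (μ ^ 2)⁻¹ := by positivity
            linarith)
      have e1 : (1 - -(((m ^ 2 : ℕ) : ℝ))) • (4 * M ^ 2 * (μ ^ 2)⁻¹)
          = 4 * M ^ 2 * (μ ^ 2)⁻¹ * (μ ^ 2 + 1) := by
        rw [hN, smul_eq_mul]; ring
      rw [e1]
      have j1 : (∫ c in (-(((m ^ 2 : ℕ) : ℝ)))..1, chi (-(μ ^ 2)) (-(μ ^ 2 - μ - 1)) c)
          + (∫ c in (-(((m ^ 2 : ℕ) : ℝ)))..1, chi (-μ) 1 c) ≤ (μ + 1) + (μ + 1) := by linarith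
      have j2 : (∫ c in (-(((m ^ 2 : ℕ) : ℝ)))..1, chi (-2) 1 c) ≤ 3 := by linarith
      have j3 : (∫ c in (-(((m ^ 2 : ℕ) : ℝ)))..1, chi 0 (2 * (μ ^ 2)⁻¹) c)
          + (∫ c in (-(((m ^ 2 : ℕ) : ℝ)))..1, chi (-(μ ^ 2)) (-(μ ^ 2) + 2 * (μ ^ 2)⁻¹) c)
          ≤ 2 * (μ ^ 2)⁻¹ + 2 * (μ ^ 2)⁻¹ := by linarith
      gcongr
    have hfin : 4 * (M ^ 2 * ((μ + 1) + (μ + 1)) + (K * M) ^ 2 * 3 + 4 * M ^ 2 * (μ ^ 2)⁻¹ * (μ ^ 2 + 1)
          + 2 * (K * M) ^ 2 * μ ^ 2 * (2 * (μ ^ 2)⁻¹ + 2 * (μ ^ 2)⁻¹))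
          ≤ 8 * M ^ 2 * μ + 4 * (2 * M ^ 2 + 3 * (K * M) ^ 2 + 8 * M ^ 2 + 8 * (K * M) ^ 2) := by
      have e1 : 2 * (K * M) ^ 2 * μ ^ 2 * (2 * (μ ^ 2)⁻¹ + 2 * (μ ^ 2)⁻¹) = 8 * (K * M) ^ 2 := by
        field_simp; ring
      have e2 : 4 * M ^ 2 * (μ ^ 2)⁻¹ * (μ ^ 2 + 1) ≤ 8 * M ^ 2 := by
        have : 4 * M ^ 2 * (μ ^ 2)⁻¹ * (μ ^ 2 + 1) = 4 * M ^ 2 * (1 + (μ ^ 2)⁻¹) := by
          field_simp
        rw [this]
        have h1 : (μ ^ 2)⁻¹ ≤ 1 := inv_le_one_of_one_le₀ (by nlinarith)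
        nlinarith [sq_nonneg M]
      rw [e1]
      nlinarith
    have hlast : (((m ^ 2 : ℕ) : ℝ))⁻¹ ^ 2 * (-(K * μ ^ 5)) = -(K * μ) := by
      rw [hN]; field_simp
    rw [hlast]
    have : (16 * M ^ 2 + 1) * μ = 16 * M ^ 2 * μ + μ := by ring
    have hpos : 0 ≤ 8 * M ^ 2 * μ := by positivity
    calc _ ≤ 8 * M ^ 2 * μ + 4 * (2 * M ^ 2 + 3 * (K * M) ^ 2 + 8 * M ^ 2 + 8 * (K * M) ^ 2)
          + -(K * μ) := by linarith
      _ < 0 := by rw [hK] at *; nlinarith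

end Pool.Agent.Helper63.Common
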