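import Pool.Agent.Helper63.Common.Defs

set_option autoImplicit false
open Finset

namespace Pool.Agent.Helper63.Common

/-- weight of a colouring -/
noncomputable def wt {n r : ℕ} (p : Fin n → Fin r → ℝ) (c : Fin n → Fin r) : ℝ := ∏ x, p x (c x)

lemma sum_prod_fun {n r : ℕ} (q : Fin n → Fin r → ℝ) :
    ∑ c : Fin n → Fin r, ∏ x, q x (c x) = ∏ x, ∑ l, q x l := by
  rw [Finset.prod_univ_sum, Fintype.piFinset_univ]

lemma sum_wt {n r : ℕ} {p : Fin n → Fin r → ℝ} (h1 : ∀ x, ∑ j, p x j = 1) :
    ∑ c : Fin n → Fin r, wt p c = 1 := by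
  unfold wt
  rw [sum_prod_fun]
  simp [h1]

lemma wt_nonneg {n r : ℕ} {p : Fin n → Fin r → ℝ} (h0 : ∀ x j, 0 ≤ p x j) (c : Fin n → Fin r) :
    0 ≤ wt p c := Finset.prod_nonneg fun x _ => h0 x (c x)

/-- probability that an injective tuple has colour `j` -/
lemma sum_wt_color {n r : ℕ} {p : Fin n → Fin r → ℝ} (h1 : ∀ x, ∑ j, p x j = 1)
    (x : Fin 4 → Fin n) (hx : Function.Injective x) (j : Fin r) :
    ∑ c : Fin n → Fin r, (if ∀ i, c (x i) = j then wt p c else 0) = ∏ i, p (x i) j := by
  classical
  have h2 : ∀ c : Fin n → Fin r, (if ∀ i, c (x i) = j then wt p c else 0)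
      = ∏ y, (if y ∈ Finset.univ.image x then (if c y = j then p y j else 0) else p y (c y)) := by
    intro c
    split_ifs with h
    · unfold wt
      refine Finset.prod_congr rfl fun y _ => ?_
      split_ifs with hy hc
      · rw [hc]
      · exfalso
        obtain ⟨i, -, hi⟩ := Finset.mem_image.mp hy
        exact hc (hi ▸ h i)
      · rfl
    · push Not at h
      obtain ⟨i, hi⟩ := h
      symm
      apply Finset.prod_eq_zero (Finset.mem_univ (x i))
      rw [if_pos (Finset.mem_image_of_mem x (Finset.mem_univ i)), if_neg hi]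
  rw [Finset.sum_congr rfl fun c _ => h2 c,
    sum_prod_fun (fun y l => if y ∈ Finset.univ.image x then (if l = j then p y j else 0) else p y l)]
  have h3 : ∀ y : Fin n, ∑ l, (if y ∈ Finset.univ.image x then (if l = j then p y j else 0) else p y l)
      = if y ∈ Finset.univ.image x then p y j else 1 := by
    intro y
    split_ifs with hy
    · simp
    · exact h1 y
  rw [Finset.prod_congr rfl fun y _ => h3 y, Finset.prod_ite_mem, Finset.univ_inter,
    Finset.prod_image (fun a _ b _ hab => hx hab)]

/-- the number of degenerate solutions -/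
lemma degenerate_card (N n : ℕ) (hN : 0 < N) :
    (((sol N n).filter (fun x => ¬ Function.Injective x)).card : ℝ) ≤ 16 * (n : ℝ) ^ 2 := by
  classical
  have hcov : (sol N n).filter (fun x => ¬ Function.Injective x) ⊆
      ((sol N n).filter (fun x => x 0 = x 1)) ∪ ((sol N n).filter (fun x => x 2 = x 3)) ∪
      ((sol N n).filter (fun x => x 0 = x 2)) ∪ ((sol N n).filter (fun x => x 0 = x 3)) ∪
      ((sol N n).filter (fun x => x 1 = x 2)) ∪ ((sol N n).filter (fun x => x 1 = x 3)) := by
    intro x hx
    rw [Finset.mem_filter] at hx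
    obtain ⟨hx, hinj⟩ := hx
    simp only [Finset.mem_union, Finset.mem_filter]
    by_contra hcon
    apply hinj
    intro i j hij
    fin_cases i <;> fin_cases j <;> simp_all
  have hN' : (N : ℤ) ≠ 0 := by exact_mod_cast hN.ne'
  have key : ∀ (P : (Fin 4 → Fin n) → Prop) [DecidablePred P] (u v : Fin 4),
      (∀ x y, x ∈ sol N n → y ∈ sol N n → P x → P y → x u = y u → x v = y v → x = y) →
      ((sol N n).filter P).card ≤ n ^ 2 := by
    intro P _ u v hf
    calc ((sol N n).filter P).card ≤ (Finset.univ : Finset (Fin n × Fin n)).card := by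
          apply Finset.card_le_card_of_injOn (fun x => (x u, x v))
            (fun _ _ => Finset.mem_coe.mpr (Finset.mem_univ _))
          intro x hx y hy hxy
          simp only [Finset.coe_filter, Set.mem_ofPred_eq] at hx hy
          simp only [Prod.mk.injEq] at hxy
          exact hf x y hx.1 hy.1 hx.2 hy.2 hxy.1 hxy.2
      _ = n ^ 2 := by simp [sq]
  have ext4 : ∀ x y : Fin 4 → Fin n, ((x 0 : ℕ) : ℤ) = (y 0 : ℕ) → ((x 1 : ℕ) : ℤ) = (y 1 : ℕ) →
      ((x 2 : ℕ) : ℤ) = (y 2 : ℕ) → ((x 3 : ℕ) : ℤ) = (y 3 : ℕ) → x = y := by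
    intro x y e0 e1 e2 e3
    funext i
    fin_cases i
    · exact Fin.ext (by exact_mod_cast e0)
    · exact Fin.ext (by exact_mod_cast e1)
    · exact Fin.ext (by exact_mod_cast e2)
    · exact Fin.ext (by exact_mod_cast e3)
  have toZ : ∀ a b : Fin n, a = b → ((a : ℕ) : ℤ) = (b : ℕ) := by
    intro a b h; rw [h]
  have c1 : ((sol N n).filter (fun x => x 0 = x 1)).card ≤ n ^ 2 := by
    apply key _ 0 2
    intro x y hx hy px py e0 e2
    rw [mem_sol] at hx hy
    have a0 := toZ _ _ e0
    have a2 := toZ _ _ e2
    have px' := toZ _ _ px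
    have py' := toZ _ _ py
    have x3 : ((x 2 : ℕ) : ℤ) - ((x 3 : ℕ) : ℤ) = 0 := by
      have : (N : ℤ) * (((x 2 : ℕ) : ℤ) - ((x 3 : ℕ) : ℤ)) = 0 := by linarith
      exact (mul_eq_zero.mp this).resolve_left hN'
    have y3 : ((y 2 : ℕ) : ℤ) - ((y 3 : ℕ) : ℤ) = 0 := by
      have : (N : ℤ) * (((y 2 : ℕ) : ℤ) - ((y 3 : ℕ) : ℤ)) = 0 := by linarith
      exact (mul_eq_zero.mp this).resolve_left hN'
    exact ext4 x y a0 (by linarith) a2 (by linarith)
  have c2 : ((sol N n).filter (fun x => x 2 = x 3)).card ≤ n ^ 2 := by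
    apply key _ 0 2
    intro x y hx hy px py e0 e2
    rw [mem_sol] at hx hy
    have a0 := toZ _ _ e0
    have a2 := toZ _ _ e2
    have px' := toZ _ _ px
    have py' := toZ _ _ py
    rw [px'] at hx
    rw [py'] at hy
    exact ext4 x y a0 (by linarith) a2 (by linarith)
  have c3 : ((sol N n).filter (fun x => x 0 = x 2)).card ≤ n ^ 2 := by
    apply key _ 0 3
    intro x y hx hy px py e0 e3
    rw [mem_sol] at hx hy
    have a0 := toZ _ _ e0
    have a3 := toZ _ _ e3
    have px' := toZ _ _ px
    have py' := toZ _ _ py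
    rw [← px', a0, a3] at hx
    rw [← py'] at hy
    exact ext4 x y a0 (by linarith) (by linarith) a3
  have c4 : ((sol N n).filter (fun x => x 0 = x 3)).card ≤ n ^ 2 := by
    apply key _ 0 2
    intro x y hx hy px py e0 e2
    rw [mem_sol] at hx hy
    have a0 := toZ _ _ e0
    have a2 := toZ _ _ e2
    have px' := toZ _ _ px
    have py' := toZ _ _ py
    rw [← px', a0, a2] at hx
    rw [← py'] at hy
    exact ext4 x y a0 (by linarith) a2 (by linarith)
  have c5 : ((sol N n).filter (fun x => x 1 = x 2)).card ≤ n ^ 2 := by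
    apply key _ 1 3
    intro x y hx hy px py e1 e3
    rw [mem_sol] at hx hy
    have a1 := toZ _ _ e1
    have a3 := toZ _ _ e3
    have px' := toZ _ _ px
    have py' := toZ _ _ py
    rw [← px', a1, a3] at hx
    rw [← py'] at hy
    exact ext4 x y (by linarith) a1 (by linarith) a3
  have c6 : ((sol N n).filter (fun x => x 1 = x 3)).card ≤ n ^ 2 := by
    apply key _ 1 2
    intro x y hx hy px py e1 e2
    rw [mem_sol] at hx hy
    have a1 := toZ _ _ e1
    have a2 := toZ _ _ e2
    have px' := toZ _ _ px
    have py' := toZ _ _ py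
    rw [← px', a1, a2] at hx
    rw [← py'] at hy
    exact ext4 x y (by linarith) a1 a2 (by linarith)
  have hfin : ((sol N n).filter (fun x => ¬ Function.Injective x)).card ≤ 6 * n ^ 2 := by
    refine (Finset.card_le_card hcov).trans ?_
    refine (Finset.card_union_le _ _).trans ?_
    have u1 := Finset.card_union_le (((sol N n).filter (fun x => x 0 = x 1)) ∪
      ((sol N n).filter (fun x => x 2 = x 3)) ∪
      ((sol N n).filter (fun x => x 0 = x 2)) ∪ ((sol N n).filter (fun x => x 0 = x 3)))
      ((sol N n).filter (fun x => x 1 = x 2))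
    have u2 := Finset.card_union_le (((sol N n).filter (fun x => x 0 = x 1)) ∪
      ((sol N n).filter (fun x => x 2 = x 3)) ∪
      ((sol N n).filter (fun x => x 0 = x 2))) ((sol N n).filter (fun x => x 0 = x 3))
    have u3 := Finset.card_union_le (((sol N n).filter (fun x => x 0 = x 1)) ∪
      ((sol N n).filter (fun x => x 2 = x 3))) ((sol N n).filter (fun x => x 0 = x 2))
    have u4 := Finset.card_union_le ((sol N n).filter (fun x => x 0 = x 1))
      ((sol N n).filter (fun x => x 2 = x 3))
    omega
  have : (((sol N n).filter (fun x => ¬ Function.Injective x)).card : ℝ) ≤ 6 * (n : ℝ) ^ 2 := by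
    exact_mod_cast hfin
  nlinarith [sq_nonneg (n : ℝ)]

/-- random rounding of a fractional colouring -/
theorem rounding (N n r : ℕ) (hN : 0 < N) (p : Fin n → Fin r → ℝ)
    (h0 : ∀ x j, 0 ≤ p x j) (h1 : ∀ x, ∑ j, p x j = 1) :
    ∃ c : Fin n → Fin r,
      ((mono N n c).card : ℝ) ≤ ∑ j, T N n (fun x => p x j) + 16 * (n : ℝ) ^ 2 := by
  classical
  set A : ℝ := ∑ j, T N n (fun x => p x j) + 16 * (n : ℝ) ^ 2 with hA
  -- expectation bound
  have hE : ∑ c : Fin n → Fin r, wt p c * ((mono N n c).card : ℝ) ≤ A := by
    have hm : ∀ c : Fin n → Fin r, ((mono N n c).card : ℝ)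
        ≤ (∑ x ∈ (sol N n).filter Function.Injective,
            ∑ j, (if ∀ i, c (x i) = j then (1 : ℝ) else 0))
          + (((sol N n).filter (fun x => ¬ Function.Injective x)).card : ℝ) := by
      intro c
      have e1 : (mono N n c) ⊆ ((sol N n).filter Function.Injective).filter
          (fun x => ∀ i j : Fin 4, c (x i) = c (x j)) ∪
          (sol N n).filter (fun x => ¬ Function.Injective x) := by
        intro x hx
        unfold mono at hx
        rw [Finset.mem_filter] at hx
        have hx' : x ∈ sol N n := by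
          unfold sol
          rw [Finset.mem_filter]
          exact ⟨Finset.mem_univ _, hx.2.1⟩
        by_cases hi : Function.Injective x
        · exact Finset.mem_union_left _ (Finset.mem_filter.mpr
            ⟨Finset.mem_filter.mpr ⟨hx', hi⟩, hx.2.2⟩)
        · exact Finset.mem_union_right _ (Finset.mem_filter.mpr ⟨hx', hi⟩)
      have e2 := (Finset.card_le_card e1).trans (Finset.card_union_le _ _)
      have e3 : ((((sol N n).filter Function.Injective).filter
          (fun x => ∀ i j : Fin 4, c (x i) = c (x j))).card : ℝ)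
          ≤ ∑ x ∈ (sol N n).filter Function.Injective,
            ∑ j, (if ∀ i, c (x i) = j then (1 : ℝ) else 0) := by
        rw [Finset.card_filter]
        push_cast
        refine Finset.sum_le_sum fun x _ => ?_
        split_ifs with hx
        · have : (if ∀ i, c (x i) = c (x 0) then (1 : ℝ) else 0) = 1 := by
            rw [if_pos]
            intro i
            exact hx i 0
          refine this.symm.le.trans ?_
          exact Finset.single_le_sum
            (f := fun j => (if ∀ i, c (x i) = j then (1 : ℝ) else 0))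
            (fun j _ => by split_ifs <;> norm_num) (Finset.mem_univ (c (x 0)))
        · exact Finset.sum_nonneg fun j _ => by split_ifs <;> norm_num
      have e4 : ((mono N n c).card : ℝ) ≤ ((((sol N n).filter Function.Injective).filter
          (fun x => ∀ i j : Fin 4, c (x i) = c (x j))).card : ℝ)
          + (((sol N n).filter (fun x => ¬ Function.Injective x)).card : ℝ) := by
        exact_mod_cast e2
      linarith
    calc ∑ c : Fin n → Fin r, wt p c * ((mono N n c).card : ℝ)
        ≤ ∑ c : Fin n → Fin r, wt p c * ((∑ x ∈ (sol N n).filter Function.Injective,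
            ∑ j, (if ∀ i, c (x i) = j then (1 : ℝ) else 0))
          + (((sol N n).filter (fun x => ¬ Function.Injective x)).card : ℝ)) :=
          Finset.sum_le_sum fun c _ => mul_le_mul_of_nonneg_left (hm c) (wt_nonneg h0 c)
      _ = (∑ x ∈ (sol N n).filter Function.Injective, ∑ j,
            ∑ c : Fin n → Fin r, (if ∀ i, c (x i) = j then wt p c else 0))
          + (((sol N n).filter (fun x => ¬ Function.Injective x)).card : ℝ) := by
          simp_rw [mul_add]
          rw [Finset.sum_add_distrib, ← Finset.sum_mul, sum_wt h1, one_mul]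
          congr 1
          simp_rw [Finset.mul_sum]
          rw [Finset.sum_comm]
          refine Finset.sum_congr rfl fun x _ => ?_
          rw [Finset.sum_comm]
          refine Finset.sum_congr rfl fun j _ => Finset.sum_congr rfl fun c _ => ?_
          split_ifs <;> simp
      _ = (∑ x ∈ (sol N n).filter Function.Injective, ∑ j, ∏ i, p (x i) j)
          + (((sol N n).filter (fun x => ¬ Function.Injective x)).card : ℝ) := by
          congr 1
          refine Finset.sum_congr rfl fun x hx => Finset.sum_congr rfl fun j _ => ?_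
          exact sum_wt_color h1 x (Finset.mem_filter.mp hx).2 j
      _ ≤ (∑ x ∈ sol N n, ∑ j, ∏ i, p (x i) j) + 16 * (n : ℝ) ^ 2 := by
          refine add_le_add ?_ (degenerate_card N n hN)
          refine Finset.sum_le_sum_of_subset_of_nonneg (Finset.filter_subset _ _) ?_
          intro x _ _
          exact Finset.sum_nonneg fun j _ => Finset.prod_nonneg fun i _ => h0 _ _
      _ = A := by
          rw [hA, Finset.sum_comm]
          rfl
  by_contra hcon
  push Not at hcon
  have hlt : ∑ c : Fin n → Fin r, wt p c * A < ∑ c : Fin n → Fin r, wt p c * ((mono N n c).card : ℝ) := by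
    refine Finset.sum_lt_sum (fun c _ => mul_le_mul_of_nonneg_left (hcon c).le (wt_nonneg h0 c)) ?_
    by_contra hz
    push Not at hz
    have : ∀ c : Fin n → Fin r, wt p c = 0 := by
      intro c
      have h2 := hz c (Finset.mem_univ c)
      have h3 := hcon c
      have h4 := wt_nonneg h0 c
      by_contra hne
      have h5 : 0 < wt p c := lt_of_le_of_ne h4 (Ne.symm hne)
      have := mul_lt_mul_of_pos_left h3 h5
      linarith
    have h6 := sum_wt h1
    rw [Finset.sum_congr rfl fun c _ => this c] at h6
    simp at h6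
  rw [← Finset.sum_mul, sum_wt h1, one_mul] at hlt
  linarith

end Pool.Agent.Helper63.Common
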