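import Pool.Agent.Helper63.Common.Limit
import Pool.Agent.Helper63.Common.Rounding
import Pool.Agent.Helper63.Common.Expand

set_option autoImplicit false
open MeasureTheory Set Filter Topology

namespace Pool.Agent.Helper63.Common

/-- a sum over `Fin (s+1)` of two values -/
lemma tr_sum_ite (s : ℕ) (F : Fin (s + 1) → ℝ) (A C : ℝ) (h0 : F 0 = A)
    (h1 : ∀ j : Fin s, F j.succ = C) : ∑ j, F j = A + s * C := by
  rw [Fin.sum_univ_succ, h0, Finset.sum_congr rfl (fun j _ => h1 j)]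
  simp

/-- indicator of an affine function of `g`, where `g` vanishes off `(0,1)` -/
lemma tr_indicator (g : ℝ → ℝ) (sg : ∀ x, x ∉ Set.Ioo (0 : ℝ) 1 → g x = 0) (a t : ℝ) :
    Set.indicator (Set.Ioc 0 1) (fun y => a * (1 + t * g y))
      = fun x => a * (one x + t * g x) := by
  funext x
  by_cases hx : x ∈ Set.Ioc (0 : ℝ) 1
  · rw [Set.indicator_of_mem hx]
    have h1 : one x = 1 := by
      unfold one
      rw [Set.indicator_of_mem hx]
    rw [h1]
  · rw [Set.indicator_of_notMem hx]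
    have h1 : one x = 0 := by
      unfold one
      rw [Set.indicator_of_notMem hx]
    have h2 : g x = 0 := sg x (fun h => hx ⟨h.1, h.2.le⟩)
    rw [h1, h2]
    ring

/-- `16 n ^ 2 / n ^ 3` tends to zero -/
lemma tr_small : Tendsto (fun n : ℕ => 16 * (n : ℝ) ^ 2 / (n : ℝ) ^ 3) atTop (𝓝 0) := by
  have h : Tendsto (fun n : ℕ => 16 * ((n : ℝ))⁻¹) atTop (𝓝 (16 * 0)) :=
    (tendsto_inv_atTop_zero.comp tendsto_natCast_atTop_atTop).const_mul 16
  rw [mul_zero] at h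
  refine h.congr' ?_
  filter_upwards [eventually_gt_atTop 0] with n hn
  have hn' : (n : ℝ) ≠ 0 := by positivity
  field_simp

/-- a test function with negative remainder makes the equation uncommon for many colours -/
theorem uncommon_of_neg (N : ℕ) (hN : 0 < N) (g : ℝ → ℝ) (hg : Continuous g)
    (sg : ∀ x, x ∉ Set.Ioo (0 : ℝ) 1 → g x = 0) (bg : ∀ x, |g x| ≤ 1) (hR : Rfun N g < 0) :
    ∃ r : ℕ, 3 ≤ r ∧ ¬ ∀ ε : ℝ, 0 < ε → ∃ n0 : ℕ, ∀ n : ℕ, n0 ≤ n → ∀ c : Fin n → Fin r,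
      ((((r : ℝ) ^ 3)⁻¹ - ε) * ((sol N n).card : ℝ)) ≤ ((mono N n c).card : ℝ) := by
  obtain ⟨r, hr3, hlt⟩ := exists_r N hN g hg sg hR
  refine ⟨r, hr3, fun hall => ?_⟩
  obtain ⟨s, rfl⟩ : ∃ s, r = s + 1 := ⟨r - 1, by omega⟩
  have hs2 : (2 : ℝ) ≤ (s : ℝ) := by exact_mod_cast (by omega : 2 ≤ s)
  have hs0 : (0 : ℝ) < (s : ℝ) := by linarith
  have hr0 : (0 : ℝ) < ((s + 1 : ℕ) : ℝ) := by positivity
  have hrs : ((s + 1 : ℕ) : ℝ) - 1 = (s : ℝ) := by push_cast; ring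
  rw [hrs] at hlt
  set R : ℝ := ((s + 1 : ℕ) : ℝ) with hRdef
  have hRs : R = (s : ℝ) + 1 := by rw [hRdef]; push_cast; ring
  -- the two densities
  set H0 : ℝ → ℝ := fun y => R⁻¹ * (1 + 1 * g y) with hH0
  set H1 : ℝ → ℝ := fun y => R⁻¹ * (1 + (-(s : ℝ)⁻¹) * g y) with hH1
  have cH0 : Continuous H0 := by
    rw [hH0]; fun_prop
  have cH1 : Continuous H1 := by
    rw [hH1]; fun_prop
  have iH0 : Set.indicator (Set.Ioc 0 1) H0 = fun x => R⁻¹ * (one x + g x) := by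
    rw [hH0, tr_indicator g sg R⁻¹ 1]
    funext x
    ring
  have iH1 : Set.indicator (Set.Ioc 0 1) H1
      = fun x => R⁻¹ * (one x - (s : ℝ)⁻¹ * g x) := by
    rw [hH1, tr_indicator g sg R⁻¹ (-(s : ℝ)⁻¹)]
    funext x
    ring
  have t0 := tendsto_T N hN H0 cH0
  have t1 := tendsto_T N hN H1 cH1
  rw [iH0] at t0
  rw [iH1] at t1
  set P0 : ℝ := Phi N (fun x => R⁻¹ * (one x + g x)) with hP0
  set P1 : ℝ := Phi N (fun x => R⁻¹ * (one x - (s : ℝ)⁻¹ * g x)) with hP1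
  set P : ℝ := Phi N one with hP
  set M : ℝ := P0 + (s : ℝ) * P1 with hM
  have nH0 : ∀ y, 0 ≤ H0 y := by
    intro y
    have := abs_le.1 (bg y)
    rw [hH0]
    have h1 : 0 ≤ 1 + 1 * g y := by linarith [this.1]
    positivity
  have nH1 : ∀ y, 0 ≤ H1 y := by
    intro y
    have hb := abs_le.1 (bg y)
    rw [hH1]
    have hi : (s : ℝ)⁻¹ ≤ 1 := inv_le_one_of_one_le₀ (by linarith)
    have hi0 : 0 ≤ (s : ℝ)⁻¹ := by positivity
    have h1 : 0 ≤ 1 + (-(s : ℝ)⁻¹) * g y := by nlinarith [hb.1, hb.2]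
    positivity
  have sH : ∀ y, H0 y + (s : ℝ) * H1 y = 1 := by
    intro y
    rw [hH0, hH1]
    have : R ≠ 0 := by rw [hRs]; positivity
    simp only
    field_simp
    rw [hRs]
    ring
  -- the fractional colouring
  have key : ∀ n : ℕ, ∃ c : Fin n → Fin (s + 1),
      ((mono N n c).card : ℝ) ≤ T N n (fun x => H0 ((((x : ℕ) : ℝ) + 1) / n))
        + (s : ℝ) * T N n (fun x => H1 ((((x : ℕ) : ℝ) + 1) / n)) + 16 * (n : ℝ) ^ 2 := by
    intro n
    obtain ⟨c, hc⟩ := rounding N n (s + 1) hN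
      (fun x j => if j = 0 then H0 ((((x : ℕ) : ℝ) + 1) / n) else H1 ((((x : ℕ) : ℝ) + 1) / n))
      (fun x j => by
        by_cases hj : j = 0
        · simp only [hj, if_true]; exact nH0 _
        · simp only [hj, if_false]; exact nH1 _)
      (fun x => by
        rw [tr_sum_ite s _ (H0 ((((x : ℕ) : ℝ) + 1) / n)) (H1 ((((x : ℕ) : ℝ) + 1) / n))]
        · exact sH _
        · simp
        · intro j; simp [Fin.succ_ne_zero])
    refine ⟨c, hc.trans (le_of_eq ?_)⟩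
    congr 1
    apply tr_sum_ite
    · simp
    · intro j
      simp [Fin.succ_ne_zero]
  -- choice of epsilon
  have hd : 0 < (R ^ 3)⁻¹ * P - M := by rw [hM]; linarith
  set δ : ℝ := (R ^ 3)⁻¹ * P - M with hδ
  have hab : 0 < 2 * (|P| + 1) := by positivity
  set ε : ℝ := δ / (2 * (|P| + 1)) with hε
  have hε0 : 0 < ε := div_pos hd hab
  have hεP : ε * P < δ := by
    have h1 : ε * P ≤ ε * |P| := mul_le_mul_of_nonneg_left (le_abs_self P) hε0.le
    have h2 : ε * (2 * (|P| + 1)) = δ := by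
      rw [hε]; exact div_mul_cancel₀ δ hab.ne'
    have h3 : 0 ≤ ε * |P| := by positivity
    nlinarith
  obtain ⟨n0, hn0⟩ := hall ε hε0
  have tl : Tendsto (fun n : ℕ => ((R ^ 3)⁻¹ - ε) * (((sol N n).card : ℝ) / (n : ℝ) ^ 3)) atTop
      (𝓝 (((R ^ 3)⁻¹ - ε) * P)) := (tendsto_card N hN).const_mul _
  have tr : Tendsto (fun n : ℕ => T N n (fun x => H0 ((((x : ℕ) : ℝ) + 1) / n)) / (n : ℝ) ^ 3
        + (s : ℝ) * (T N n (fun x => H1 ((((x : ℕ) : ℝ) + 1) / n)) / (n : ℝ) ^ 3)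
        + 16 * (n : ℝ) ^ 2 / (n : ℝ) ^ 3) atTop (𝓝 (P0 + (s : ℝ) * P1 + 0)) :=
    (t0.add (t1.const_mul _)).add tr_small
  have hle : ((R ^ 3)⁻¹ - ε) * P ≤ P0 + (s : ℝ) * P1 + 0 := by
    refine le_of_tendsto_of_tendsto tl tr ?_
    filter_upwards [eventually_ge_atTop n0, eventually_gt_atTop 0] with n hn hnpos
    obtain ⟨c, hc⟩ := key n
    have h1 := (hn0 n hn c).trans hc
    have hn3 : (0 : ℝ) < (n : ℝ) ^ 3 := by positivity
    have h2 := div_le_div_of_nonneg_right h1 hn3.le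
    calc ((R ^ 3)⁻¹ - ε) * (((sol N n).card : ℝ) / (n : ℝ) ^ 3)
        = (((R ^ 3)⁻¹ - ε) * ((sol N n).card : ℝ)) / (n : ℝ) ^ 3 := by ring
      _ ≤ _ := h2
      _ = _ := by ring
  rw [hM] at hδ
  nlinarith

end Pool.Agent.Helper63.Common
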