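import Pool.Agent.Helper63.Common.TwoCommon
import Pool.Agent.Helper63.Common.Transfer
import Pool.Agent.Helper63.Common.NegG
import Pool.Agent.Helper63.Common.Params

set_option autoImplicit false

namespace Pool.Agent.Helper63.Common

theorem final :
    ∃ k : ℕ, ∃ a : Fin k → ℤ, (∀ i, a i ≠ 0) ∧ ∃ r s : ℕ, 3 ≤ r ∧ 2 ≤ s ∧ s < r ∧
      (¬ ∀ ε : ℝ, 0 < ε → ∃ N : ℕ, ∀ n : ℕ, N ≤ n → ∀ c : Fin n → Fin r,
          ((((r : ℝ) ^ (k - 1))⁻¹ - ε) *
              ((Finset.univ.filter (fun x : Fin k → Fin n =>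
                  ∑ i, a i * (((x i : ℕ) : ℤ) + 1) = 0)).card : ℝ))
            ≤ ((Finset.univ.filter (fun x : Fin k → Fin n =>
                  ∑ i, a i * (((x i : ℕ) : ℤ) + 1) = 0 ∧
                    ∀ i j : Fin k, c (x i) = c (x j))).card : ℝ)) ∧
      (∀ ε : ℝ, 0 < ε → ∃ N : ℕ, ∀ n : ℕ, N ≤ n → ∀ c : Fin n → Fin s,
          ((((s : ℝ) ^ (k - 1))⁻¹ - ε) *
              ((Finset.univ.filter (fun x : Fin k → Fin n =>
                  ∑ i, a i * (((x i : ℕ) : ℤ) + 1) = 0)).card : ℝ))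
            ≤ ((Finset.univ.filter (fun x : Fin k → Fin n =>
                  ∑ i, a i * (((x i : ℕ) : ℤ) + 1) = 0 ∧
                    ∀ i j : Fin k, c (x i) = c (x j))).card : ℝ)) := by
  obtain ⟨N, hN, a, a1, a2, b, b1, b2, hp, hneg⟩ := params
  obtain ⟨g, hgc, hgs, hgb, hgR⟩ := neg_of_pair N (by omega) hp hneg
  obtain ⟨r, hr3, hr⟩ := uncommon_of_neg N (by omega) g hgc hgs hgb hgR
  refine ⟨4, coef N, coef_ne_zero (by omega), r, 2, hr3, le_refl _, by omega, ?_, ?_⟩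
  · exact hr
  · exact two_common N hN

end Pool.Agent.Helper63.Common
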