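import Pool.Agent.Helper63.Common.Lattice

set_option autoImplicit false
open MeasureTheory Set Filter Topology

namespace Pool.Agent.Helper63.Common

namespace FubiniAux

/-- reduce an integral over `Fin 3 → ℝ` to one over `ℝ × (ℝ × ℝ)` -/
lemma integral_fin3 (F : (Fin 3 → ℝ) → ℝ) :
    ∫ z, F z = ∫ p : ℝ × (ℝ × ℝ), F ![p.1, p.2.1, p.2.2] := by
  have h1 := (volume_preserving_piFinSuccAbove (fun _ : Fin 3 => ℝ) 0).symm
  have h2 : MeasurePreserving (Prod.map (id : ℝ → ℝ) (MeasurableEquiv.finTwoArrow (α := ℝ)).symm)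
      (volume : Measure (ℝ × (ℝ × ℝ))) (volume : Measure (ℝ × (Fin 2 → ℝ))) :=
    (MeasurePreserving.id volume).prod (volume_preserving_finTwoArrow ℝ).symm
  have e1 := h1.integral_comp (MeasurableEquiv.measurableEmbedding _) F
  rw [← e1]
  let E : (ℝ × (ℝ × ℝ)) ≃ᵐ (ℝ × (Fin 2 → ℝ)) :=
    MeasurableEquiv.prodCongr (MeasurableEquiv.refl ℝ) (MeasurableEquiv.finTwoArrow (α := ℝ)).symm
  have h3 : MeasurePreserving E (volume : Measure (ℝ × (ℝ × ℝ)))
      (volume : Measure (ℝ × (Fin 2 → ℝ))) := h2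
  have e2 := h3.integral_comp (MeasurableEquiv.measurableEmbedding _)
    (fun q => F ((MeasurableEquiv.piFinSuccAbove (fun _ : Fin 3 => ℝ) 0).symm q))
  rw [← e2]
  apply integral_congr_ae
  filter_upwards with p
  congr 1
  ext i
  fin_cases i <;> rfl

end FubiniAux

open FubiniAux in
/-- Fubini: substitute `c = x0 - N x2 = x1 - N x3` -/
theorem fubini_reg (N : ℕ) (hN : 0 < N) (H : ℝ → ℝ) (hH : Continuous H) :
    (∫ z in reg N, H (z 0) * H (z 1) * H (z 2) * H (z 0 + N * (z 1 - z 2)))
      = Phi N (Set.indicator (Set.Ioc 0 1) H) := by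
  set h : ℝ → ℝ := Set.indicator (Set.Ioc 0 1) H with hh
  have hreg : MeasurableSet (reg N) := by
    unfold reg
    refine MeasurableSet.inter (s₁ := {z : Fin 3 → ℝ | ∀ i, z i ∈ Set.Ioc (0 : ℝ) 1})
      (s₂ := {z : Fin 3 → ℝ | z 0 + N * (z 1 - z 2) ∈ Set.Ioc (0 : ℝ) 1}) ?_ ?_
    · have : {z : Fin 3 → ℝ | ∀ i, z i ∈ Set.Ioc (0 : ℝ) 1}
          = ⋂ i, (fun z : Fin 3 → ℝ => z i) ⁻¹' Set.Ioc (0 : ℝ) 1 := by
        ext z; simp
      rw [this]
      exact MeasurableSet.iInter fun i => (measurable_pi_apply i) measurableSet_Ioc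
    · have : Measurable (fun z : Fin 3 → ℝ => z 0 + N * (z 1 - z 2)) := by fun_prop
      exact this measurableSet_Ioc
  have hmeas : Measurable h := hH.measurable.indicator measurableSet_Ioc
  -- bound
  obtain ⟨M, hM⟩ : ∃ M : ℝ, ∀ x, ‖h x‖ ≤ M := by
    obtain ⟨C, hC⟩ := (isCompact_Icc (a := (0 : ℝ)) (b := 1)).exists_bound_of_continuousOn
      hH.continuousOn
    refine ⟨max C 0, fun x => ?_⟩
    rw [hh]
    by_cases hx : x ∈ Set.Ioc (0 : ℝ) 1
    · rw [Set.indicator_of_mem hx]
      exact (hC x ⟨hx.1.le, hx.2⟩).trans (le_max_left _ _)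
    · rw [Set.indicator_of_notMem hx]; simp
  have hM0 : 0 ≤ M := (norm_nonneg _).trans (hM 0)
  have hint : Integrable h := by
    rw [hh, integrable_indicator_iff measurableSet_Ioc]
    exact (hH.continuousOn.integrableOn_Icc (a := 0) (b := 1)).mono_set Set.Ioc_subset_Icc_self
  -- step 1: whole space
  have s1 : (∫ z in reg N, H (z 0) * H (z 1) * H (z 2) * H (z 0 + N * (z 1 - z 2)))
      = ∫ z : Fin 3 → ℝ, h (z 0) * h (z 1) * h (z 2) * h (z 0 + N * (z 1 - z 2)) := by
    rw [← integral_indicator hreg]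
    apply integral_congr_ae
    filter_upwards with z
    by_cases hz : z ∈ reg N
    · rw [Set.indicator_of_mem hz, hh, Set.indicator_of_mem (hz.1 0), Set.indicator_of_mem (hz.1 1),
        Set.indicator_of_mem (hz.1 2), Set.indicator_of_mem hz.2]
    · rw [Set.indicator_of_notMem hz]
      by_contra hne
      apply hz
      have hne' := Ne.symm hne
      have h4 := right_ne_zero_of_mul hne'
      have h3' := left_ne_zero_of_mul hne'
      have h3 := right_ne_zero_of_mul h3'
      have h2' := left_ne_zero_of_mul h3'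
      have h2 := right_ne_zero_of_mul h2'
      have h1 := left_ne_zero_of_mul h2'
      rw [hh] at h1 h2 h3 h4
      refine ⟨?_, Set.mem_of_indicator_ne_zero h4⟩
      intro i
      fin_cases i
      · exact Set.mem_of_indicator_ne_zero h1
      · exact Set.mem_of_indicator_ne_zero h2
      · exact Set.mem_of_indicator_ne_zero h3
  rw [s1, integral_fin3]
  simp only [Matrix.cons_val_zero, Matrix.cons_val_one, Matrix.cons_val]
  -- step 2: Fubini
  have i1 : Integrable (fun p : ℝ × (ℝ × ℝ) =>
      h p.1 * h p.2.1 * h p.2.2 * h (p.1 + N * (p.2.1 - p.2.2))) := by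
    have j1 : Integrable (fun p : ℝ × (ℝ × ℝ) => h p.1 * (h p.2.1 * h p.2.2)) := by
      have := hint.mul_prod (hint.mul_prod hint)
      exact this
    have hm : Measurable (fun p : ℝ × (ℝ × ℝ) => h (p.1 + N * (p.2.1 - p.2.2))) :=
      hmeas.comp (by fun_prop)
    have j2 := j1.bdd_mul (c := M) hm.aestronglyMeasurable (Eventually.of_forall fun p => hM _)
    refine j2.congr (Eventually.of_forall fun p => ?_)
    simp only []
    ring
  have e3 := integral_prod_symm (μ := (volume : Measure ℝ)) (ν := (volume : Measure (ℝ × ℝ))) _ i1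
  rw [show (volume : Measure (ℝ × (ℝ × ℝ))) = (volume : Measure ℝ).prod (volume : Measure (ℝ × ℝ))
    from rfl, e3]
  simp only []
  -- step 3: translate
  have s3 : ∀ q : ℝ × ℝ, (∫ x, h x * h q.1 * h q.2 * h (x + N * (q.1 - q.2)))
      = ∫ c, h (c + N * q.2) * h q.1 * h q.2 * h (c + N * q.1) := by
    intro q
    rw [← integral_add_right_eq_self (fun x => h x * h q.1 * h q.2 * h (x + N * (q.1 - q.2)))
      ((N : ℝ) * q.2)]
    apply integral_congr_ae
    filter_upwards with c
    congr 2
    ring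
  simp_rw [s3]
  -- step 4: swap
  have i2 : Integrable (fun p : (ℝ × ℝ) × ℝ =>
      h (p.2 + N * p.1.2) * h p.1.1 * h p.1.2 * h (p.2 + N * p.1.1))
      ((volume : Measure (ℝ × ℝ)).prod (volume : Measure ℝ)) := by
    have k1 : Integrable (fun c : ℝ => Set.indicator (Set.Icc (-(N : ℝ)) 1) (fun _ => (1 : ℝ)) c) := by
      rw [integrable_indicator_iff measurableSet_Icc]
      exact continuous_const.integrableOn_Icc
    have j1 : Integrable (fun p : (ℝ × ℝ) × ℝ => (h p.1.1 * h p.1.2) *
        Set.indicator (Set.Icc (-(N : ℝ)) 1) (fun _ => (1 : ℝ)) p.2)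
        ((volume : Measure (ℝ × ℝ)).prod (volume : Measure ℝ)) :=
      (hint.mul_prod hint).mul_prod k1
    have hm : Measurable (fun p : (ℝ × ℝ) × ℝ => h (p.2 + N * p.1.2) * h (p.2 + N * p.1.1)) :=
      ((hmeas.comp (by fun_prop : Measurable fun p : (ℝ × ℝ) × ℝ => p.2 + N * p.1.2))).mul
        (hmeas.comp (by fun_prop : Measurable fun p : (ℝ × ℝ) × ℝ => p.2 + N * p.1.1))
    have j2 := j1.bdd_mul (c := M * M) hm.aestronglyMeasurable
      (Eventually.of_forall fun p => by
        rw [norm_mul]; exact mul_le_mul (hM _) (hM _) (norm_nonneg _) hM0)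
    refine j2.congr (Eventually.of_forall fun p => ?_)
    simp only []
    by_cases hp : p.2 ∈ Set.Icc (-(N : ℝ)) 1
    · rw [Set.indicator_of_mem hp]; ring
    · rw [Set.indicator_of_notMem hp]
      by_cases hp2 : p.1.2 ∈ Set.Ioc (0 : ℝ) 1
      · have : h (p.2 + N * p.1.2) = 0 := by
          rw [hh]
          apply Set.indicator_of_notMem
          intro hc
          apply hp
          have hNp : (0 : ℝ) < N := by exact_mod_cast hN
          constructor
          · have := hc.1
            nlinarith [hp2.2]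
          · have := hc.2
            nlinarith [hp2.1]
        rw [this]; ring
      · have : h p.1.2 = 0 := by rw [hh]; exact Set.indicator_of_notMem hp2 _
        rw [this]; ring
  rw [integral_integral_swap i2]
  -- step 5: square
  unfold Phi
  apply integral_congr_ae
  filter_upwards with c
  have e5 := integral_prod_mul (μ := (volume : Measure ℝ)) (ν := (volume : Measure ℝ))
    (fun y => h (c + N * y) * h y) (fun y => h (c + N * y) * h y)
  unfold B
  rw [sq, ← e5]
  apply integral_congr_ae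
  filter_upwards with q
  ring

end Pool.Agent.Helper63.Common
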