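import Pool.Agent.Helper63.Common.Defs

set_option autoImplicit false
open MeasureTheory Set Filter Topology
open scoped Pointwise

namespace Pool.Agent.Helper63.Common

/-- region of the parameters `(x1,x2,x3)` of solutions in `(0,1]^4` -/
def reg (N : ℕ) : Set (Fin 3 → ℝ) :=
  {z | (∀ i, z i ∈ Set.Ioc (0 : ℝ) 1) ∧ z 0 + N * (z 1 - z 2) ∈ Set.Ioc (0 : ℝ) 1}

lemma reg_convex (N : ℕ) : Convex ℝ (reg N) := by
  intro x hx y hy a b ha hb hab
  obtain ⟨hx1, hx2⟩ := hx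
  obtain ⟨hy1, hy2⟩ := hy
  have key : ∀ u v : ℝ, u ∈ Set.Ioc (0 : ℝ) 1 → v ∈ Set.Ioc (0 : ℝ) 1 →
      a * u + b * v ∈ Set.Ioc (0 : ℝ) 1 := by
    intro u v hu hv
    exact (convex_Ioc (0 : ℝ) 1) hu hv ha hb hab
  refine ⟨fun i => ?_, ?_⟩
  · simpa using key (x i) (y i) (hx1 i) (hy1 i)
  · have := key _ _ hx2 hy2
    simp only [Pi.add_apply, Pi.smul_apply, smul_eq_mul]
    convert this using 1
    ring

lemma reg_bounded (N : ℕ) : Bornology.IsBounded (reg N) := by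
  refine (Metric.isBounded_closedBall (x := (0 : Fin 3 → ℝ)) (r := 1)).subset ?_
  intro z hz
  rw [mem_closedBall_zero_iff, pi_norm_le_iff_of_nonneg zero_le_one]
  intro i
  have := hz.1 i
  rw [Real.norm_eq_abs, abs_le]
  exact ⟨by linarith [this.1], this.2⟩

lemma reg_measurable (N : ℕ) : MeasurableSet (reg N) := by
  unfold reg
  have h0 : MeasurableSet {z : Fin 3 → ℝ | ∀ i, z i ∈ Set.Ioc (0 : ℝ) 1} := by
    rw [Set.ofPred_forall]
    exact MeasurableSet.iInter fun i => (measurable_pi_apply i) (measurableSet_Ioc (a := (0 : ℝ)) (b := 1))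
  refine h0.inter ?_
  · have h : Measurable (fun z : Fin 3 → ℝ => z 0 + N * (z 1 - z 2)) := by fun_prop
    exact h measurableSet_Ioc

lemma mem_lat (n : ℕ) (hn : 0 < n) (z : Fin 3 → ℝ) :
    z ∈ (n : ℝ)⁻¹ • (Submodule.span ℤ (Set.range (Pi.basisFun ℝ (Fin 3))) : Set (Fin 3 → ℝ))
      ↔ ∀ i, ∃ m : ℤ, (m : ℝ) = n * z i := by
  have hn' : (n : ℝ) ≠ 0 := by positivity
  have : NeZero n := ⟨hn.ne'⟩
  have h := @BoxIntegral.unitPartition.mem_smul_span_iff (Fin 3) n _ _ z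
  rw [← SetLike.mem_coe, Submodule.coe_pointwise_smul] at h
  rw [h]
  simp

/-- parametrisation of the solutions by `(x1,x2,x3)` -/
noncomputable def par (n : ℕ) (x : Fin 4 → Fin n) : Fin 3 → ℝ :=
  ![(((x 1 : ℕ) : ℝ) + 1) / n, (((x 2 : ℕ) : ℝ) + 1) / n, (((x 3 : ℕ) : ℝ) + 1) / n]

lemma par_eq {N n : ℕ} (hn : 0 < n) {x : Fin 4 → Fin n} (hx : x ∈ sol N n) :
    par n x 0 + N * (par n x 1 - par n x 2) = (((x 0 : ℕ) : ℝ) + 1) / n := by
  have hn' : (n : ℝ) ≠ 0 := by positivity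
  rw [mem_sol] at hx
  have h : (((x 0 : ℕ) : ℝ)) - ((x 1 : ℕ) : ℝ) = N * (((x 2 : ℕ) : ℝ) - ((x 3 : ℕ) : ℝ)) := by
    exact_mod_cast hx
  simp only [par, Matrix.cons_val_zero, Matrix.cons_val_one, Matrix.cons_val]
  field_simp
  linarith

lemma unit_mem {n : ℕ} (a : Fin n) : (((a : ℕ) : ℝ) + 1) / n ∈ Set.Ioc (0 : ℝ) 1 := by
  have hn : 0 < n := a.pos
  have hn' : (0 : ℝ) < n := by exact_mod_cast hn
  refine ⟨by positivity, ?_⟩
  rw [div_le_one hn']
  exact_mod_cast a.isLt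

lemma unit_inj {n : ℕ} (a b : Fin n) (h : (((a : ℕ) : ℝ) + 1) / n = (((b : ℕ) : ℝ) + 1) / n) :
    a = b := by
  have hn : 0 < n := a.pos
  have hn' : (0 : ℝ) < n := by exact_mod_cast hn
  rw [div_left_inj' hn'.ne', add_left_inj] at h
  exact Fin.ext (by exact_mod_cast h)

lemma exists_fin {n : ℕ} (hn : 0 < n) {t : ℝ} (ht : t ∈ Set.Ioc (0 : ℝ) 1) {m : ℤ}
    (hm : (m : ℝ) = n * t) : ∃ a : Fin n, (((a : ℕ) : ℝ) + 1) / n = t ∧ ((a : ℕ) : ℤ) + 1 = m := by
  have hn' : (0 : ℝ) < n := by exact_mod_cast hn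
  have h1 : (0 : ℝ) < m := by rw [hm]; exact mul_pos hn' ht.1
  have h2 : (m : ℝ) ≤ n := by rw [hm]; nlinarith [ht.2]
  have h1' : 0 < m := by exact_mod_cast h1
  have h2' : m ≤ n := by exact_mod_cast h2
  have h3 : (m - 1).toNat < n := by omega
  have h4 : (((m - 1).toNat : ℕ) : ℤ) + 1 = m := by omega
  refine ⟨⟨(m - 1).toNat, h3⟩, ?_, h4⟩
  have h5 : ((((m - 1).toNat : ℕ) : ℝ)) + 1 = m := by exact_mod_cast h4
  rw [div_eq_iff hn'.ne']
  simp only
  rw [h5, hm]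
  ring

lemma par_mem {N n : ℕ} (hn : 0 < n) {x : Fin 4 → Fin n} (hx : x ∈ sol N n) :
    par n x ∈ reg N ∩ (n : ℝ)⁻¹ • (Submodule.span ℤ (Set.range (Pi.basisFun ℝ (Fin 3))) :
        Set (Fin 3 → ℝ)) := by
  have hn' : (n : ℝ) ≠ 0 := by positivity
  refine ⟨⟨?_, ?_⟩, ?_⟩
  · intro i
    fin_cases i
    · exact unit_mem (x 1)
    · exact unit_mem (x 2)
    · exact unit_mem (x 3)
  · rw [par_eq hn hx]
    exact unit_mem (x 0)
  · rw [mem_lat n hn]
    intro i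
    fin_cases i
    · exact ⟨((x 1 : ℕ) : ℤ) + 1, by simp [par]; field_simp⟩
    · exact ⟨((x 2 : ℕ) : ℤ) + 1, by simp [par]; field_simp⟩
    · exact ⟨((x 3 : ℕ) : ℤ) + 1, by simp [par]; field_simp⟩

/-- the parametrisation is a bijection onto the lattice points of the region -/
lemma par_bij (N n : ℕ) (hn : 0 < n) :
    Function.Bijective (fun x : ↥(sol N n) =>
      (⟨par n x.1, par_mem hn x.2⟩ : ↑(reg N ∩ (n : ℝ)⁻¹ •
        (Submodule.span ℤ (Set.range (Pi.basisFun ℝ (Fin 3))) : Set (Fin 3 → ℝ))))) := by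
  constructor
  · rintro ⟨x, hx⟩ ⟨y, hy⟩ h
    have h' : par n x = par n y := by simpa using h
    have h1 : x 1 = y 1 := unit_inj _ _ (by simpa [par] using congrFun h' 0)
    have h2 : x 2 = y 2 := unit_inj _ _ (by simpa [par] using congrFun h' 1)
    have h3 : x 3 = y 3 := unit_inj _ _ (by simpa [par] using congrFun h' 2)
    have h0 : x 0 = y 0 := by
      apply unit_inj
      rw [← par_eq hn hx, ← par_eq hn hy, h']
    apply Subtype.ext
    funext i
    fin_cases i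
    · exact h0
    · exact h1
    · exact h2
    · exact h3
  · rintro ⟨z, hz⟩
    obtain ⟨⟨hz1, hz2⟩, hz3⟩ := hz
    rw [mem_lat n hn] at hz3
    obtain ⟨m0, hm0⟩ := hz3 0
    obtain ⟨m1, hm1⟩ := hz3 1
    obtain ⟨m2, hm2⟩ := hz3 2
    obtain ⟨b0, hb0, hb0'⟩ := exists_fin hn (hz1 0) hm0
    obtain ⟨b1, hb1, hb1'⟩ := exists_fin hn (hz1 1) hm1
    obtain ⟨b2, hb2, hb2'⟩ := exists_fin hn (hz1 2) hm2
    obtain ⟨a, ha, ha'⟩ := exists_fin hn hz2 (m := m0 + N * (m1 - m2)) (by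
      push_cast
      rw [hm0, hm1, hm2]
      ring)
    refine ⟨⟨![a, b0, b1, b2], ?_⟩, ?_⟩
    · rw [mem_sol]
      simp only [Matrix.cons_val_zero, Matrix.cons_val_one, Matrix.cons_val]
      rw [← hb0', ← hb1', ← hb2'] at ha'
      linarith
    · apply Subtype.ext
      funext i
      fin_cases i
      · simpa [par] using hb0
      · simpa [par] using hb1
      · simpa [par] using hb2

/-- the discrete sum as a sum over lattice points of the region -/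
lemma tsum_eq_T (N n : ℕ) (hn : 0 < n) (H : ℝ → ℝ) :
    (∑' z : ↑(reg N ∩ (n : ℝ)⁻¹ • (Submodule.span ℤ (Set.range (Pi.basisFun ℝ (Fin 3))) :
        Set (Fin 3 → ℝ))), H (z.1 0) * H (z.1 1) * H (z.1 2) * H (z.1 0 + N * (z.1 1 - z.1 2)))
      = T N n (fun x => H ((((x : ℕ) : ℝ) + 1) / n)) := by
  rw [← (Equiv.ofBijective _ (par_bij N n hn)).tsum_eq, tsum_fintype]
  unfold T
  rw [← Finset.sum_coe_sort (sol N n)]
  refine Finset.sum_congr rfl fun x _ => ?_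
  rw [Fin.prod_univ_four]
  simp only [Equiv.ofBijective_apply]
  rw [par_eq hn x.2]
  simp only [par, Matrix.cons_val_zero, Matrix.cons_val_one, Matrix.cons_val]
  ring

/-- Riemann sums over the solutions (use Mathlib `tendsto_tsum_div_pow_atTop_integral`,
`Convex.addHaar_frontier`) -/
theorem lattice_limit (N : ℕ) (hN : 0 < N) (H : ℝ → ℝ) (hH : Continuous H) :
    Tendsto (fun n : ℕ => T N n (fun x => H ((((x : ℕ) : ℝ) + 1) / n)) / (n : ℝ) ^ 3) atTop
      (𝓝 (∫ z in reg N, H (z 0) * H (z 1) * H (z 2) * H (z 0 + N * (z 1 - z 2)))) := by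
  have hF : Continuous (fun z : Fin 3 → ℝ => H (z 0) * H (z 1) * H (z 2) * H (z 0 + N * (z 1 - z 2))) := by
    fun_prop
  have h := tendsto_tsum_div_pow_atTop_integral (reg N) _ hF (reg_bounded N) (reg_measurable N)
    ((reg_convex N).addHaar_frontier volume)
  refine h.congr' ?_
  filter_upwards [eventually_gt_atTop 0] with n hn
  rw [← tsum_eq_T N n hn H]
  simp

end Pool.Agent.Helper63.Common
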