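import Pool.Agent.Helper63.Common.Lattice
import Pool.Agent.Helper63.Common.Fubini

set_option autoImplicit false
open MeasureTheory Set Filter Topology

namespace Pool.Agent.Helper63.Common

theorem tendsto_T (N : ℕ) (hN : 0 < N) (H : ℝ → ℝ) (hH : Continuous H) :
    Tendsto (fun n : ℕ => T N n (fun x => H ((((x : ℕ) : ℝ) + 1) / n)) / (n : ℝ) ^ 3) atTop
      (𝓝 (Phi N (Set.indicator (Set.Ioc 0 1) H))) := by
  rw [← fubini_reg N hN H hH]
  exact lattice_limit N hN H hH

lemma T_one (N n : ℕ) : T N n (fun _ => 1) = (sol N n).card := by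
  simp [T]

theorem tendsto_card (N : ℕ) (hN : 0 < N) :
    Tendsto (fun n : ℕ => ((sol N n).card : ℝ) / (n : ℝ) ^ 3) atTop (𝓝 (Phi N one)) := by
  have h := tendsto_T N hN (fun _ => 1) continuous_const
  simp only [T_one] at h
  exact h

private lemma one_nonneg (x : ℝ) : 0 ≤ one x := by
  unfold one; exact Set.indicator_nonneg (fun _ _ => zero_le_one) x

private lemma one_le (x : ℝ) : one x ≤ 1 := by
  unfold one
  by_cases h : x ∈ Set.Ioc (0:ℝ) 1
  · rw [Set.indicator_of_mem h]
  · rw [Set.indicator_of_notMem h]; exact zero_le_one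

private lemma one_meas : Measurable one := by
  unfold one
  exact measurable_const.indicator measurableSet_Ioc

private lemma one_int : Integrable one := by
  unfold one
  rw [integrable_indicator_iff measurableSet_Ioc]
  exact integrableOn_const (by simp)

private lemma kern_meas (N : ℕ) :
    Measurable (Function.uncurry (fun c y : ℝ => one (c + N * y) * one y)) := by
  unfold Function.uncurry
  exact (one_meas.comp (by fun_prop)).mul (one_meas.comp measurable_snd)

private lemma kern_int (N : ℕ) (c : ℝ) : Integrable (fun y : ℝ => one (c + N * y) * one y) := by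
  refine one_int.mono' ?_ ?_
  · exact ((one_meas.comp (by fun_prop)).mul one_meas).aestronglyMeasurable
  · refine Filter.Eventually.of_forall (fun y => ?_)
    rw [Real.norm_eq_abs, abs_of_nonneg (mul_nonneg (one_nonneg _) (one_nonneg _))]
    have h1 := one_nonneg y
    have h2 := one_le (c + N * y)
    nlinarith

private lemma B_nonneg (N : ℕ) (c : ℝ) : 0 ≤ B N one one c :=
  integral_nonneg (fun _ => mul_nonneg (one_nonneg _) (one_nonneg _))

private lemma B_le (N : ℕ) (c : ℝ) : B N one one c ≤ ∫ y, one y := by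
  refine integral_mono (kern_int N c) one_int (fun y => ?_)
  have h1 := one_nonneg y
  have h2 := one_le (c + N * y)
  show one (c + N * y) * one y ≤ one y
  nlinarith

private lemma B_zero (N : ℕ) (c : ℝ) (hc : c ∉ Set.Icc (-(N:ℝ)) 1) : B N one one c = 0 := by
  unfold B
  have : ∀ y : ℝ, one (c + N * y) * one y = 0 := by
    intro y
    by_cases hy : y ∈ Set.Ioc (0:ℝ) 1
    · have h0 : one (c + N * y) = 0 := by
        unfold one
        apply Set.indicator_of_notMem
        intro hm
        apply hc
        have hN : (0:ℝ) ≤ N := Nat.cast_nonneg N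
        have h1 := hy.1
        have h2 := hy.2
        have h3 := hm.1
        have h4 := hm.2
        constructor
        · nlinarith
        · nlinarith [mul_nonneg hN h1.le]
      rw [h0, zero_mul]
    · have h0 : one y = 0 := by
        unfold one
        exact Set.indicator_of_notMem hy _
      rw [h0, mul_zero]
  simp [this]

private lemma B_ge (N : ℕ) (hN : 0 < N) (c : ℝ) (hc : c ∈ Set.Ioc (0:ℝ) (1/2)) :
    1 / (2 * (N:ℝ)) ≤ B N one one c := by
  have hN' : (0:ℝ) < N := Nat.cast_pos.mpr hN
  have hN1 : (1:ℝ) ≤ N := by exact_mod_cast hN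
  have hq : 0 < 1 / (2 * (N:ℝ)) := by positivity
  have hI : ∫ y, Set.indicator (Set.Ioc 0 (1 / (2 * (N:ℝ)))) (fun _ => (1:ℝ)) y
      = 1 / (2 * (N:ℝ)) := by
    rw [integral_indicator measurableSet_Ioc]
    simp
  rw [← hI]
  refine integral_mono ?_ (kern_int N c) (fun y => ?_)
  · rw [integrable_indicator_iff measurableSet_Ioc]
    exact integrableOn_const measure_Ioc_lt_top.ne
  · show Set.indicator (Set.Ioc 0 (1 / (2 * (N:ℝ)))) (fun _ => (1:ℝ)) y ≤ one (c + N * y) * one y
    by_cases hy : y ∈ Set.Ioc (0:ℝ) (1 / (2 * (N:ℝ)))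
    · rw [Set.indicator_of_mem hy]
      have h1 := hy.1
      have h2 := hy.2
      have h3 : (N:ℝ) * y ≤ 1/2 := by
        have : (N:ℝ) * y ≤ N * (1 / (2 * (N:ℝ))) := mul_le_mul_of_nonneg_left h2 hN'.le
        have h4 : (N:ℝ) * (1 / (2 * (N:ℝ))) = 1/2 := by field_simp
        linarith
      have h5 : y ≤ 1 := by
        have : y ≤ (N:ℝ) * y := by nlinarith
        linarith
      have e1 : one y = 1 := by
        unfold one
        exact Set.indicator_of_mem (show y ∈ Set.Ioc (0:ℝ) 1 from ⟨h1, h5⟩) _
      have e2 : one (c + N * y) = 1 := by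
        unfold one
        refine Set.indicator_of_mem (show c + N * y ∈ Set.Ioc (0:ℝ) 1 from ⟨?_, ?_⟩) _
        · have := hc.1
          have : 0 < (N:ℝ) * y := mul_pos hN' h1
          linarith [hc.1]
        · linarith [hc.2]
      rw [e1, e2]; norm_num
    · rw [Set.indicator_of_notMem hy]
      exact mul_nonneg (one_nonneg _) (one_nonneg _)

private lemma Bsq_int (N : ℕ) : Integrable (fun c : ℝ => (B N one one c) ^ 2) := by
  set M := ∫ y, one y with hM
  have hb : Integrable (Set.indicator (Set.Icc (-(N:ℝ)) 1) (fun _ => M ^ 2)) := by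
    rw [integrable_indicator_iff measurableSet_Icc]
    exact integrableOn_const (by simp)
  refine hb.mono' ?_ ?_
  · have h1 : StronglyMeasurable (fun c : ℝ => ∫ y, one (c + N * y) * one y) :=
      StronglyMeasurable.integral_prod_right (kern_meas N).stronglyMeasurable
    exact (h1.pow 2).aestronglyMeasurable
  · refine Filter.Eventually.of_forall (fun c => ?_)
    rw [Real.norm_eq_abs, abs_of_nonneg (sq_nonneg _)]
    by_cases hc : c ∈ Set.Icc (-(N:ℝ)) 1
    · rw [Set.indicator_of_mem hc]
      exact pow_le_pow_left₀ (B_nonneg N c) (B_le N c) 2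
    · rw [Set.indicator_of_notMem hc, B_zero N c hc]
      norm_num

/-- positivity of the continuous number of solutions: `B N one one` is continuous, nonnegative
and equals `1/N` at `c = 0` -/
theorem Phi_one_pos (N : ℕ) (hN : 0 < N) : 0 < Phi N one := by
  have hN' : (0:ℝ) < N := Nat.cast_pos.mpr hN
  have h1 : ∫ c in Set.Ioc (0:ℝ) (1/2), (B N one one c) ^ 2 ≤ ∫ c, (B N one one c) ^ 2 :=
    setIntegral_le_integral (Bsq_int N) (Filter.Eventually.of_forall (fun c => sq_nonneg _))
  have h2 : ∫ c in Set.Ioc (0:ℝ) (1/2), (1 / (2 * (N:ℝ))) ^ 2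
      ≤ ∫ c in Set.Ioc (0:ℝ) (1/2), (B N one one c) ^ 2 := by
    refine setIntegral_mono_on (integrableOn_const (by simp)) (Bsq_int N).integrableOn
      measurableSet_Ioc (fun c hc => ?_)
    exact pow_le_pow_left₀ (by positivity) (B_ge N hN c hc) 2
  have h3 : ∫ c in Set.Ioc (0:ℝ) (1/2), (1 / (2 * (N:ℝ))) ^ 2 = 1/2 * (1 / (2 * (N:ℝ))) ^ 2 := by
    simp
  have h4 : 0 < 1/2 * (1 / (2 * (N:ℝ))) ^ 2 := by positivity
  show 0 < ∫ c, (B N one one c) ^ 2
  linarith

end Pool.Agent.Helper63.Common
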