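import Pool.Agent.Helper63.Common.QGamma
set_option autoImplicit false
open MeasureTheory Set Filter Topology
namespace Pool.Agent.Helper63.Common

/-- the pair of envelopes: `a` lives in `(1/N, 1-1/N)`, `b` in `(1/4, 7/4)` -/
structure Pair (N : ℕ) (a a1 a2 b b1 b2 : ℝ → ℝ) : Prop where
  ea : Env a a1 a2
  eb : Env b b1 b2
  sa : ∀ x, x ∉ Set.Ioo ((N : ℝ)⁻¹) (1 - (N : ℝ)⁻¹) → a x = 0
  sb : ∀ x, x ∉ Set.Ioo (1 / 4 : ℝ) (7 / 4) → b x = 0

lemma s0_deriv (θ : ℝ) : HasDerivAt s0 (s1 θ) θ := by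
  unfold s0 s1
  have h : HasDerivAt (fun θ : ℝ => Real.sin (2 * Real.pi * θ) / (4 * Real.pi ^ 3))
      (Real.cos (2 * Real.pi * θ) * (2 * Real.pi) / (4 * Real.pi ^ 3)) θ := by
    have h1 : HasDerivAt (fun θ : ℝ => 2 * Real.pi * θ) (2 * Real.pi) θ := by
      simpa using (hasDerivAt_id θ).const_mul (2 * Real.pi)
    exact (h1.sin).div_const _
  convert h using 1
  have := Real.pi_pos.ne'
  field_simp
  ring

lemma s1_deriv (θ : ℝ) : HasDerivAt s1 (s2 θ) θ := by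
  unfold s1 s2
  have h : HasDerivAt (fun θ : ℝ => Real.cos (2 * Real.pi * θ) / (2 * Real.pi ^ 2))
      (-Real.sin (2 * Real.pi * θ) * (2 * Real.pi) / (2 * Real.pi ^ 2)) θ := by
    have h1 : HasDerivAt (fun θ : ℝ => 2 * Real.pi * θ) (2 * Real.pi) θ := by
      simpa using (hasDerivAt_id θ).const_mul (2 * Real.pi)
    exact (h1.cos).div_const _
  convert h using 1
  have := Real.pi_pos.ne'
  field_simp

lemma s0_cont : Continuous s0 := by unfold s0; fun_prop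
lemma s1_cont : Continuous s1 := by unfold s1; fun_prop
lemma s2_cont : Continuous s2 := by unfold s2; fun_prop

/-- a differentiable function vanishing off an open interval has a derivative vanishing off it -/
lemma deriv_zero_off {f f1 : ℝ → ℝ} (h : ∀ x, HasDerivAt f (f1 x) x) {u v : ℝ}
    (z : ∀ x, x ∉ Set.Ioo u v → f x = 0) : ∀ x, x ∉ Set.Ioo u v → f1 x = 0 := by
  intro x hx
  rw [Set.mem_Ioo, not_and_or, not_lt, not_lt] at hx
  rcases hx with hx | hx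
  · -- x ≤ u : derivative from the left
    have h1 : HasDerivWithinAt f (f1 x) (Set.Iic x) x := (h x).hasDerivWithinAt
    have h2 : HasDerivWithinAt f 0 (Set.Iic x) x := by
      have h3 : HasDerivWithinAt (fun _ : ℝ => (0 : ℝ)) 0 (Set.Iic x) x :=
        hasDerivWithinAt_const _ _ _
      refine h3.congr ?_ ?_
      · intro y hy
        exact z y (fun h' => absurd h'.1 (not_lt.mpr (le_trans hy hx)))
      · exact z x (fun h' => absurd h'.1 (not_lt.mpr hx))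
    exact (uniqueDiffWithinAt_Iic x).eq_deriv _ h1 h2
  · have h1 : HasDerivWithinAt f (f1 x) (Set.Ici x) x := (h x).hasDerivWithinAt
    have h2 : HasDerivWithinAt f 0 (Set.Ici x) x := by
      have h3 : HasDerivWithinAt (fun _ : ℝ => (0 : ℝ)) 0 (Set.Ici x) x :=
        hasDerivWithinAt_const _ _ _
      refine h3.congr ?_ ?_
      · intro y hy
        exact z y (fun h' => absurd h'.2 (not_lt.mpr (le_trans hx hy)))
      · exact z x (fun h' => absurd h'.2 (not_lt.mpr hx))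
    exact (uniqueDiffWithinAt_Ici x).eq_deriv _ h1 h2

/-- Riemann-Lebesgue with explicit constant -/
theorem rl {e e1 : ℝ → ℝ} (h1 : ∀ x, HasDerivAt e (e1 x) x) (c1 : Continuous e1)
    (se : ∀ x, x ∉ Set.Ioo (0 : ℝ) 1 → e x = 0) (M : ℝ) (hM : ∀ x, |e1 x| ≤ M)
    (nu phi : ℝ) (hnu : 0 < nu) :
    |∫ y in (0 : ℝ)..1, e y * Real.cos (2 * Real.pi * (nu * y + phi))| ≤ M / (2 * Real.pi * nu) := by
  have hpi := Real.pi_pos
  have hd : ∀ y : ℝ, HasDerivAt (fun y : ℝ => Real.sin (2 * Real.pi * (nu * y + phi)) / (2 * Real.pi * nu))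
      (Real.cos (2 * Real.pi * (nu * y + phi))) y := by
    intro y
    have h2 : HasDerivAt (fun y : ℝ => 2 * Real.pi * (nu * y + phi)) (2 * Real.pi * nu) y := by
      have := (((hasDerivAt_id y).const_mul nu).add_const phi).const_mul (2 * Real.pi)
      simpa using this
    have h3 := (h2.sin).div_const (2 * Real.pi * nu)
    rwa [mul_div_cancel_right₀ _ (by positivity)] at h3
  have hparts := intervalIntegral.integral_mul_deriv_eq_deriv_mul (a := 0) (b := 1)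
    (u := e) (u' := e1) (v := fun y : ℝ => Real.sin (2 * Real.pi * (nu * y + phi)) / (2 * Real.pi * nu))
    (v' := fun y => Real.cos (2 * Real.pi * (nu * y + phi)))
    (fun x _ => h1 x) (fun x _ => hd x) (c1.intervalIntegrable _ _)
    (by apply Continuous.intervalIntegrable; fun_prop)
  rw [hparts, se 0 (by simp), se 1 (by simp)]
  have hb : ‖∫ x in (0:ℝ)..1, e1 x * (Real.sin (2 * Real.pi * (nu * x + phi)) / (2 * Real.pi * nu))‖
      ≤ (M / (2 * Real.pi * nu)) * |(1:ℝ) - 0| := by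
    apply intervalIntegral.norm_integral_le_of_norm_le_const
    intro x _
    rw [Real.norm_eq_abs, abs_mul, abs_div, abs_of_pos (by positivity : (0:ℝ) < 2 * Real.pi * nu),
      mul_div_assoc']
    have hs := Real.abs_sin_le_one (2 * Real.pi * (nu * x + phi))
    have hx := hM x
    gcongr
    calc |e1 x| * |Real.sin (2 * Real.pi * (nu * x + phi))| ≤ M * 1 := by
          apply mul_le_mul hx hs (abs_nonneg _) (le_trans (abs_nonneg _) hx)
      _ = M := mul_one _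
  rw [Real.norm_eq_abs] at hb
  simpa using hb

lemma ss (α β : ℝ) : s2 α * s2 β
    = (2 * Real.pi ^ 2)⁻¹ * (Real.cos (2 * Real.pi * (α - β)) - Real.cos (2 * Real.pi * (α + β))) := by
  unfold s2
  rw [show 2 * Real.pi * (α - β) = 2 * Real.pi * α - 2 * Real.pi * β by ring,
    show 2 * Real.pi * (α + β) = 2 * Real.pi * α + 2 * Real.pi * β by ring,
    Real.cos_sub, Real.cos_add]
  have := Real.pi_pos.ne'
  field_simp
  ring

lemma nonres (N : ℕ) (hN : 1 ≤ N) {e e1 f f1 : ℝ → ℝ} (he : ∀ x, HasDerivAt e (e1 x) x)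
    (ce1 : Continuous e1) (hf : ∀ x, HasDerivAt f (f1 x) x) (cf1 : Continuous f1)
    (sf : ∀ x, x ∉ Set.Ioo (0 : ℝ) 1 → f x = 0) {K : ℝ} (be : ∀ x, |e x| ≤ K) (be1 : ∀ x, |e1 x| ≤ K)
    (bf : ∀ x, |f x| ≤ K) (bf1 : ∀ x, |f1 x| ≤ K) (c nu phi : ℝ) (hnu : 0 < nu) :
    |∫ y in (0 : ℝ)..1, (e (c + N * y) * f y) * Real.cos (2 * Real.pi * (nu * y + phi))|
      ≤ (2 * N * K ^ 2) / (2 * Real.pi * nu) := by
  have hK : 0 ≤ K := le_trans (abs_nonneg _) (be 0)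
  have hN' : (1 : ℝ) ≤ N := by exact_mod_cast hN
  refine rl (e := fun y => e (c + N * y) * f y)
    (e1 := fun y => (e1 (c + N * y) * N) * f y + e (c + N * y) * f1 y) ?_ ?_ ?_ _ ?_ nu phi hnu
  · intro x
    have h2 : HasDerivAt (fun y : ℝ => c + N * y) (N : ℝ) x := by
      simpa using ((hasDerivAt_id x).const_mul (N : ℝ)).const_add c
    exact ((he (c + N * x)).comp x h2).mul (hf x)
  · have hce : Continuous e := continuous_iff_continuousAt.2 fun x => (he x).continuousAt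
    have hcf : Continuous f := continuous_iff_continuousAt.2 fun x => (hf x).continuousAt
    fun_prop
  · intro x hx
    simp only [sf x hx, mul_zero]
  · intro x
    have h1 : |e1 (c + N * x) * N * f x| ≤ K * N * K := by
      rw [abs_mul, abs_mul, Nat.abs_cast]
      gcongr
      · exact be1 _
      · exact bf _
    have h2 : |e (c + N * x) * f1 x| ≤ K * K := by
      rw [abs_mul]
      gcongr
      · exact be _
      · exact bf1 _
    calc |e1 (c + N * x) * N * f x + e (c + N * x) * f1 x|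
        ≤ |e1 (c + N * x) * N * f x| + |e (c + N * x) * f1 x| := abs_add_le _ _
      _ ≤ K * N * K + K * K := add_le_add h1 h2
      _ ≤ 2 * N * K ^ 2 := by nlinarith [mul_nonneg hK hK, mul_le_mul_of_nonneg_right hN' (mul_nonneg hK hK)]

lemma split_prod (N : ℕ) {e f : ℝ → ℝ} (ce : Continuous e) (cf : Continuous f) (c p q : ℝ) :
    (∫ y in (0 : ℝ)..1, (e (c + N * y) * s2 (p * (c + N * y))) * (f y * s2 (q * y)))
      = (2 * Real.pi ^ 2)⁻¹ *
        ((∫ y in (0 : ℝ)..1, (e (c + N * y) * f y) * Real.cos (2 * Real.pi * ((p * N - q) * y + p * c)))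
        - ∫ y in (0 : ℝ)..1, (e (c + N * y) * f y) * Real.cos (2 * Real.pi * ((p * N + q) * y + p * c))) := by
  rw [← intervalIntegral.integral_sub, ← intervalIntegral.integral_const_mul]
  · apply intervalIntegral.integral_congr
    intro y _
    simp only
    have h := ss (p * (c + N * y)) (q * y)
    rw [show p * (c + N * y) - q * y = (p * N - q) * y + p * c by ring,
      show p * (c + N * y) + q * y = (p * N + q) * y + p * c by ring] at h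
    calc _ = (e (c + N * y) * f y) * (s2 (p * (c + N * y)) * s2 (q * y)) := by ring
      _ = _ := by rw [h]; ring
  · apply Continuous.intervalIntegrable; fun_prop
  · apply Continuous.intervalIntegrable; fun_prop


lemma Env.cont {a a1 a2 : ℝ → ℝ} (h : Env a a1 a2) : Continuous a :=
  continuous_iff_continuousAt.2 fun x => (h.d1 x).continuousAt

lemma Env.cont1 {a a1 a2 : ℝ → ℝ} (h : Env a a1 a2) : Continuous a1 :=
  continuous_iff_continuousAt.2 fun x => (h.d2 x).continuousAt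

lemma Env.z1 {a a1 a2 : ℝ → ℝ} (h : Env a a1 a2) {u v : ℝ}
    (z : ∀ x, x ∉ Set.Ioo u v → a x = 0) : ∀ x, x ∉ Set.Ioo u v → a1 x = 0 :=
  deriv_zero_off h.d1 z

lemma Env.z2 {a a1 a2 : ℝ → ℝ} (h : Env a a1 a2) {u v : ℝ}
    (z : ∀ x, x ∉ Set.Ioo u v → a x = 0) : ∀ x, x ∉ Set.Ioo u v → a2 x = 0 :=
  deriv_zero_off h.d2 (h.z1 z)

lemma bounded_of_zero_off {f : ℝ → ℝ} (hf : Continuous f) {u v : ℝ}
    (z : ∀ x, x ∉ Set.Ioo u v → f x = 0) : ∃ M : ℝ, 0 ≤ M ∧ ∀ x, |f x| ≤ M := by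
  obtain ⟨M, hM⟩ := (isCompact_Icc (a := u) (b := v)).exists_bound_of_continuousOn hf.continuousOn
  refine ⟨max M 0, le_max_right _ _, fun x => ?_⟩
  by_cases hx : x ∈ Set.Icc u v
  · exact le_trans (by simpa using hM x hx) (le_max_left _ _)
  · rw [z x (fun h' => hx ⟨h'.1.le, h'.2.le⟩)]
    simp

/-- a common bound for all six functions -/
lemma Pair.bound {N : ℕ} {a a1 a2 b b1 b2 : ℝ → ℝ} (h : Pair N a a1 a2 b b1 b2) :
    ∃ K : ℝ, 0 ≤ K ∧ (∀ x, |a x| ≤ K) ∧ (∀ x, |a1 x| ≤ K) ∧ (∀ x, |a2 x| ≤ K) ∧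
      (∀ x, |b x| ≤ K) ∧ (∀ x, |b1 x| ≤ K) ∧ (∀ x, |b2 x| ≤ K) := by
  obtain ⟨A0, hA0, ha0⟩ := bounded_of_zero_off h.ea.cont h.sa
  obtain ⟨A1, hA1, ha1⟩ := bounded_of_zero_off h.ea.cont1 (h.ea.z1 h.sa)
  obtain ⟨A2, hA2, ha2⟩ := bounded_of_zero_off h.ea.c2 (h.ea.z2 h.sa)
  obtain ⟨B0, hB0, hb0⟩ := bounded_of_zero_off h.eb.cont h.sb
  obtain ⟨B1, hB1, hb1⟩ := bounded_of_zero_off h.eb.cont1 (h.eb.z1 h.sb)
  obtain ⟨B2, hB2, hb2⟩ := bounded_of_zero_off h.eb.c2 (h.eb.z2 h.sb)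
  refine ⟨A0 + A1 + A2 + B0 + B1 + B2, by positivity, ?_, ?_, ?_, ?_, ?_, ?_⟩ <;> intro x
  · linarith [ha0 x]
  · linarith [ha1 x]
  · linarith [ha2 x]
  · linarith [hb0 x]
  · linarith [hb1 x]
  · linarith [hb2 x]

lemma Pair.sa' {N : ℕ} (hN : 8 ≤ N) {a a1 a2 b b1 b2 : ℝ → ℝ} (h : Pair N a a1 a2 b b1 b2) :
    ∀ x, x ∉ Set.Ioo (0 : ℝ) 1 → a x = 0 := by
  intro x hx
  have hN' : (8 : ℝ) ≤ N := by exact_mod_cast hN
  have hi : (0 : ℝ) < (N : ℝ)⁻¹ := by positivity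
  exact h.sa x (fun h' => hx ⟨lt_trans hi h'.1, lt_of_lt_of_le h'.2 (by linarith)⟩)

lemma zero_scaled (N : ℕ) (hN : 8 ≤ N) {b : ℝ → ℝ}
    (sb : ∀ x, x ∉ Set.Ioo (1 / 4 : ℝ) (7 / 4) → b x = 0) :
    ∀ x, x ∉ Set.Ioo (0 : ℝ) 1 → b (N * x) = 0 := by
  intro x hx
  have hN' : (8 : ℝ) ≤ N := by exact_mod_cast hN
  apply sb
  rintro ⟨h1, h2⟩
  apply hx
  constructor
  · by_contra hc
    push Not at hc
    nlinarith
  · by_contra hc
    push Not at hc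
    nlinarith

/-- `psi` is a bump function -/
theorem bump_psi (N : ℕ) (hN : 8 ≤ N) {a a1 a2 b b1 b2 : ℝ → ℝ} (h : Pair N a a1 a2 b b1 b2)
    (w : ℝ) (hw : w ≠ 0) :
    Bump (psi N w a b) (psi1 N w a a1 b b1) (psi2 N w a a1 a2 b b1 b2) := by
  have hN' : (N : ℝ) ≠ 0 := by
    have : (8 : ℝ) ≤ N := by exact_mod_cast hN
    linarith
  have ca := h.ea.cont
  have ca1 := h.ea.cont1
  have ca2 := h.ea.c2
  have cb := h.eb.cont
  have cb1 := h.eb.cont1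
  have cb2 := h.eb.c2
  have cs0 := s0_cont
  have cs1 := s1_cont
  have cs2 := s2_cont
  have lin : ∀ (p x : ℝ), HasDerivAt (fun y : ℝ => p * y) p x := by
    intro p x
    simpa using (hasDerivAt_id x).const_mul p
  have D0 : ∀ (p x : ℝ), HasDerivAt (fun y : ℝ => s0 (p * y)) (s1 (p * x) * p) x := fun p x =>
    (s0_deriv (p * x)).comp x (lin p x)
  have D1 : ∀ (p x : ℝ), HasDerivAt (fun y : ℝ => s1 (p * y)) (s2 (p * x) * p) x := fun p x =>
    (s1_deriv (p * x)).comp x (lin p x)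
  have E0 : ∀ (x : ℝ), HasDerivAt (fun y : ℝ => b (N * y)) (b1 (N * x) * N) x := fun x =>
    (h.eb.d1 (N * x)).comp x (lin N x)
  have E1 : ∀ (x : ℝ), HasDerivAt (fun y : ℝ => b1 (N * y)) (b2 (N * x) * N) x := fun x =>
    (h.eb.d2 (N * x)).comp x (lin N x)
  refine ⟨?_, ?_, ?_, ?_, ?_, ?_⟩
  · intro x
    unfold psi psi1
    have H := ((((h.ea.d1 x).mul (D0 w x)).const_mul (w⁻¹ ^ 3))).add
      ((((E0 x).mul (D0 (N * w) x)).const_mul ((N : ℝ)⁻¹ ^ 2)).const_mul (w⁻¹ ^ 3))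
    refine H.congr_deriv ?_
    field_simp
    ring
  · intro x
    unfold psi1 psi2
    have H := ((((h.ea.d1 x).mul (D1 w x)).const_mul (w⁻¹ ^ 2)).add
      (((h.ea.d2 x).mul (D0 w x)).const_mul (w⁻¹ ^ 3))).add
      ((((E0 x).mul (D1 (N * w) x)).const_mul ((N : ℝ)⁻¹)).const_mul (w⁻¹ ^ 2)) |>.add
      ((((E1 x).mul (D0 (N * w) x)).const_mul ((N : ℝ)⁻¹)).const_mul (w⁻¹ ^ 3))
    refine H.congr_deriv ?_
    field_simp
    ring
  · unfold psi2
    fun_prop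
  · intro x hx
    unfold psi
    rw [h.sa' hN x hx, zero_scaled N hN h.sb x hx]
    ring
  · intro x hx
    have za1 : a1 x = 0 := (h.ea.z1 (h.sa' hN)) x hx
    unfold psi1
    rw [h.sa' hN x hx, za1, zero_scaled N hN h.sb x hx, zero_scaled N hN (h.eb.z1 h.sb) x hx]
    ring
  · intro x hx
    have za1 : a1 x = 0 := (h.ea.z1 (h.sa' hN)) x hx
    have za2 : a2 x = 0 := (h.ea.z2 (h.sa' hN)) x hx
    unfold psi2
    rw [h.sa' hN x hx, za1, za2, zero_scaled N hN h.sb x hx, zero_scaled N hN (h.eb.z1 h.sb) x hx,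
      zero_scaled N hN (h.eb.z2 h.sb) x hx]
    ring


lemma abs_s0_le (θ : ℝ) : |s0 θ| ≤ 1 := by
  unfold s0
  rw [abs_div, abs_of_pos (by positivity : (0:ℝ) < 4 * Real.pi ^ 3), div_le_one (by positivity)]
  have h1 := Real.abs_sin_le_one (2 * Real.pi * θ)
  have h2 : (1:ℝ) ≤ Real.pi ^ 3 := one_le_pow₀ (by linarith [Real.pi_gt_three])
  linarith

lemma abs_s1_le' (θ : ℝ) : |s1 θ| ≤ (2 * Real.pi ^ 2)⁻¹ := by
  unfold s1
  rw [abs_div, abs_of_pos (by positivity : (0:ℝ) < 2 * Real.pi ^ 2), div_eq_mul_inv]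
  have h1 := Real.abs_cos_le_one (2 * Real.pi * θ)
  have h2 : (0:ℝ) ≤ (2 * Real.pi ^ 2)⁻¹ := by positivity
  nlinarith

lemma inv_two_pi_sq_le : (2 * Real.pi ^ 2)⁻¹ ≤ (1:ℝ) := by
  have h2 : (1:ℝ) ≤ Real.pi ^ 2 := one_le_pow₀ (by linarith [Real.pi_gt_three])
  exact inv_le_one_of_one_le₀ (by linarith)

lemma abs_s1_le (θ : ℝ) : |s1 θ| ≤ 1 := (abs_s1_le' θ).trans inv_two_pi_sq_le

lemma abs_s2_le (θ : ℝ) : |s2 θ| ≤ 1 := by
  unfold s2
  rw [abs_neg, abs_div, abs_of_pos Real.pi_pos, div_le_one Real.pi_pos]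
  have h1 := Real.abs_sin_le_one (2 * Real.pi * θ)
  linarith [Real.pi_gt_three]

/-- leading oscillating part of `psi2`, without the factor `w⁻¹` -/
noncomputable def Lead (N : ℕ) (w : ℝ) (a b : ℝ → ℝ) (x : ℝ) : ℝ :=
  a x * s2 (w * x) + b (N * x) * s2 (N * w * x)

/-- remainder of `psi2`, without the factor `w⁻²` -/
noncomputable def Rem (N : ℕ) (w : ℝ) (a1 a2 b1 b2 : ℝ → ℝ) (x : ℝ) : ℝ :=
  2 * (a1 x * s1 (w * x)) + w⁻¹ * (a2 x * s0 (w * x)) + 2 * (b1 (N * x) * s1 (N * w * x))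
    + w⁻¹ * (b2 (N * x) * s0 (N * w * x))

lemma psi2_eq (N : ℕ) (w : ℝ) (a a1 a2 b b1 b2 : ℝ → ℝ) (x : ℝ) :
    psi2 N w a a1 a2 b b1 b2 x = w⁻¹ * Lead N w a b x + w⁻¹ ^ 2 * Rem N w a1 a2 b1 b2 x := by
  unfold psi2 Lead Rem
  ring

lemma abs_mul_le' {x y K : ℝ} (hx : |x| ≤ K) (hy : |y| ≤ 1) : |x * y| ≤ K := by
  rw [abs_mul]
  have : 0 ≤ K := le_trans (abs_nonneg _) hx
  calc |x| * |y| ≤ K * 1 := mul_le_mul hx hy (abs_nonneg _) this
    _ = K := mul_one K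

lemma abs_Lead_le {N : ℕ} {w : ℝ} {a b : ℝ → ℝ} {K : ℝ} (ha : ∀ x, |a x| ≤ K) (hb : ∀ x, |b x| ≤ K)
    (x : ℝ) : |Lead N w a b x| ≤ 2 * K := by
  unfold Lead
  have h1 := abs_mul_le' (ha x) (abs_s2_le (w * x))
  have h2 := abs_mul_le' (hb (N * x)) (abs_s2_le (N * w * x))
  calc _ ≤ |a x * s2 (w * x)| + |b (N * x) * s2 (N * w * x)| := abs_add_le _ _
    _ ≤ 2 * K := by linarith

lemma abs_Rem_le {N : ℕ} {w : ℝ} (hw : 1 ≤ w) {a1 a2 b1 b2 : ℝ → ℝ} {K : ℝ} (ha1 : ∀ x, |a1 x| ≤ K)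
    (ha2 : ∀ x, |a2 x| ≤ K) (hb1 : ∀ x, |b1 x| ≤ K) (hb2 : ∀ x, |b2 x| ≤ K)
    (x : ℝ) : |Rem N w a1 a2 b1 b2 x| ≤ 6 * K := by
  have hw1 : w⁻¹ ≤ 1 := inv_le_one_of_one_le₀ hw
  have hw0 : 0 ≤ w⁻¹ := by positivity
  have h1 := abs_mul_le' (ha1 x) (abs_s1_le (w * x))
  have h2 := abs_mul_le' (ha2 x) (abs_s0_le (w * x))
  have h3 := abs_mul_le' (hb1 (N * x)) (abs_s1_le (N * w * x))
  have h4 := abs_mul_le' (hb2 (N * x)) (abs_s0_le (N * w * x))
  have h2' : |w⁻¹ * (a2 x * s0 (w * x))| ≤ K := by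
    rw [mul_comm]; exact abs_mul_le' h2 (by rwa [abs_of_nonneg hw0])
  have h4' : |w⁻¹ * (b2 (N * x) * s0 (N * w * x))| ≤ K := by
    rw [mul_comm]; exact abs_mul_le' h4 (by rwa [abs_of_nonneg hw0])
  have h1' : |2 * (a1 x * s1 (w * x))| ≤ 2 * K := by rw [abs_mul, abs_two]; linarith
  have h3' : |2 * (b1 (N * x) * s1 (N * w * x))| ≤ 2 * K := by rw [abs_mul, abs_two]; linarith
  unfold Rem
  have t1 := abs_add_le (2 * (a1 x * s1 (w * x)) + w⁻¹ * (a2 x * s0 (w * x)) + 2 * (b1 (N * x) * s1 (N * w * x))) (w⁻¹ * (b2 (N * x) * s0 (N * w * x)))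
  have t2 := abs_add_le (2 * (a1 x * s1 (w * x)) + w⁻¹ * (a2 x * s0 (w * x))) (2 * (b1 (N * x) * s1 (N * w * x)))
  have t3 := abs_add_le (2 * (a1 x * s1 (w * x))) (w⁻¹ * (a2 x * s0 (w * x)))
  linarith

/-- error of replacing `g(c+Ny) g(y)` by the product of leading parts -/
lemma prod_err {l l' r r' K w : ℝ} (hK : 0 ≤ K) (hw : 1 ≤ w) (hl : |l| ≤ 2 * K) (hl' : |l'| ≤ 2 * K)
    (hr : |r| ≤ 6 * K) (hr' : |r'| ≤ 6 * K) :
    |(w⁻¹ * l + w⁻¹ ^ 2 * r) * (w⁻¹ * l' + w⁻¹ ^ 2 * r') - w⁻¹ ^ 2 * (l * l')|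
      ≤ 60 * K ^ 2 * w⁻¹ ^ 3 := by
  have hw1 : w⁻¹ ≤ 1 := inv_le_one_of_one_le₀ hw
  have hw0 : 0 ≤ w⁻¹ := by positivity
  have e : (w⁻¹ * l + w⁻¹ ^ 2 * r) * (w⁻¹ * l' + w⁻¹ ^ 2 * r') - w⁻¹ ^ 2 * (l * l')
      = w⁻¹ ^ 3 * (l * r' + r * l' + w⁻¹ * (r * r')) := by ring
  rw [e, abs_mul, abs_of_nonneg (by positivity : 0 ≤ w⁻¹ ^ 3), mul_comm]
  have b1 : |l * r'| ≤ 12 * K ^ 2 := by
    rw [abs_mul]; nlinarith [mul_le_mul hl hr' (abs_nonneg _) (by positivity : 0 ≤ 2 * K)]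
  have b2 : |r * l'| ≤ 12 * K ^ 2 := by
    rw [abs_mul]; nlinarith [mul_le_mul hr hl' (abs_nonneg _) (by positivity : 0 ≤ 6 * K)]
  have b3 : |r * r'| ≤ 36 * K ^ 2 := by
    rw [abs_mul]; nlinarith [mul_le_mul hr hr' (abs_nonneg _) (by positivity : 0 ≤ 6 * K)]
  have b4 : |w⁻¹ * (r * r')| ≤ 36 * K ^ 2 := by
    rw [mul_comm]; exact abs_mul_le' b3 (by rwa [abs_of_nonneg hw0])
  have t1 := abs_add_le (l * r' + r * l') (w⁻¹ * (r * r'))
  have t2 := abs_add_le (l * r') (r * l')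
  have : |l * r' + r * l' + w⁻¹ * (r * r')| ≤ 60 * K ^ 2 := by linarith
  exact mul_le_mul_of_nonneg_right this (by positivity)

lemma B_bump (N : ℕ) {f f1 f2 : ℝ → ℝ} (h : Bump f f1 f2) (k : ℝ → ℝ) (c : ℝ) :
    B N k f2 c = ∫ y in (0 : ℝ)..1, k (c + N * y) * f2 y := by
  unfold B
  rw [intervalIntegral.integral_eq_integral_of_support_subset]
  intro y hy
  rw [Function.mem_support] at hy
  by_contra hc
  apply hy
  rw [h.z2 y (fun h' => hc ⟨h'.1, h'.2.le⟩), mul_zero]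

lemma shift_int (N : ℕ) (hN : 8 ≤ N) {a a1 a2 b b1 b2 : ℝ → ℝ} (h : Pair N a a1 a2 b b1 b2) (c : ℝ) :
    (∫ y in (0 : ℝ)..1, a (c + N * y) * b (N * y)) = (N : ℝ)⁻¹ * ∫ t in (0 : ℝ)..1, a t * b (t - c) := by
  have hN' : (8 : ℝ) ≤ N := by exact_mod_cast hN
  have hN0 : (N : ℝ) ≠ 0 := by linarith
  have e1 : (∫ y in (0 : ℝ)..1, a (c + N * y) * b (N * y))
      = ∫ y in (0 : ℝ)..1, (fun t => a t * b (t - c)) (c + N * y) := by
    apply intervalIntegral.integral_congr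
    intro y _
    simp
  have e2 := intervalIntegral.integral_comp_add_mul (a := 0) (b := 1) (fun t => a t * b (t - c)) hN0 c
  rw [e1, e2, smul_eq_mul]
  congr 1
  rw [intervalIntegral.integral_eq_integral_of_support_subset,
    intervalIntegral.integral_eq_integral_of_support_subset]
  · intro t ht
    rw [Function.mem_support] at ht
    have h1 : a t ≠ 0 := left_ne_zero_of_mul ht
    by_contra hc
    exact h1 (h.sa' hN t (fun h' => hc ⟨h'.1, h'.2.le⟩))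
  · intro t ht
    rw [Function.mem_support] at ht
    have h1 : b (t - c) ≠ 0 := right_ne_zero_of_mul ht
    by_contra hc
    apply h1
    apply h.sb
    rintro ⟨h2, h3⟩
    apply hc
    constructor
    · simp only [mul_zero, add_zero]; linarith
    · simp only [mul_one]; linarith

/-- leading term of `γ(c) = ∫ g(c+Ny) g(y) dy` -/
theorem gamma_main (N : ℕ) (hN : 8 ≤ N) {a a1 a2 b b1 b2 : ℝ → ℝ} (h : Pair N a a1 a2 b b1 b2) :
    ∃ C : ℝ, ∀ k : ℕ, 1 ≤ k → ∀ c : ℝ,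
      |B N (psi2 N (N * k) a a1 a2 b b1 b2) (psi2 N (N * k) a a1 a2 b b1 b2) c
        - ((N : ℝ) * k)⁻¹ ^ 2 * (Real.cos (2 * Real.pi * (N * k * c)) / (2 * Real.pi ^ 2)
            * ((N : ℝ)⁻¹ * ∫ t in (0 : ℝ)..1, a t * b (t - c)))|
      ≤ C * ((N : ℝ) * k)⁻¹ ^ 3 := by
  obtain ⟨K, hK0, hKa, hKa1, hKa2, hKb, hKb1, hKb2⟩ := h.bound
  have hN' : (8 : ℝ) ≤ N := by exact_mod_cast hN
  have hN1 : (1 : ℝ) ≤ N := by linarith
  have hpi := Real.pi_pos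
  refine ⟨60 * K ^ 2 + 4 * (N * (N * K) ^ 2), fun k hk c => ?_⟩
  have hk' : (1 : ℝ) ≤ k := by exact_mod_cast hk
  set w : ℝ := (N : ℝ) * k with hw_def
  have hw8 : 8 ≤ w := by nlinarith
  have hw1 : 1 ≤ w := by linarith
  have hw0 : 0 < w := by linarith
  have hbump := bump_psi N hN h w hw0.ne'
  rw [B_bump N hbump]
  have ca := h.ea.cont
  have ca1 := h.ea.cont1
  have ca2 := h.ea.c2
  have cb := h.eb.cont
  have cb1 := h.eb.cont1
  have cb2 := h.eb.c2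
  have cs0 := s0_cont
  have cs1 := s1_cont
  have cs2 := s2_cont
  have cL : Continuous (Lead N w a b) := by unfold Lead; fun_prop
  have cg : Continuous (psi2 N w a a1 a2 b b1 b2) := hbump.c2
  -- step 1 : replace g by leading part
  have step1 : |(∫ y in (0 : ℝ)..1, psi2 N w a a1 a2 b b1 b2 (c + N * y) * psi2 N w a a1 a2 b b1 b2 y)
      - w⁻¹ ^ 2 * ∫ y in (0 : ℝ)..1, Lead N w a b (c + N * y) * Lead N w a b y|
      ≤ 60 * K ^ 2 * w⁻¹ ^ 3 := by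
    rw [← intervalIntegral.integral_const_mul, ← intervalIntegral.integral_sub]
    · have hb : ‖∫ y in (0:ℝ)..1, (psi2 N w a a1 a2 b b1 b2 (c + N * y) * psi2 N w a a1 a2 b b1 b2 y
          - w⁻¹ ^ 2 * (Lead N w a b (c + N * y) * Lead N w a b y))‖
          ≤ (60 * K ^ 2 * w⁻¹ ^ 3) * |(1:ℝ) - 0| := by
        apply intervalIntegral.norm_integral_le_of_norm_le_const
        intro y _
        rw [Real.norm_eq_abs, psi2_eq, psi2_eq]
        exact prod_err hK0 hw1 (abs_Lead_le hKa hKb _) (abs_Lead_le hKa hKb _)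
          (abs_Rem_le hw1 hKa1 hKa2 hKb1 hKb2 _) (abs_Rem_le hw1 hKa1 hKa2 hKb1 hKb2 _)
      simpa using hb
    · apply Continuous.intervalIntegrable; fun_prop
    · apply Continuous.intervalIntegrable; fun_prop
  -- step 2 : the four integrals
  set bN : ℝ → ℝ := fun x => b (N * x) with hbN
  set bN1 : ℝ → ℝ := fun x => b1 (N * x) * N with hbN1
  have dbN : ∀ x, HasDerivAt bN (bN1 x) x := by
    intro x
    have hl : HasDerivAt (fun y : ℝ => (N : ℝ) * y) (N : ℝ) x := by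
      simpa using (hasDerivAt_id x).const_mul (N : ℝ)
    exact (h.eb.d1 (N * x)).comp x hl
  have cbN : Continuous bN := by fun_prop
  have cbN1 : Continuous bN1 := by fun_prop
  have sbN : ∀ x, x ∉ Set.Ioo (0 : ℝ) 1 → bN x = 0 := zero_scaled N hN h.sb
  have saa := h.sa' hN
  have hKN : K ≤ N * K := by nlinarith
  have BA : ∀ x, |a x| ≤ N * K := fun x => (hKa x).trans hKN
  have BA1 : ∀ x, |a1 x| ≤ N * K := fun x => (hKa1 x).trans hKN
  have BB : ∀ x, |bN x| ≤ N * K := fun x => (hKb _).trans hKN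
  have BB1 : ∀ x, |bN1 x| ≤ N * K := fun x => by
    rw [hbN1]; simp only [abs_mul, Nat.abs_cast]
    have := hKb1 (N * x)
    nlinarith
  have split : (∫ y in (0 : ℝ)..1, Lead N w a b (c + N * y) * Lead N w a b y)
      = (∫ y in (0 : ℝ)..1, (a (c + N * y) * s2 (w * (c + N * y))) * (a y * s2 (w * y)))
      + (∫ y in (0 : ℝ)..1, (a (c + N * y) * s2 (w * (c + N * y))) * (bN y * s2 (N * w * y)))
      + (∫ y in (0 : ℝ)..1, (bN (c + N * y) * s2 (N * w * (c + N * y))) * (a y * s2 (w * y)))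
      + (∫ y in (0 : ℝ)..1, (bN (c + N * y) * s2 (N * w * (c + N * y))) * (bN y * s2 (N * w * y))) := by
    rw [← intervalIntegral.integral_add, ← intervalIntegral.integral_add,
      ← intervalIntegral.integral_add]
    · apply intervalIntegral.integral_congr
      intro y _
      simp only [Lead, hbN]
      ring
    all_goals (apply Continuous.intervalIntegrable; fun_prop)
  -- generic bound
  have gen : ∀ (e e1 f f1 : ℝ → ℝ), (∀ x, HasDerivAt e (e1 x) x) → Continuous e1 →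
      (∀ x, HasDerivAt f (f1 x) x) → Continuous f1 → (∀ x, x ∉ Set.Ioo (0 : ℝ) 1 → f x = 0) →
      (∀ x, |e x| ≤ N * K) → (∀ x, |e1 x| ≤ N * K) → (∀ x, |f x| ≤ N * K) → (∀ x, |f1 x| ≤ N * K) →
      ∀ nu phi : ℝ, w ≤ nu →
      |(2 * Real.pi ^ 2)⁻¹ * ∫ y in (0 : ℝ)..1, (e (c + N * y) * f y) * Real.cos (2 * Real.pi * (nu * y + phi))|
        ≤ (1 / 2) * (N * (N * K) ^ 2 * w⁻¹) := by
    intro e e1 f f1 he ce1 hf cf1 sf be be1 bf bf1 nu phi hnu
    have hnu0 : 0 < nu := lt_of_lt_of_le hw0 hnu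
    have h1 := nonres N (by omega) he ce1 hf cf1 sf be be1 bf bf1 c nu phi hnu0
    rw [abs_mul, abs_of_pos (by positivity : (0:ℝ) < (2 * Real.pi ^ 2)⁻¹)]
    have h2 : 2 * N * (N * K) ^ 2 / (2 * Real.pi * nu) ≤ N * (N * K) ^ 2 * w⁻¹ := by
      rw [← div_eq_mul_inv, div_le_div_iff₀ (by positivity) hw0]
      have h3 : 0 ≤ (N : ℝ) * (N * K) ^ 2 := by positivity
      have h4 : w ≤ Real.pi * nu := by nlinarith [Real.pi_gt_three]
      nlinarith [mul_le_mul_of_nonneg_left h4 h3]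
    have h5 : (2 * Real.pi ^ 2)⁻¹ ≤ (1 / 2 : ℝ) := by
      rw [one_div]
      apply inv_anti₀ (by norm_num)
      nlinarith [Real.pi_gt_three]
    have h6 : (0:ℝ) ≤ (2 * Real.pi ^ 2)⁻¹ := by positivity
    calc (2 * Real.pi ^ 2)⁻¹ * _ ≤ (1 / 2) * _ := mul_le_mul h5 (h1.trans h2) (abs_nonneg _) (by norm_num)
      _ = _ := rfl
  set X : ℝ := N * (N * K) ^ 2 * w⁻¹ with hX
  have hX0 : 0 ≤ X := by positivity
  have hNw : w * N - w ≥ w := by nlinarith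
  have I00 : |∫ y in (0 : ℝ)..1, (a (c + N * y) * s2 (w * (c + N * y))) * (a y * s2 (w * y))| ≤ X := by
    rw [split_prod N ca ca c w w, mul_sub]
    have g1 := gen a a1 a a1 h.ea.d1 ca1 h.ea.d1 ca1 saa BA BA1 BA BA1 (w * N - w) (w * c) (by nlinarith)
    have g2 := gen a a1 a a1 h.ea.d1 ca1 h.ea.d1 ca1 saa BA BA1 BA BA1 (w * N + w) (w * c) (by nlinarith)
    exact (abs_sub _ _).trans (by linarith)
  have I10 : |∫ y in (0 : ℝ)..1, (bN (c + N * y) * s2 (N * w * (c + N * y))) * (a y * s2 (w * y))| ≤ X := by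
    rw [split_prod N cbN ca c (N * w) w, mul_sub]
    have hA : w ≤ N * w * N - w := by
      have : 8 * w ≤ N * w := by nlinarith
      nlinarith
    have hB : w ≤ N * w * N + w := by nlinarith
    have g1 := gen bN bN1 a a1 dbN cbN1 h.ea.d1 ca1 saa BB BB1 BA BA1 (N * w * N - w) (N * w * c) hA
    have g2 := gen bN bN1 a a1 dbN cbN1 h.ea.d1 ca1 saa BB BB1 BA BA1 (N * w * N + w) (N * w * c) hB
    exact (abs_sub _ _).trans (by linarith)
  have I11 : |∫ y in (0 : ℝ)..1, (bN (c + N * y) * s2 (N * w * (c + N * y))) * (bN y * s2 (N * w * y))| ≤ X := by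
    rw [split_prod N cbN cbN c (N * w) (N * w), mul_sub]
    have hA : w ≤ N * w * N - N * w := by
      have : 8 * w ≤ N * w := by nlinarith
      nlinarith
    have hB : w ≤ N * w * N + N * w := by nlinarith
    have g1 := gen bN bN1 bN bN1 dbN cbN1 dbN cbN1 sbN BB BB1 BB BB1 (N * w * N - N * w) (N * w * c) hA
    have g2 := gen bN bN1 bN bN1 dbN cbN1 dbN cbN1 sbN BB BB1 BB BB1 (N * w * N + N * w) (N * w * c) hB
    exact (abs_sub _ _).trans (by linarith)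
  have I01 : |(∫ y in (0 : ℝ)..1, (a (c + N * y) * s2 (w * (c + N * y))) * (bN y * s2 (N * w * y)))
      - Real.cos (2 * Real.pi * (w * c)) / (2 * Real.pi ^ 2) *
        ((N : ℝ)⁻¹ * ∫ t in (0 : ℝ)..1, a t * b (t - c))| ≤ X := by
    rw [split_prod N ca cbN c w (N * w), mul_sub, ← shift_int N hN h c]
    have hcos : (∫ y in (0 : ℝ)..1, (a (c + N * y) * bN y) * Real.cos (2 * Real.pi * ((w * N - N * w) * y + w * c)))
        = Real.cos (2 * Real.pi * (w * c)) * ∫ y in (0 : ℝ)..1, a (c + N * y) * b (N * y) := by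
      rw [← intervalIntegral.integral_const_mul]
      apply intervalIntegral.integral_congr
      intro y _
      simp only [hbN]
      rw [show (w * N - N * w) * y + w * c = w * c by ring]
      ring
    rw [hcos]
    have g2 := gen a a1 bN bN1 h.ea.d1 ca1 dbN cbN1 sbN BA BA1 BB BB1 (w * N + N * w) (w * c) (by linarith [mul_comm w (N : ℝ)])
    have e : (2 * Real.pi ^ 2)⁻¹ * (Real.cos (2 * Real.pi * (w * c)) * ∫ y in (0 : ℝ)..1, a (c + N * y) * b (N * y))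
        - (2 * Real.pi ^ 2)⁻¹ * (∫ y in (0 : ℝ)..1, (a (c + N * y) * bN y) * Real.cos (2 * Real.pi * ((w * N + N * w) * y + w * c)))
        - Real.cos (2 * Real.pi * (w * c)) / (2 * Real.pi ^ 2) * (∫ y in (0 : ℝ)..1, a (c + N * y) * b (N * y))
        = -((2 * Real.pi ^ 2)⁻¹ * (∫ y in (0 : ℝ)..1, (a (c + N * y) * bN y) * Real.cos (2 * Real.pi * ((w * N + N * w) * y + w * c)))) := by
      ring
    rw [e, abs_neg]
    linarith
  -- assemble
  have hw0' : 0 ≤ w⁻¹ ^ 2 := by positivity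
  set G := ∫ y in (0 : ℝ)..1, psi2 N w a a1 a2 b b1 b2 (c + N * y) * psi2 N w a a1 a2 b b1 b2 y with hG
  set LL := ∫ y in (0 : ℝ)..1, Lead N w a b (c + N * y) * Lead N w a b y with hLL
  set Mn := Real.cos (2 * Real.pi * (w * c)) / (2 * Real.pi ^ 2) *
        ((N : ℝ)⁻¹ * ∫ t in (0 : ℝ)..1, a t * b (t - c)) with hMn
  have hLM : |LL - Mn| ≤ 4 * X := by
    rw [split]
    rw [abs_le] at I00 I10 I11 I01 ⊢
    constructor <;> linarith [I00.1, I00.2, I10.1, I10.2, I11.1, I11.2, I01.1, I01.2]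
  have e : G - w⁻¹ ^ 2 * Mn = (G - w⁻¹ ^ 2 * LL) + w⁻¹ ^ 2 * (LL - Mn) := by ring
  have hfin : w⁻¹ ^ 2 * |LL - Mn| ≤ 4 * (N * (N * K) ^ 2) * w⁻¹ ^ 3 := by
    calc w⁻¹ ^ 2 * |LL - Mn| ≤ w⁻¹ ^ 2 * (4 * X) := mul_le_mul_of_nonneg_left hLM hw0'
      _ = 4 * (N * (N * K) ^ 2) * w⁻¹ ^ 3 := by rw [hX]; ring
  have habs : |w⁻¹ ^ 2 * (LL - Mn)| = w⁻¹ ^ 2 * |LL - Mn| := by rw [abs_mul, abs_of_nonneg hw0']
  have tri := abs_add_le (G - w⁻¹ ^ 2 * LL) (w⁻¹ ^ 2 * (LL - Mn))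
  rw [habs] at tri
  rw [e]
  linarith

lemma s2_mul_s0 (x : ℝ) :
    s2 x * s0 x = (8 * Real.pi ^ 4)⁻¹ * Real.cos (2 * Real.pi * (2 * x)) - (8 * Real.pi ^ 4)⁻¹ := by
  unfold s2 s0
  have h1 : Real.cos (2 * Real.pi * (2 * x)) = 1 - 2 * Real.sin (2 * Real.pi * x) ^ 2 := by
    rw [show 2 * Real.pi * (2 * x) = 2 * (2 * Real.pi * x) by ring, Real.cos_two_mul]
    have := Real.sin_sq_add_cos_sq (2 * Real.pi * x)
    linarith
  rw [h1]
  have : Real.pi ≠ 0 := Real.pi_ne_zero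
  field_simp
  ring

/-- the function whose integral is the gain -/
noncomputable def GF (w : ℝ) (a b b1 b2 : ℝ → ℝ) (t : ℝ) : ℝ :=
  (w⁻¹ * (b t * s2 (w * t)) + 2 * (w⁻¹ ^ 2 * (b1 t * s1 (w * t)))
      + w⁻¹ ^ 3 * (b2 t * s0 (w * t))) * (w⁻¹ ^ 3 * (a t * s0 (w * t)))

/-- the remainder of the previous function -/
noncomputable def GR (w : ℝ) (a b1 b2 : ℝ → ℝ) (t : ℝ) : ℝ :=
  (2 * (b1 t * s1 (w * t)) + w⁻¹ * (b2 t * s0 (w * t))) * (a t * s0 (w * t))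

lemma GF_eq (w : ℝ) (a b b1 b2 : ℝ → ℝ) (t : ℝ) :
    GF w a b b1 b2 t = w⁻¹ ^ 4 * ((8 * Real.pi ^ 4)⁻¹ * ((a t * b t) * Real.cos (2 * Real.pi * ((2 * w) * t + 0))))
      - w⁻¹ ^ 4 * ((8 * Real.pi ^ 4)⁻¹ * (a t * b t)) + w⁻¹ ^ 5 * GR w a b1 b2 t := by
  have h := s2_mul_s0 (w * t)
  rw [show 2 * (w * t) = (2 * w) * t + 0 by ring] at h
  unfold GF GR
  calc _ = w⁻¹ ^ 4 * (a t * b t) * (s2 (w * t) * s0 (w * t))
        + w⁻¹ ^ 5 * ((2 * (b1 t * s1 (w * t)) + w⁻¹ * (b2 t * s0 (w * t))) * (a t * s0 (w * t))) := by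
        ring
    _ = _ := by rw [h]; ring

/-- the pointwise computation behind the gain -/
lemma gain_pointwise (N : ℕ) (hN : 8 ≤ N) {a a1 a2 b b1 b2 : ℝ → ℝ} (h : Pair N a a1 a2 b b1 b2)
    (w : ℝ) (y : ℝ) :
    psi2 N w a a1 a2 b b1 b2 y * (psi N w a b (N * y) + psi N w a b (1 - N + N * y))
      = GF w a b b1 b2 (N * y) := by
  have hN8 : (8 : ℝ) ≤ N := by exact_mod_cast hN
  have hN0 : (0 : ℝ) < N := by linarith
  have hi : (0 : ℝ) < (N : ℝ)⁻¹ := by positivity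
  have hi1 : (N : ℝ) * (N : ℝ)⁻¹ = 1 := mul_inv_cancel₀ hN0.ne'
  have sa1 : ∀ x, x ∉ Set.Ioo ((N : ℝ)⁻¹) (1 - (N : ℝ)⁻¹) → a1 x = 0 := h.ea.z1 h.sa
  have sa2 : ∀ x, x ∉ Set.Ioo ((N : ℝ)⁻¹) (1 - (N : ℝ)⁻¹) → a2 x = 0 := h.ea.z2 h.sa
  have sb1 : ∀ x, x ∉ Set.Ioo (1 / 4 : ℝ) (7 / 4) → b1 x = 0 := h.eb.z1 h.sb
  have sb2 : ∀ x, x ∉ Set.Ioo (1 / 4 : ℝ) (7 / 4) → b2 x = 0 := h.eb.z2 h.sb
  have hcomm : (N : ℝ) * w * y = w * (N * y) := by ring
  unfold GF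
  by_cases hy : (N : ℝ) * y ∈ Set.Ioo (1 / 4 : ℝ) 1
  · -- main region: `1/(4N) < y < 1/N`
    have hy1 : y ∉ Set.Ioo ((N : ℝ)⁻¹) (1 - (N : ℝ)⁻¹) := by
      intro hc
      have h1 : (N : ℝ) * (N : ℝ)⁻¹ < N * y := mul_lt_mul_of_pos_left hc.1 hN0
      linarith [hy.2]
    have hb0 : b (N * (N * y)) = 0 := by
      apply h.sb
      intro hc
      have := hy.1
      nlinarith [hc.2]
    have hz : (1 : ℝ) - N + N * y ∉ Set.Ioo ((N : ℝ)⁻¹) (1 - (N : ℝ)⁻¹) := by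
      intro hc
      linarith [hc.1, hy.2]
    have hz2 : b (N * (1 - N + N * y)) = 0 := by
      apply h.sb
      intro hc
      nlinarith [hc.1, hy.2]
    unfold psi2 psi
    rw [h.sa y hy1, sa1 y hy1, sa2 y hy1, hb0, h.sa _ hz, hz2, hcomm]
    ring
  · by_cases h1 : (N : ℝ) * y ≤ 1 / 4
    · -- everything vanishes because `psi2 y = 0`
      have hz : (N : ℝ) * y ∉ Set.Ioo (1 / 4 : ℝ) (7 / 4) := fun hc => by linarith [hc.1]
      have hy1 : y ∉ Set.Ioo ((N : ℝ)⁻¹) (1 - (N : ℝ)⁻¹) := by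
        intro hc
        have h1 : (N : ℝ) * (N : ℝ)⁻¹ < N * y := mul_lt_mul_of_pos_left hc.1 hN0
        linarith
      unfold psi2
      rw [h.sa y hy1, sa1 y hy1, sa2 y hy1, h.sb _ hz, sb1 _ hz, sb2 _ hz]
      ring
    · have h2 : 1 ≤ (N : ℝ) * y := by
        by_contra hc
        exact hy ⟨not_le.1 h1, not_le.1 hc⟩
      have hz : (N : ℝ) * y ∉ Set.Ioo ((N : ℝ)⁻¹) (1 - (N : ℝ)⁻¹) := by
        intro hc
        linarith [hc.2]
      have hzb : b (N * (N * y)) = 0 := by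
        apply h.sb
        intro hc
        nlinarith [hc.2]
      by_cases h3 : (N : ℝ) * y ≤ N - 1
      · have hz3 : (1 : ℝ) - N + N * y ∉ Set.Ioo ((N : ℝ)⁻¹) (1 - (N : ℝ)⁻¹) := by
          intro hc
          linarith [hc.1]
        have hz4 : b (N * (1 - N + N * y)) = 0 := by
          apply h.sb
          intro hc
          nlinarith [hc.1]
        unfold psi
        rw [h.sa _ hz, hzb, h.sa _ hz3, hz4]
        ring
      · have h4 := not_le.1 h3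
        have hy1 : y ∉ Set.Ioo ((N : ℝ)⁻¹) (1 - (N : ℝ)⁻¹) := by
          intro hc
          have h5 : (N : ℝ) * y < N * (1 - (N : ℝ)⁻¹) := mul_lt_mul_of_pos_left hc.2 hN0
          rw [mul_sub, hi1] at h5
          linarith
        have hz5 : (N : ℝ) * y ∉ Set.Ioo (1 / 4 : ℝ) (7 / 4) := fun hc => by linarith [hc.2]
        unfold psi2
        rw [h.sa y hy1, sa1 y hy1, sa2 y hy1, h.sb _ hz5, sb1 _ hz5, sb2 _ hz5, h.sa _ hz]
        ring

lemma GF_integral (N : ℕ) (hN : 8 ≤ N) {a a1 a2 b b1 b2 : ℝ → ℝ} (h : Pair N a a1 a2 b b1 b2)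
    (w : ℝ) : (∫ y in (0 : ℝ)..1, psi2 N w a a1 a2 b b1 b2 y *
        (psi N w a b (N * y) + psi N w a b (1 - N + N * y)))
      = (N : ℝ)⁻¹ * ∫ t in (0 : ℝ)..1, GF w a b b1 b2 t := by
  have hN' : (8 : ℝ) ≤ N := by exact_mod_cast hN
  have hN0 : (N : ℝ) ≠ 0 := by linarith
  have e1 : (∫ y in (0 : ℝ)..1, psi2 N w a a1 a2 b b1 b2 y *
        (psi N w a b (N * y) + psi N w a b (1 - N + N * y)))
      = ∫ y in (0 : ℝ)..1, GF w a b b1 b2 (N * y) := by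
    apply intervalIntegral.integral_congr
    intro y _
    exact gain_pointwise N hN h w y
  have e2 := intervalIntegral.integral_comp_mul_left (a := 0) (b := 1) (GF w a b b1 b2) hN0
  rw [e1, e2, smul_eq_mul]
  congr 1
  have hs : ∀ t, GF w a b b1 b2 t ≠ 0 → t ∈ Set.Ioo (0 : ℝ) 1 := by
    intro t ht
    by_contra hc
    apply ht
    unfold GF
    rw [h.sa' hN t hc]
    ring
  rw [intervalIntegral.integral_eq_integral_of_support_subset,
    intervalIntegral.integral_eq_integral_of_support_subset]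
  · intro t ht
    have := hs t ht
    exact ⟨this.1, this.2.le⟩
  · intro t ht
    have := hs t ht
    refine ⟨by simpa using this.1, ?_⟩
    have h2 := this.2
    simp only [mul_one]
    linarith

/-- leading term of the gain -/
theorem gain_main (N : ℕ) (hN : 8 ≤ N) {a a1 a2 b b1 b2 : ℝ → ℝ} (h : Pair N a a1 a2 b b1 b2) :
    ∃ C : ℝ, ∀ k : ℕ, 1 ≤ k →
      2 * (∫ c, B N one one c * B N (psi2 N (N * k) a a1 a2 b b1 b2)
          (psi2 N (N * k) a a1 a2 b b1 b2) c)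
        ≤ ((N : ℝ) * k)⁻¹ ^ 4 * ((4 * Real.pi ^ 4)⁻¹ * ((N : ℝ)⁻¹ ^ 2 * ∫ t in (0 : ℝ)..1, a t * b t))
          + C * ((N : ℝ) * k)⁻¹ ^ 5 := by
  obtain ⟨K, hK0, hKa, hKa1, hKa2, hKb, hKb1, hKb2⟩ := h.bound
  have hN' : (8 : ℝ) ≤ N := by exact_mod_cast hN
  have hpi := Real.pi_gt_three
  refine ⟨8 * K ^ 2, fun k hk => ?_⟩
  have hk' : (1 : ℝ) ≤ k := by exact_mod_cast hk
  set w : ℝ := (N : ℝ) * k with hw_def
  have hw8 : 8 ≤ w := by nlinarith
  have hw1 : 1 ≤ w := by linarith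
  have hw0 : 0 < w := by linarith
  have hbump := bump_psi N hN h w hw0.ne'
  have ca := h.ea.cont
  have ca1 := h.ea.cont1
  have cb := h.eb.cont
  have cb1 := h.eb.cont1
  have cb2 := h.eb.c2
  have cs0 := s0_cont
  have cs1 := s1_cont
  rw [qgamma N (by omega) hbump, GF_integral N hN h w]
  -- the integral of GF
  set I : ℝ := ∫ t in (0 : ℝ)..1, a t * b t with hI
  set J : ℝ := ∫ t in (0 : ℝ)..1, (a t * b t) * Real.cos (2 * Real.pi * ((2 * w) * t + 0)) with hJ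
  set R : ℝ := ∫ t in (0 : ℝ)..1, GR w a b1 b2 t with hR
  have cGR : Continuous (GR w a b1 b2) := by unfold GR; fun_prop
  have hsplit : (∫ t in (0 : ℝ)..1, GF w a b b1 b2 t)
      = w⁻¹ ^ 4 * ((8 * Real.pi ^ 4)⁻¹ * J) - w⁻¹ ^ 4 * ((8 * Real.pi ^ 4)⁻¹ * I) + w⁻¹ ^ 5 * R := by
    rw [hI, hJ, hR, ← intervalIntegral.integral_const_mul, ← intervalIntegral.integral_const_mul,
      ← intervalIntegral.integral_const_mul, ← intervalIntegral.integral_const_mul,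
      ← intervalIntegral.integral_const_mul, ← intervalIntegral.integral_sub,
      ← intervalIntegral.integral_add]
    · apply intervalIntegral.integral_congr
      intro t _
      exact GF_eq w a b b1 b2 t
    · apply Continuous.intervalIntegrable; fun_prop
    · apply Continuous.intervalIntegrable; fun_prop
    · apply Continuous.intervalIntegrable; fun_prop
    · apply Continuous.intervalIntegrable; fun_prop
  have hJb : |J| ≤ (2 * K ^ 2) / (2 * Real.pi * (2 * w)) := by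
    refine rl (e := fun t => a t * b t) (e1 := fun t => a1 t * b t + a t * b1 t) ?_ ?_ ?_ _ ?_ (2 * w) 0
      (by positivity)
    · intro x
      exact (h.ea.d1 x).mul (h.eb.d1 x)
    · fun_prop
    · intro x hx
      simp only [h.sa' hN x hx, zero_mul]
    · intro x
      have t1 := abs_add_le (a1 x * b x) (a x * b1 x)
      have t2 : |a1 x * b x| ≤ K * K := by
        rw [abs_mul]; exact mul_le_mul (hKa1 x) (hKb x) (abs_nonneg _) hK0
      have t3 : |a x * b1 x| ≤ K * K := by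
        rw [abs_mul]; exact mul_le_mul (hKa x) (hKb1 x) (abs_nonneg _) hK0
      nlinarith
  have hJb' : |J| ≤ K ^ 2 * w⁻¹ := by
    refine hJb.trans ?_
    rw [div_le_iff₀ (by positivity)]
    have : K ^ 2 * w⁻¹ * (2 * Real.pi * (2 * w)) = K ^ 2 * (4 * Real.pi) := by
      field_simp
      ring
    rw [this]
    nlinarith [sq_nonneg K]
  have hw1' : w⁻¹ ≤ 1 := inv_le_one_of_one_le₀ hw1
  have hw0' : 0 ≤ w⁻¹ := by positivity
  have hRb : |R| ≤ 3 * K ^ 2 := by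
    have hb : ‖∫ t in (0 : ℝ)..1, GR w a b1 b2 t‖ ≤ (3 * K ^ 2) * |(1 : ℝ) - 0| := by
      apply intervalIntegral.norm_integral_le_of_norm_le_const
      intro t _
      rw [Real.norm_eq_abs]
      unfold GR
      have u1 := abs_mul_le' (hKb1 t) (abs_s1_le (w * t))
      have u2 := abs_mul_le' (hKb2 t) (abs_s0_le (w * t))
      have u3 := abs_mul_le' (hKa t) (abs_s0_le (w * t))
      have u2' : |w⁻¹ * (b2 t * s0 (w * t))| ≤ K := by
        rw [mul_comm]; exact abs_mul_le' u2 (by rwa [abs_of_nonneg hw0'])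
      have u1' : |2 * (b1 t * s1 (w * t))| ≤ 2 * K := by rw [abs_mul, abs_two]; linarith
      have u4 := abs_add_le (2 * (b1 t * s1 (w * t))) (w⁻¹ * (b2 t * s0 (w * t)))
      have u5 : |2 * (b1 t * s1 (w * t)) + w⁻¹ * (b2 t * s0 (w * t))| ≤ 3 * K := by linarith
      rw [abs_mul]
      calc _ ≤ (3 * K) * K := mul_le_mul u5 u3 (abs_nonneg _) (by positivity)
        _ = 3 * K ^ 2 := by ring
    rw [Real.norm_eq_abs] at hb
    simpa using hb
  rw [hsplit]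
  have hp8 : (8 * Real.pi ^ 4)⁻¹ ≤ (1 : ℝ) := by
    have h2 : (1 : ℝ) ≤ Real.pi ^ 4 := one_le_pow₀ (by linarith)
    exact inv_le_one_of_one_le₀ (by linarith)
  have hp8' : (0 : ℝ) ≤ (8 * Real.pi ^ 4)⁻¹ := by positivity
  have hNi : (N : ℝ)⁻¹ ≤ 1 := inv_le_one_of_one_le₀ (by linarith)
  have hNi0 : (0 : ℝ) ≤ (N : ℝ)⁻¹ := by positivity
  have hNi2 : (N : ℝ)⁻¹ ^ 2 ≤ 1 := pow_le_one₀ hNi0 hNi
  have h4p : (4 * Real.pi ^ 4)⁻¹ = 2 * (8 * Real.pi ^ 4)⁻¹ := by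
    have := Real.pi_ne_zero
    field_simp
    norm_num
  have e : 2 * -((N : ℝ)⁻¹ * ((N : ℝ)⁻¹ * (w⁻¹ ^ 4 * ((8 * Real.pi ^ 4)⁻¹ * J)
        - w⁻¹ ^ 4 * ((8 * Real.pi ^ 4)⁻¹ * I) + w⁻¹ ^ 5 * R)))
      = w⁻¹ ^ 4 * ((4 * Real.pi ^ 4)⁻¹ * ((N : ℝ)⁻¹ ^ 2 * I))
        + 2 * ((N : ℝ)⁻¹ ^ 2 * (w⁻¹ ^ 4 * ((8 * Real.pi ^ 4)⁻¹ * (-J)) + w⁻¹ ^ 5 * (-R))) := by
    rw [h4p]; ring
  rw [e]
  have hJ2 : -J ≤ K ^ 2 * w⁻¹ := by
    have := (abs_le.1 hJb').1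
    linarith
  have hR2 : -R ≤ 3 * K ^ 2 := by
    have := (abs_le.1 hRb).1
    linarith
  have s1' : (8 * Real.pi ^ 4)⁻¹ * (-J) ≤ K ^ 2 * w⁻¹ := by
    calc (8 * Real.pi ^ 4)⁻¹ * (-J) ≤ (8 * Real.pi ^ 4)⁻¹ * (K ^ 2 * w⁻¹) :=
          mul_le_mul_of_nonneg_left hJ2 hp8'
      _ ≤ 1 * (K ^ 2 * w⁻¹) := mul_le_mul_of_nonneg_right hp8 (by positivity)
      _ = K ^ 2 * w⁻¹ := one_mul _
  have s2' : w⁻¹ ^ 4 * ((8 * Real.pi ^ 4)⁻¹ * (-J)) + w⁻¹ ^ 5 * (-R) ≤ 4 * K ^ 2 * w⁻¹ ^ 5 := by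
    have a1' : w⁻¹ ^ 4 * ((8 * Real.pi ^ 4)⁻¹ * (-J)) ≤ w⁻¹ ^ 4 * (K ^ 2 * w⁻¹) :=
      mul_le_mul_of_nonneg_left s1' (by positivity)
    have a2' : w⁻¹ ^ 5 * (-R) ≤ w⁻¹ ^ 5 * (3 * K ^ 2) :=
      mul_le_mul_of_nonneg_left hR2 (by positivity)
    calc _ ≤ w⁻¹ ^ 4 * (K ^ 2 * w⁻¹) + w⁻¹ ^ 5 * (3 * K ^ 2) := add_le_add a1' a2'
      _ = 4 * K ^ 2 * w⁻¹ ^ 5 := by ring
  have s3' : (N : ℝ)⁻¹ ^ 2 * (w⁻¹ ^ 4 * ((8 * Real.pi ^ 4)⁻¹ * (-J)) + w⁻¹ ^ 5 * (-R))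
      ≤ 4 * K ^ 2 * w⁻¹ ^ 5 := by
    calc _ ≤ (N : ℝ)⁻¹ ^ 2 * (4 * K ^ 2 * w⁻¹ ^ 5) := mul_le_mul_of_nonneg_left s2' (by positivity)
      _ ≤ 1 * (4 * K ^ 2 * w⁻¹ ^ 5) := mul_le_mul_of_nonneg_right hNi2 (by positivity)
      _ = _ := one_mul _
  linarith

end Pool.Agent.Helper63.Common
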