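import Pool.Agent.Helper63.Common.Defs

set_option autoImplicit false
open MeasureTheory Set Filter Topology

namespace Pool.Agent.Helper63.Common

/-- `f`, `f1 = f'`, `f2 = f''`, all vanishing outside `(0,1)` -/
structure Bump (f f1 f2 : ℝ → ℝ) : Prop where
  d1 : ∀ x, HasDerivAt f (f1 x) x
  d2 : ∀ x, HasDerivAt f1 (f2 x) x
  c2 : Continuous f2
  z0 : ∀ x, x ∉ Set.Ioo (0 : ℝ) 1 → f x = 0
  z1 : ∀ x, x ∉ Set.Ioo (0 : ℝ) 1 → f1 x = 0
  z2 : ∀ x, x ∉ Set.Ioo (0 : ℝ) 1 → f2 x = 0

/-- integration against `one (c + N y)` in `y` -/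
lemma qg_int_comp (N : ℕ) (hN : 0 < N) (c : ℝ) (k : ℝ → ℝ) :
    (∫ y, one (c + N * y) * k y) = ∫ y in (-c / N)..((1 - c) / N), k y := by
  have hN' : (0 : ℝ) < N := by exact_mod_cast hN
  have hle : -c / N ≤ (1 - c) / N := by
    apply div_le_div_of_nonneg_right _ hN'.le
    linarith
  rw [intervalIntegral.integral_of_le hle, ← integral_indicator measurableSet_Ioc]
  congr 1
  funext y
  have hiff : c + N * y ∈ Ioc (0 : ℝ) 1 ↔ y ∈ Ioc (-c / N) ((1 - c) / N) := by
    simp only [mem_Ioc]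
    rw [div_lt_iff₀ hN', le_div_iff₀ hN']
    constructor
    · rintro ⟨h1, h2⟩
      constructor <;> linarith
    · rintro ⟨h1, h2⟩
      constructor <;> linarith
  unfold one
  by_cases h : y ∈ Ioc (-c / N) ((1 - c) / N)
  · rw [indicator_of_mem h, indicator_of_mem (hiff.2 h), one_mul]
  · rw [indicator_of_notMem h, indicator_of_notMem (fun h' => h (hiff.1 h')), zero_mul]

/-- integration against `one (c + s)` in `c` -/
lemma qg_int_shift (s : ℝ) (k : ℝ → ℝ) :
    (∫ c, one (c + s) * k c) = ∫ c in (-s)..(1 - s), k c := by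
  rw [intervalIntegral.integral_of_le (by linarith), ← integral_indicator measurableSet_Ioc]
  congr 1
  funext y
  have hiff : y + s ∈ Ioc (0 : ℝ) 1 ↔ y ∈ Ioc (-s) (1 - s) := by
    simp only [mem_Ioc]
    constructor
    · rintro ⟨h1, h2⟩
      constructor <;> linarith
    · rintro ⟨h1, h2⟩
      constructor <;> linarith
  unfold one
  by_cases h : y ∈ Ioc (-s) (1 - s)
  · rw [indicator_of_mem h, indicator_of_mem (hiff.2 h), one_mul]
  · rw [indicator_of_notMem h, indicator_of_notMem (fun h' => h (hiff.1 h')), zero_mul]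

/-- integration against `one` -/
lemma qg_int_one (k : ℝ → ℝ) : (∫ y, k y * one y) = ∫ y in (0 : ℝ)..1, k y := by
  rw [intervalIntegral.integral_of_le zero_le_one, ← integral_indicator measurableSet_Ioc]
  congr 1
  funext y
  unfold one
  by_cases h : y ∈ Ioc (0 : ℝ) 1
  · rw [indicator_of_mem h, indicator_of_mem h, mul_one]
  · rw [indicator_of_notMem h, indicator_of_notMem h, mul_zero]

theorem B_one_left (N : ℕ) (hN : 0 < N) {f f1 f2 : ℝ → ℝ} (h : Bump f f1 f2) (c : ℝ) :
    B N one f2 c = f1 ((1 - c) / N) - f1 (-c / N) := by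
  unfold B
  rw [qg_int_comp N hN c f2]
  exact intervalIntegral.integral_eq_sub_of_hasDerivAt (fun x _ => h.d2 x)
    (h.c2.intervalIntegrable _ _)

theorem B_one_right (N : ℕ) (hN : 0 < N) {f f1 f2 : ℝ → ℝ} (h : Bump f f1 f2) (c : ℝ) :
    B N f2 one c = (N : ℝ)⁻¹ * (f1 (c + N) - f1 c) := by
  have hN' : (N : ℝ) ≠ 0 := by
    have : (0 : ℝ) < N := by exact_mod_cast hN
    exact this.ne'
  unfold B
  rw [qg_int_one (fun y => f2 (c + N * y))]
  rw [intervalIntegral.integral_comp_add_mul f2 hN' c, smul_eq_mul]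
  rw [intervalIntegral.integral_eq_sub_of_hasDerivAt (fun x _ => h.d2 x)
    (h.c2.intervalIntegrable _ _)]
  simp

/-- Fubini for bounded measurable functions with bounded support -/
lemma qg_fub {F : ℝ → ℝ → ℝ} (hm : Measurable (Function.uncurry F)) {M R : ℝ}
    (hb : ∀ x ∈ Icc (-R) R, ∀ y ∈ Icc (-R) R, |F x y| ≤ M)
    (hs : ∀ x y, F x y ≠ 0 → x ∈ Icc (-R) R ∧ y ∈ Icc (-R) R) :
    (∫ x, ∫ y, F x y) = ∫ y, ∫ x, F x y := by
  apply MeasureTheory.integral_integral_swap
  have hfin : (volume.prod volume : Measure (ℝ × ℝ)) (Icc (-R) R ×ˢ Icc (-R) R) ≠ ⊤ := by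
    rw [Measure.prod_prod]
    exact ENNReal.mul_ne_top measure_Icc_lt_top.ne measure_Icc_lt_top.ne
  have hI : IntegrableOn (Function.uncurry F) (Icc (-R) R ×ˢ Icc (-R) R)
      (volume.prod volume) := by
    refine Measure.integrableOn_of_bounded (M := M) hfin hm.aestronglyMeasurable ?_
    refine (ae_restrict_iff' (measurableSet_Icc.prod measurableSet_Icc)).2 (ae_of_all _ ?_)
    rintro ⟨x, y⟩ hxy
    exact hb x hxy.1 y hxy.2
  rw [integrableOn_iff_integrable_of_support_subset] at hI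
  · exact hI
  · rintro ⟨x, y⟩ hxy
    exact hs x y hxy

/-- Fubini for continuous functions on rectangles -/
lemma qg_fub_cont {F : ℝ → ℝ → ℝ} (hc : Continuous (Function.uncurry F)) (a b c d : ℝ) :
    (∫ x in a..b, ∫ y in c..d, F x y) = ∫ y in c..d, ∫ x in a..b, F x y := by
  apply MeasureTheory.intervalIntegral_intervalIntegral_swap
  have hk : IsCompact (uIcc a b ×ˢ uIcc c d) := isCompact_uIcc.prod isCompact_uIcc
  exact (hc.continuousOn.integrableOn_compact hk).mono_set
    (prod_mono uIoc_subset_uIcc uIoc_subset_uIcc)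

lemma qg_one_meas : Measurable one := measurable_const.indicator measurableSet_Ioc

lemma qg_one_abs (x : ℝ) : |one x| ≤ 1 := by
  unfold one
  by_cases h : x ∈ Ioc (0 : ℝ) 1
  · rw [indicator_of_mem h]; simp
  · rw [indicator_of_notMem h]; simp

lemma qg_one_mem {x : ℝ} (h : one x ≠ 0) : x ∈ Ioc (0 : ℝ) 1 := by
  by_contra h'
  exact h (indicator_of_notMem h' _)

/-- `gamma` as an interval integral -/
lemma qg_gam (N : ℕ) {f f1 f2 : ℝ → ℝ} (h : Bump f f1 f2) (c : ℝ) :
    B N f2 f2 c = ∫ y in (0 : ℝ)..1, f2 (c + N * y) * f2 y := by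
  unfold B
  rw [← qg_int_one]
  congr 1
  funext y
  unfold one
  by_cases hy : y ∈ Ioc (0 : ℝ) 1
  · rw [indicator_of_mem hy, mul_one]
  · rw [indicator_of_notMem hy, mul_zero, h.z2 y (fun h' => hy ⟨h'.1, h'.2.le⟩), mul_zero]

lemma qg_gam_cont (N : ℕ) {f f1 f2 : ℝ → ℝ} (h : Bump f f1 f2) :
    Continuous (fun c => B N f2 f2 c) := by
  have hc := h.c2
  have : (fun c => B N f2 f2 c) = fun c => ∫ y in (0 : ℝ)..1, f2 (c + N * y) * f2 y := by
    funext c
    exact qg_gam N h c
  rw [this]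
  apply intervalIntegral.continuous_parametric_intervalIntegral_of_continuous'
  fun_prop

/-- first Fubini -/
lemma qg_step1 (N : ℕ) {k : ℝ → ℝ} (hk : Continuous k) :
    (∫ c, B N one one c * k c)
      = ∫ u in (0 : ℝ)..1, ∫ c in (-(N * u))..(1 - N * u), k c := by
  have h1 : (∫ c, B N one one c * k c) = ∫ c, ∫ u, one (c + N * u) * one u * k c := by
    congr 1
    funext c
    unfold B
    rw [integral_mul_const]
  have hNn : (0 : ℝ) ≤ N := Nat.cast_nonneg N
  have hsupp : ∀ x y : ℝ, one (x + N * y) * one y * k x ≠ 0 →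
      x ∈ Icc (-((N : ℝ) + 1)) (N + 1) ∧ y ∈ Icc (-((N : ℝ) + 1)) (N + 1) := by
    intro x y hxy
    have ha : one (x + N * y) ≠ 0 := fun h0 => hxy (by rw [h0]; ring)
    have hb : one y ≠ 0 := fun h0 => hxy (by rw [h0]; ring)
    have ha' := qg_one_mem ha
    have hb' := qg_one_mem hb
    have h3 : (N : ℝ) * y ≤ N := by nlinarith [hb'.1, hb'.2]
    have h4 : 0 ≤ (N : ℝ) * y := mul_nonneg hNn hb'.1.le
    constructor
    · constructor
      · linarith [ha'.1]
      · linarith [ha'.2]
    · constructor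
      · linarith [hb'.1]
      · linarith [hb'.2]
  obtain ⟨M, hM⟩ := (isCompact_Icc (a := -((N : ℝ) + 1)) (b := (N : ℝ) + 1)).exists_bound_of_continuousOn
    hk.continuousOn
  have hmeas : Measurable (Function.uncurry fun x y : ℝ => one (x + N * y) * one y * k x) := by
    have hone := qg_one_meas
    have hkm := hk.measurable
    simp only [Function.uncurry_def]
    fun_prop
  rw [h1, qg_fub hmeas (M := M) (R := (N : ℝ) + 1) ?_ hsupp]
  · rw [← qg_int_one]
    congr 1
    funext u
    rw [← qg_int_shift]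
    rw [← integral_mul_const]
    congr 1
    funext c
    ring
  · intro x hx y hy
    have hMx := hM x hx
    rw [Real.norm_eq_abs] at hMx
    rw [abs_mul, abs_mul]
    have e1 := qg_one_abs (x + N * y)
    have e2 := qg_one_abs y
    have e3 : |one (x + N * y)| * |one y| ≤ 1 :=
      mul_le_one₀ e1 (abs_nonneg _) e2
    calc |one (x + N * y)| * |one y| * |k x| ≤ 1 * |k x| :=
          mul_le_mul_of_nonneg_right e3 (abs_nonneg _)
      _ ≤ M := by rw [one_mul]; exact hMx

theorem qgamma (N : ℕ) (hN : 0 < N) {f f1 f2 : ℝ → ℝ} (h : Bump f f1 f2) :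
    (∫ c, B N one one c * B N f2 f2 c)
      = -((N : ℝ)⁻¹ * ∫ y in (0 : ℝ)..1, f2 y * (f (N * y) + f (1 - N + N * y))) := by
  have hN' : (0 : ℝ) < N := by exact_mod_cast hN
  have hc2 := h.c2
  have hc1 : Continuous f1 := continuous_iff_continuousAt.2 fun x => (h.d2 x).continuousAt
  rw [qg_step1 N (qg_gam_cont N h)]
  -- swap inside
  have h2 : ∀ u : ℝ, (∫ c in (-(N * u))..(1 - N * u), B N f2 f2 c)
      = ∫ y in (0 : ℝ)..1, (f1 (1 - N * u + N * y) - f1 (-(N * u) + N * y)) * f2 y := by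
    intro u
    have e1 : (∫ c in (-(N * u))..(1 - N * u), B N f2 f2 c)
        = ∫ c in (-((N : ℝ) * u))..(1 - N * u), ∫ y in (0 : ℝ)..1, f2 (c + N * y) * f2 y := by
      congr 1
      funext c
      exact qg_gam N h c
    rw [e1, qg_fub_cont (F := fun c y => f2 (c + N * y) * f2 y)
      (by simp only [Function.uncurry_def]; fun_prop)]
    congr 1
    funext y
    rw [intervalIntegral.integral_mul_const]
    congr 1
    rw [intervalIntegral.integral_comp_add_right (fun x => f2 x) ((N : ℝ) * y)]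
    exact intervalIntegral.integral_eq_sub_of_hasDerivAt (fun x _ => h.d2 x)
      (hc2.intervalIntegrable _ _)
  have h3 : (∫ u in (0 : ℝ)..1, ∫ c in (-(N * u))..(1 - N * u), B N f2 f2 c)
      = ∫ u in (0 : ℝ)..1, ∫ y in (0 : ℝ)..1,
          (f1 (1 - N * u + N * y) - f1 (-(N * u) + N * y)) * f2 y := by
    congr 1
    funext u
    exact h2 u
  rw [h3, qg_fub_cont (F := fun u y => (f1 (1 - N * u + N * y) - f1 (-(N * u) + N * y)) * f2 y)
    (by simp only [Function.uncurry_def]; fun_prop)]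
  rw [← intervalIntegral.integral_const_mul, ← intervalIntegral.integral_neg]
  apply intervalIntegral.integral_congr
  intro y hy
  rw [uIcc_of_le zero_le_one] at hy
  simp only
  rw [intervalIntegral.integral_mul_const]
  have hder : ∀ u : ℝ, HasDerivAt
      (fun u : ℝ => -((N : ℝ)⁻¹ * (f (1 - N * u + N * y) - f (-(N * u) + N * y))))
      (f1 (1 - N * u + N * y) - f1 (-(N * u) + N * y)) u := by
    intro u
    have i1 : HasDerivAt (fun u : ℝ => 1 - N * u + N * y) (-(N : ℝ)) u := by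
      have := (((hasDerivAt_id u).const_mul (N : ℝ)).const_sub 1).add_const ((N : ℝ) * y)
      simpa using this
    have i2 : HasDerivAt (fun u : ℝ => -(N * u) + N * y) (-(N : ℝ)) u := by
      have := (((hasDerivAt_id u).const_mul (N : ℝ)).neg).add_const ((N : ℝ) * y)
      simpa using this
    have j1 := (h.d1 (1 - N * u + N * y)).comp u i1
    have j2 := (h.d1 (-(N * u) + N * y)).comp u i2
    have j3 := ((j1.sub j2).const_mul ((N : ℝ)⁻¹)).neg
    refine j3.congr_deriv ?_
    field_simp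
    ring
  rw [intervalIntegral.integral_eq_sub_of_hasDerivAt (fun u _ => hder u)
    ((by fun_prop : Continuous fun u : ℝ =>
      f1 (1 - N * u + N * y) - f1 (-(N * u) + N * y)).intervalIntegrable _ _)]
  have k1 : f (1 - N * 0 + N * y) = 0 := by
    apply h.z0
    intro hh
    have : 0 ≤ (N : ℝ) * y := mul_nonneg hN'.le hy.1
    linarith [hh.2]
  have k2 : f (-(N * 1) + N * y) = 0 := by
    apply h.z0
    intro hh
    have : (N : ℝ) * y ≤ N * 1 := mul_le_mul_of_nonneg_left hy.2 hN'.le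
    linarith [hh.1]
  have k3 : f (-(N * 0) + N * y) = f (N * y) := by
    congr 1; ring
  have k4 : f (1 - N * 1 + N * y) = f (1 - N + N * y) := by
    congr 1; ring
  rw [k1, k2, k3, k4]
  ring

end Pool.Agent.Helper63.Common
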