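import Pool.Agent.Helper63.Common.Core
import Pool.Agent.Helper63.Common.Limit

set_option autoImplicit false
open Finset Filter Topology

namespace Pool.Agent.Helper63.Common

/-- restriction of a colouring -/
lemma mono_restrict (N n n' : ℕ) (hle : n' ≤ n) (c : Fin n → Fin 2) :
    (mono N n' (fun x => c (Fin.castLE hle x))).card ≤ (mono N n c).card := by
  apply Finset.card_le_card_of_injOn (fun x i => Fin.castLE hle (x i))
  · intro x hx
    simp only [mono, Finset.coe_filter, Finset.mem_univ, true_and, Set.mem_ofPred_eq] at hx ⊢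
    exact ⟨by simpa using hx.1, hx.2⟩
  · intro x _ y _ hxy
    funext i
    exact Fin.castLE_injective hle (congrFun hxy i)

/-- sign function of a 2-colouring -/
noncomputable def sg {n : ℕ} (c : Fin n → Fin 2) (x : Fin n) : ℝ := if c x = 0 then 1 else -1

lemma mono_eq_T (N n : ℕ) (c : Fin n → Fin 2) :
    T N n (fun x => 1 + sg c x) + T N n (fun x => 1 - sg c x) = 16 * ((mono N n c).card : ℝ) := by
  have hm : mono N n c = (sol N n).filter (fun x => ∀ i j : Fin 4, c (x i) = c (x j)) := by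
    ext x
    simp [mono, sol]
  rw [hm, Finset.card_filter]
  push_cast
  unfold T
  rw [← Finset.sum_add_distrib, Finset.mul_sum]
  refine Finset.sum_congr rfl fun x _ => ?_
  have hv : ∀ i, c (x i) = 0 ∨ c (x i) = 1 := by
    intro i
    have := (c (x i)).isLt
    rcases Nat.lt_or_ge (c (x i)).val 1 with h | h
    · left; ext; simp; omega
    · right; ext; simp; omega
  have h01 : ¬ ((1 : Fin 2) = 0) := by decide
  have s0 : ∀ i, c (x i) = 0 → sg c (x i) = 1 := by
    intro i h
    unfold sg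
    rw [if_pos h]
  have s1 : ∀ i, c (x i) = 1 → sg c (x i) = -1 := by
    intro i h
    unfold sg
    rw [h, if_neg h01]
  by_cases hall : ∀ i j : Fin 4, c (x i) = c (x j)
  · rw [if_pos hall]
    rcases hv 0 with h | h
    · have h' : ∀ i, sg c (x i) = 1 := fun i => s0 i ((hall i 0).trans h)
      simp only [h']
      norm_num
    · have h' : ∀ i, sg c (x i) = -1 := fun i => s1 i ((hall i 0).trans h)
      simp only [h']
      norm_num
  · rw [if_neg hall]
    push Not at hall
    obtain ⟨i, j, hij⟩ := hall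
    rcases hv i with hi | hi <;> rcases hv j with hj | hj
    · exact absurd (hi.trans hj.symm) hij
    · rw [Finset.prod_eq_zero (Finset.mem_univ j) (by simp [s1 j hj]),
        Finset.prod_eq_zero (Finset.mem_univ i) (by simp [s0 i hi])]
      norm_num
    · rw [Finset.prod_eq_zero (Finset.mem_univ i) (by simp [s1 i hi]),
        Finset.prod_eq_zero (Finset.mem_univ j) (by simp [s0 j hj])]
      norm_num
    · exact absurd (hi.trans hj.symm) hij

lemma mono_ge (N n q : ℕ) (hN : 32 ≤ N) (hq : Nat.Coprime q N) (hle : N * q ≤ n)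
    (c : Fin n → Fin 2) : ((sol N (N * q)).card : ℝ) / 8 ≤ (mono N n c).card := by
  have h1 := mono_restrict N n (N * q) hle c
  have h1' : ((mono N (N * q) (fun x => c (Fin.castLE hle x))).card : ℝ) ≤ (mono N n c).card := by
    exact_mod_cast h1
  have h2 := core N q hN hq (sg (fun x => c (Fin.castLE hle x)))
  rw [mono_eq_T, T_one] at h2
  linarith

/-- the reduced length -/
def red (N n : ℕ) : ℕ := N * ((n - N) / N ^ 2) + 1

lemma red_coprime (N n : ℕ) : Nat.Coprime (red N n) N := by
  unfold red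
  simp

lemma red_le (N n : ℕ) (hn : N ≤ n) : N * red N n ≤ n := by
  unfold red
  have := Nat.div_mul_le_self (n - N) (N ^ 2)
  calc N * (N * ((n - N) / N ^ 2) + 1) = (n - N) / N ^ 2 * N ^ 2 + N := by ring
    _ ≤ (n - N) + N := by omega
    _ = n := by omega

lemma red_ge (N n : ℕ) (hN : 0 < N) (hn : N ≤ n) : n ≤ N * red N n + N ^ 2 := by
  unfold red
  have h := Nat.lt_div_mul_add (a := n - N) (b := N ^ 2) (by positivity)
  calc n = (n - N) + N := by omega
    _ ≤ ((n - N) / N ^ 2 * N ^ 2 + N ^ 2) + N := by omega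
    _ = N * (N * ((n - N) / N ^ 2) + 1) + N ^ 2 := by ring

lemma red_tendsto (N : ℕ) (hN : 0 < N) : Tendsto (fun n => N * red N n) atTop atTop := by
  refine tendsto_atTop_atTop.mpr fun b => ⟨b + N ^ 2 + N, fun n hn => ?_⟩
  have := red_ge N n hN (by omega)
  omega

lemma red_ratio (N : ℕ) (hN : 0 < N) :
    Tendsto (fun n : ℕ => ((N * red N n : ℕ) : ℝ) / n) atTop (𝓝 1) := by
  have h1 : Tendsto (fun n : ℕ => 1 - (N : ℝ) ^ 2 / n) atTop (𝓝 1) := by
    have := tendsto_const_div_atTop_nhds_zero_nat ((N : ℝ) ^ 2)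
    simpa using (tendsto_const_nhds (x := (1 : ℝ))).sub this
  refine tendsto_of_tendsto_of_tendsto_of_le_of_le' h1 tendsto_const_nhds ?_ ?_
  · filter_upwards [eventually_ge_atTop N, eventually_gt_atTop 0] with n hn hn0
    have h := red_ge N n hN hn
    have h' : (n : ℝ) ≤ ((N * red N n : ℕ) : ℝ) + (N : ℝ) ^ 2 := by exact_mod_cast h
    have hn' : (0 : ℝ) < n := by exact_mod_cast hn0
    rw [le_div_iff₀ hn', sub_mul, div_mul_cancel₀ _ hn'.ne']
    linarith
  · filter_upwards [eventually_ge_atTop N, eventually_gt_atTop 0] with n hn hn0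
    have h := red_le N n hn
    have h' : ((N * red N n : ℕ) : ℝ) ≤ n := by exact_mod_cast h
    have hn' : (0 : ℝ) < n := by exact_mod_cast hn0
    rw [div_le_one hn']
    exact h'

/-- the equation is 2-common for `N ≥ 32` -/
theorem two_common (N : ℕ) (hN : 32 ≤ N) :
    ∀ ε : ℝ, 0 < ε → ∃ n0 : ℕ, ∀ n : ℕ, n0 ≤ n → ∀ c : Fin n → Fin 2,
      ((((2 : ℝ) ^ 3)⁻¹ - ε) * ((sol N n).card : ℝ)) ≤ ((mono N n c).card : ℝ) := by
  intro ε hε
  have hN0 : 0 < N := by omega
  have hP := Phi_one_pos N hN0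
  have hc := tendsto_card N hN0
  have hc' : Tendsto (fun n : ℕ => ((sol N (N * red N n)).card : ℝ) / 8 / (n : ℝ) ^ 3) atTop
      (𝓝 (Phi N one / 8)) := by
    have h1 := (hc.comp (red_tendsto N hN0)).mul ((red_ratio N hN0).pow 3)
    have h2 := h1.div_const 8
    simp only [Function.comp_def, one_pow, mul_one] at h2
    refine h2.congr' ?_
    filter_upwards [(red_tendsto N hN0).eventually_gt_atTop 0, eventually_gt_atTop 0] with n h3 h4
    have h3' : ((N * red N n : ℕ) : ℝ) ≠ 0 := by exact_mod_cast h3.ne'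
    have h4' : (n : ℝ) ≠ 0 := by exact_mod_cast h4.ne'
    field_simp
  have hs : Tendsto (fun n : ℕ => (((2 : ℝ) ^ 3)⁻¹ - ε) * (((sol N n).card : ℝ) / (n : ℝ) ^ 3)) atTop
      (𝓝 ((((2 : ℝ) ^ 3)⁻¹ - ε) * Phi N one)) := hc.const_mul _
  have hlt : (((2 : ℝ) ^ 3)⁻¹ - ε) * Phi N one < Phi N one / 8 := by
    have : 0 < ε * Phi N one := mul_pos hε hP
    norm_num
    linarith
  have hev := hs.eventually_lt hc' hlt
  obtain ⟨n0, hn0⟩ := eventually_atTop.mp
    ((hev.and (eventually_ge_atTop N)).and (eventually_gt_atTop 0))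
  refine ⟨n0, fun n hn c => ?_⟩
  obtain ⟨⟨h1, h2⟩, h3⟩ := hn0 n hn
  have h4 := mono_ge N n (red N n) hN (red_coprime N n) (red_le N n h2) c
  have hn3 : (0 : ℝ) < (n : ℝ) ^ 3 := by positivity
  rw [← mul_div_assoc, div_lt_div_iff_of_pos_right hn3] at h1
  linarith

end Pool.Agent.Helper63.Common
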